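import Pool.Agent.J4H38.GS.Ms2

/-!
# Project GS: assembly
-/

set_option autoImplicit false

open MeasureTheory Set Filter Polynomial

namespace Pool.Agent.J4H38.GSX

open Pool.Agent.J4H38.GS

noncomputable section

/-- growth of a polynomial -/
theorem poly_le (P : ℂ[X]) : ∃ C : ℝ, 0 ≤ C ∧ ∀ u : ℝ, 0 ≤ u → ‖P.eval (u : ℂ)‖ ≤ C * Real.exp (u / 4) := by
  refine ⟨∑ j ∈ P.support, ‖P.coeff j‖ * (4 ^ j * (j.factorial : ℝ)),
    Finset.sum_nonneg (fun j _ => by positivity), fun u hu => ?_⟩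
  rw [Polynomial.eval_eq_sum, Polynomial.sum, Finset.sum_mul]
  refine (norm_sum_le _ _).trans (Finset.sum_le_sum (fun j _ => ?_))
  rw [norm_mul, norm_pow, Complex.norm_real, Real.norm_of_nonneg hu, mul_assoc]
  gcongr
  have h1 := Real.pow_div_factorial_le_exp (u / 4) (by positivity) j
  rw [div_pow, div_div, div_le_iff₀ (by positivity)] at h1
  linarith

theorem RR_le (P : ℂ[X]) : ∃ C : ℝ, 0 ≤ C ∧ ∀ s : ℂ, 1 ≤ |s.im| → ‖RR P s‖ ≤ C / |s.im| := by
  refine ⟨∑ j ∈ P.support, ‖P.coeff j‖ * (j.factorial : ℝ),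
    Finset.sum_nonneg (fun j _ => by positivity), fun s hs => ?_⟩
  have h0 : |s.im| ≤ ‖s - 1‖ := by
    have := Complex.abs_im_le_norm (s - 1)
    simpa using this
  have hs0 : 0 < |s.im| := by linarith
  rw [RR, Polynomial.sum, Finset.sum_div]
  refine (norm_sum_le _ _).trans (Finset.sum_le_sum (fun j _ => ?_))
  rw [norm_mul, norm_div, norm_pow, Complex.norm_natCast, mul_div_assoc]
  gcongr
  calc |s.im| ≤ ‖s - 1‖ := h0
    _ ≤ ‖s - 1‖ ^ (j + 1) := le_self_pow₀ (by linarith) (by omega)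

/-- the remainder in logarithmic scale -/
def gg (k : ℕ) (α : Fin k → ℝ) (P : ℂ[X]) (u : ℝ) : ℂ :=
  if u < 0 then 0 else (cnt k α (Real.exp u) : ℂ) - (Real.exp u : ℂ) * P.eval (u : ℂ)

theorem gg_meas {k : ℕ} {α : Fin k → ℝ} (P : ℂ[X]) (hm : Measurable (fun x => (cnt k α x : ℝ))) :
    Measurable (gg k α P) := by
  unfold gg
  refine Measurable.ite measurableSet_Iio measurable_const ?_
  have h1 : Measurable (fun u : ℝ => (cnt k α (Real.exp u) : ℂ)) := by
    have : (fun u : ℝ => (cnt k α (Real.exp u) : ℂ)) = fun u : ℝ => (((cnt k α (Real.exp u) : ℝ)) : ℂ) := by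
      funext u
      simp
    rw [this]
    exact Complex.measurable_ofReal.comp (hm.comp Real.measurable_exp)
  have h2 : Measurable (fun u : ℝ => (Real.exp u : ℂ) * P.eval (u : ℂ)) :=
    (Complex.continuous_ofReal.comp Real.continuous_exp |>.mul
      (P.continuous.comp Complex.continuous_ofReal)).measurable
  exact h1.sub h2

/-- the counting function is monotone -/
theorem cnt_mono {k : ℕ} {α : Fin k → ℝ} (hα : ∀ i, 0 ≤ α i) : Monotone (cnt k α) := by
  intro x y hxy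
  unfold cnt
  apply Set.ncard_le_ncard
  · rintro n ⟨h1, h2⟩
    exact ⟨h1, h2.trans hxy⟩
  · refine Set.Finite.subset (Set.Finite.pi' (fun _ : Fin k => Set.finite_Iic ⌊y⌋₊)) ?_
    rintro n ⟨h1, h2⟩ i
    show n i ≤ ⌊y⌋₊
    apply Nat.le_floor
    refine le_trans ?_ h2
    have h3 : ∀ j, (1 : ℝ) ≤ (n j : ℝ) + α j := fun j => by
      have h4 : (1 : ℝ) ≤ n j := by exact_mod_cast h1 j
      linarith [hα j]
    calc (n i : ℝ) ≤ (n i : ℝ) + α i := by linarith [hα i]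
      _ ≤ ∏ j, ((n j : ℝ) + α j) := by
        rw [← Finset.mul_prod_erase Finset.univ _ (Finset.mem_univ i)]
        refine le_mul_of_one_le_right (by linarith [h3 i]) ?_
        calc (1 : ℝ) = ∏ _j ∈ Finset.univ.erase i, (1 : ℝ) := by simp
          _ ≤ _ := Finset.prod_le_prod (fun _ _ => zero_le_one) (fun j _ => h3 j)

/-- the remainder is almost everywhere continuous -/
theorem gg_cont {k : ℕ} {α : Fin k → ℝ} (hα : ∀ i, 0 ≤ α i) (P : ℂ[X]) : ∀ᵐ v : ℝ, ContinuousAt (gg k α P) v := by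
  have hmon : Monotone (fun u : ℝ => (cnt k α (Real.exp u) : ℝ)) := fun u v huv => by
    have := cnt_mono hα (Real.exp_le_exp.2 huv)
    show (cnt k α (Real.exp u) : ℝ) ≤ (cnt k α (Real.exp v) : ℝ)
    exact_mod_cast this
  have h1 : ∀ᵐ v : ℝ, ContinuousAt (fun u : ℝ => (cnt k α (Real.exp u) : ℝ)) v := by
    have h2 := hmon.countable_not_continuousAt
    filter_upwards [h2.ae_notMem volume] with v hv
    simpa using hv
  have h0 : ∀ᵐ v : ℝ, v ≠ 0 := ne_zero_ae
  filter_upwards [h1, h0] with v hv hv0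
  rcases lt_or_gt_of_ne hv0 with h | h
  · have h2 : gg k α P =ᶠ[nhds v] fun _ => 0 := by
      filter_upwards [Iio_mem_nhds h] with u hu
      have hu' : u < 0 := hu
      rw [gg, if_pos hu']
    exact continuousAt_const.congr h2.symm
  · have h2 : gg k α P =ᶠ[nhds v] fun u => (((cnt k α (Real.exp u) : ℝ)) : ℂ) - (Real.exp u : ℂ) * P.eval (u : ℂ) := by
      filter_upwards [Ioi_mem_nhds h] with u hu
      have hu' : (0 : ℝ) < u := hu
      rw [gg, if_neg (not_lt.2 hu'.le), Complex.ofReal_natCast]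
    refine ContinuousAt.congr ?_ h2.symm
    have h3 : ContinuousAt (fun u : ℝ => (((cnt k α (Real.exp u) : ℝ)) : ℂ)) v :=
      ContinuousAt.comp (f := fun u : ℝ => (cnt k α (Real.exp u) : ℝ)) Complex.continuous_ofReal.continuousAt hv
    have h4 : Continuous (fun u : ℝ => (Real.exp u : ℂ) * P.eval (u : ℂ)) :=
      (Complex.continuous_ofReal.comp Real.continuous_exp).mul (P.continuous.comp Complex.continuous_ofReal)
    exact h3.sub h4.continuousAt

theorem gg_le {k : ℕ} {α : Fin k → ℝ} (P : ℂ[X])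
    (hb : ∃ C : ℝ, 0 ≤ C ∧ ∀ x : ℝ, 1 ≤ x → (cnt k α x : ℝ) ≤ C * x ^ (3 / 2 : ℝ)) :
    ∃ A : ℝ, 0 ≤ A ∧ ∀ u : ℝ, 0 ≤ u → ‖gg k α P u‖ ≤ A * Real.exp (7 / 4 * u) := by
  obtain ⟨C, hC, h⟩ := hb
  obtain ⟨C', hC', h'⟩ := poly_le P
  refine ⟨C + C', by positivity, fun u hu => ?_⟩
  rw [gg, if_neg (not_lt.2 hu)]
  have e1 : ‖(cnt k α (Real.exp u) : ℂ)‖ ≤ C * Real.exp (7 / 4 * u) := by
    rw [Complex.norm_natCast]
    refine (h _ (Real.one_le_exp hu)).trans ?_
    rw [← Real.exp_mul]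
    exact mul_le_mul_of_nonneg_left (Real.exp_le_exp.2 (by linarith)) hC
  have e2 : ‖(Real.exp u : ℂ) * P.eval (u : ℂ)‖ ≤ C' * Real.exp (7 / 4 * u) := by
    rw [norm_mul, Complex.norm_real, Real.norm_of_nonneg (Real.exp_pos _).le]
    calc Real.exp u * ‖P.eval (u : ℂ)‖ ≤ Real.exp u * (C' * Real.exp (u / 4)) := by
          gcongr
          exact h' u hu
      _ = C' * Real.exp (u + u / 4) := by rw [Real.exp_add]; ring
      _ ≤ C' * Real.exp (7 / 4 * u) := by
          gcongr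
          linarith
  calc ‖(cnt k α (Real.exp u) : ℂ) - (Real.exp u : ℂ) * P.eval (u : ℂ)‖ ≤ _ := norm_sub_le _ _
    _ ≤ C * Real.exp (7 / 4 * u) + C' * Real.exp (7 / 4 * u) := add_le_add e1 e2
    _ = _ := by ring

theorem enn_sq (a b : ENNReal) : (a + b) ^ 2 ≤ 4 * (a ^ 2 + b ^ 2) := by
  have h1 : a + b ≤ 2 * max a b := by
    rw [two_mul]
    exact add_le_add (le_max_left _ _) (le_max_right _ _)
  have h2 : (max a b) ^ 2 ≤ a ^ 2 + b ^ 2 := by
    rcases max_choice a b with h | h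
    · rw [h]
      exact le_self_add
    · rw [h]
      exact le_add_self
  calc (a + b) ^ 2 ≤ (2 * max a b) ^ 2 := ENNReal.pow_le_pow_left h1
    _ = 4 * (max a b) ^ 2 := by
        rw [mul_pow]
        norm_num
    _ ≤ 4 * (a ^ 2 + b ^ 2) := by gcongr

theorem expint {a : ℝ} (ha : 0 < a) : IntegrableOn (fun u : ℝ => Real.exp (-a * u)) (Ioi 0) :=
  exp_neg_integrableOn_Ioi 0 ha

theorem gg_trans {k : ℕ} {α : Fin k → ℝ} (P : ℂ[X]) {G : ℂ → ℂ}
    (hm : Measurable (fun x => (cnt k α x : ℝ)))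
    (hb : ∃ C : ℝ, 0 ≤ C ∧ ∀ x : ℝ, 1 ≤ x → (cnt k α x : ℝ) ≤ C * x ^ (3 / 2 : ℝ))
    (ht : ∀ s : ℂ, 3 / 2 < s.re →
      ∫ u in Ioi (0 : ℝ), (cnt k α (Real.exp u) : ℂ) * Complex.exp (-s * u) = ZZ k α s)
    (hPM : S_PM) (hG : ∀ s : ℂ, 0 < s.re → s ≠ 1 → ZZ k α s = G s + RR P s) (t : ℝ) :
    ∫ u in Ioi (0 : ℝ), gg k α P u * Complex.exp (-((2 : ℝ) + t * Complex.I) * u) =
      G ((2 : ℝ) + t * Complex.I) := by
  set s : ℂ := (2 : ℝ) + t * Complex.I with hs
  have hre : s.re = 2 := by simp [hs]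
  obtain ⟨hP1, hP2⟩ := hPM P s (by rw [hre]; norm_num)
  have hne : s ≠ 1 := fun h => by
    rw [h] at hre
    simp at hre
  have h1 := ht s (by rw [hre]; norm_num)
  have h2 := hG s (by rw [hre]; norm_num) hne
  obtain ⟨C, hC, h⟩ := hb
  have hi : IntegrableOn (fun u : ℝ => (cnt k α (Real.exp u) : ℂ) * Complex.exp (-s * u)) (Ioi 0) := by
    refine Integrable.mono' ((expint (show (0 : ℝ) < 1 / 2 by norm_num)).const_mul C) ?_ ?_
    · have h3 : Measurable (fun u : ℝ => (cnt k α (Real.exp u) : ℂ)) := by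
        have : (fun u : ℝ => (cnt k α (Real.exp u) : ℂ)) =
            fun u : ℝ => (((cnt k α (Real.exp u) : ℝ)) : ℂ) := by
          funext u
          simp
        rw [this]
        exact Complex.measurable_ofReal.comp (hm.comp Real.measurable_exp)
      have h4 : Continuous (fun u : ℝ => Complex.exp (-s * u)) := by fun_prop
      exact (h3.mul h4.measurable).aestronglyMeasurable
    · filter_upwards [ae_restrict_mem measurableSet_Ioi] with u hu
      have hu' : (0 : ℝ) < u := hu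
      rw [norm_mul, Complex.norm_natCast, Complex.norm_exp]
      have e1 : (-s * u).re = -2 * u := by
        rw [Complex.mul_re, Complex.neg_re, hre]
        simp
      rw [e1]
      calc (cnt k α (Real.exp u) : ℝ) * Real.exp (-2 * u) ≤
            (C * Real.exp u ^ (3 / 2 : ℝ)) * Real.exp (-2 * u) := by
              gcongr
              exact h _ (Real.one_le_exp hu'.le)
        _ = C * Real.exp (-(1 / 2) * u) := by
              rw [← Real.exp_mul, mul_assoc, ← Real.exp_add]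
              congr 2
              ring
  have h3 : ∫ u in Ioi (0 : ℝ), gg k α P u * Complex.exp (-s * u) =
      ∫ u in Ioi (0 : ℝ), ((cnt k α (Real.exp u) : ℂ) * Complex.exp (-s * u) -
        (Real.exp u : ℂ) * P.eval (u : ℂ) * Complex.exp (-s * u)) := by
    apply setIntegral_congr_fun measurableSet_Ioi
    intro u hu
    have hu' : (0 : ℝ) < u := hu
    simp only [gg, if_neg (not_lt.2 hu'.le)]
    ring
  rw [h3, integral_sub hi hP1, h1, hP2, h2]
  ring

/-- square integrability on the line -/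
theorem G_L2 {k : ℕ} {α : Fin k → ℝ} (P : ℂ[X]) {G : ℂ → ℂ} {σ : ℝ} (hσ : 0 < σ) (hσ1 : σ < 1 / 2)
    (hd : DifferentiableOn ℂ G {s : ℂ | 0 < s.re})
    (hG : ∀ s : ℂ, 0 < s.re → s ≠ 1 → ZZ k α s = G s + RR P s)
    (hZ : ∫⁻ t in {t : ℝ | 1 ≤ |t|}, ‖ZZ k α (σ + t * Complex.I)‖ₑ ^ 2 < ⊤) :
    ∫⁻ t : ℝ, ‖G (σ + t * Complex.I)‖ₑ ^ 2 < ⊤ := by
  have hms : MeasurableSet {t : ℝ | 1 ≤ |t|} := measurableSet_le measurable_const (by fun_prop)
  have hcont : Continuous (fun t : ℝ => G (σ + t * Complex.I)) := by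
    rw [continuous_iff_continuousAt]
    intro t
    have h1 : DifferentiableAt ℂ G (σ + t * Complex.I) :=
      (hd _ (by simp [hσ])).differentiableAt ((isOpen_lt continuous_const Complex.continuous_re).mem_nhds (by simp [hσ]))
    have h2 : ContinuousAt (fun t : ℝ => (σ : ℂ) + t * Complex.I) t := by fun_prop
    exact ContinuousAt.comp (f := fun t : ℝ => (σ : ℂ) + t * Complex.I) h1.continuousAt h2
  rw [← lintegral_add_compl _ hms]
  refine ENNReal.add_lt_top.2 ⟨?_, ?_⟩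
  · obtain ⟨C, hC, hR⟩ := RR_le P
    have hsq : ∫⁻ t in {t : ℝ | 1 ≤ |t|}, ENNReal.ofReal (C / |t|) ^ 2 < ⊤ := by
      have h1 : ∀ t ∈ {t : ℝ | 1 ≤ |t|}, ENNReal.ofReal (C / |t|) ^ 2 ≤
          ENNReal.ofReal (2 * C ^ 2 * (1 + t ^ 2)⁻¹) := by
        intro t ht
        have ht' : 1 ≤ |t| := ht
        have ht2 : 1 ≤ t ^ 2 := by
          rw [← sq_abs]
          nlinarith
        rw [← ENNReal.ofReal_pow (by positivity)]
        apply ENNReal.ofReal_le_ofReal
        rw [div_pow, sq_abs, div_le_iff₀ (by positivity)]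
        have h2 : (1 : ℝ) ≤ 2 * ((1 + t ^ 2)⁻¹ * t ^ 2) := by
          rw [← mul_assoc, mul_comm (2 : ℝ), mul_assoc, inv_mul_eq_div, le_div_iff₀ (by positivity)]
          linarith
        nlinarith [sq_nonneg C]
      refine lt_of_le_of_lt (setLIntegral_mono' hms h1) ?_
      refine lt_of_le_of_lt (setLIntegral_le_lintegral _ _) ?_
      exact (integrable_inv_one_add_sq.const_mul (2 * C ^ 2)).lintegral_lt_top
    have h3 : ∀ t ∈ {t : ℝ | 1 ≤ |t|}, ‖G (σ + t * Complex.I)‖ₑ ^ 2 ≤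
        4 * (‖ZZ k α (σ + t * Complex.I)‖ₑ ^ 2 + ENNReal.ofReal (C / |t|) ^ 2) := by
      intro t ht
      have ht' : 1 ≤ |t| := ht
      have hne : (σ : ℂ) + t * Complex.I ≠ 1 := by
        intro h
        have h4 := congrArg Complex.im h
        simp at h4
        rw [h4] at ht'
        simp at ht'
        linarith
      have h4 : G (σ + t * Complex.I) = ZZ k α (σ + t * Complex.I) - RR P (σ + t * Complex.I) := by
        rw [hG _ (by simp [hσ]) hne]
        ring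
      have h5 : ‖RR P (σ + t * Complex.I)‖ ≤ C / |t| := by
        have := hR (σ + t * Complex.I) (by simpa using ht')
        simpa using this
      have h6 : ‖G (σ + t * Complex.I)‖ₑ ≤ ‖ZZ k α (σ + t * Complex.I)‖ₑ + ENNReal.ofReal (C / |t|) := by
        rw [h4]
        refine (enorm_sub_le).trans ?_
        gcongr
        rw [← ofReal_norm]
        exact ENNReal.ofReal_le_ofReal h5
      refine (ENNReal.pow_le_pow_left h6 (n := 2)).trans ?_
      exact enn_sq _ _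
    refine lt_of_le_of_lt (setLIntegral_mono' hms h3) ?_
    rw [lintegral_const_mul' _ _ (by norm_num), lintegral_add_right _ (by fun_prop)]
    exact ENNReal.mul_lt_top (by norm_num) (ENNReal.add_lt_top.2 ⟨hZ, hsq⟩)
  · obtain ⟨B, hB⟩ := (isCompact_Icc (a := (-1 : ℝ)) (b := 1)).exists_bound_of_continuousOn
      hcont.continuousOn
    have hsub : {t : ℝ | 1 ≤ |t|}ᶜ ⊆ Icc (-1) 1 := by
      intro t ht
      have ht' : ¬ 1 ≤ |t| := ht
      have := abs_lt.1 (not_le.1 ht')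
      exact ⟨this.1.le, this.2.le⟩
    refine lt_of_le_of_lt (lintegral_mono_set hsub) ?_
    have h1 : ∀ t ∈ Icc (-1 : ℝ) 1, ‖G (σ + t * Complex.I)‖ₑ ^ 2 ≤ ENNReal.ofReal B ^ 2 := by
      intro t ht
      apply ENNReal.pow_le_pow_left
      rw [← ofReal_norm]
      exact ENNReal.ofReal_le_ofReal (hB t ht)
    refine lt_of_le_of_lt (setLIntegral_mono' measurableSet_Icc h1) ?_
    rw [setLIntegral_const]
    exact ENNReal.mul_lt_top (by finiteness) (by simp)

/-- the change of variables -/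
theorem final {k : ℕ} {α : Fin k → ℝ} (P : ℂ[X]) {σ : ℝ} (hσ : 0 < σ)
    (hm : Measurable (fun x => (cnt k α x : ℝ)))
    (h : ∫⁻ u in Ioi (0 : ℝ), ‖gg k α P u‖ₑ ^ 2 * ENNReal.ofReal (Real.exp (-2 * σ * u)) < ⊤) :
    ∃ C : ℝ, 0 ≤ C ∧ ∀ X : ℝ, 1 ≤ X → ∫ x in (1 : ℝ)..X,
      ((cnt k α x : ℝ) - x * ((P.sum fun j p => monomial j p.re : ℝ[X])).eval (Real.log x)) ^ 2 ≤
        C * X ^ (1 + 2 * σ) := by
  set Pr : ℝ[X] := P.sum fun j p => monomial j p.re with hPr
  have hre : ∀ u : ℝ, (P.eval (u : ℂ)).re = Pr.eval u := by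
    intro u
    rw [hPr, Polynomial.sum, Polynomial.eval_finsetSum, Polynomial.eval_eq_sum, Polynomial.sum,
      Complex.re_sum]
    refine Finset.sum_congr rfl (fun j _ => ?_)
    rw [eval_monomial, ← Complex.ofReal_pow, Complex.re_mul_ofReal]
  set F : ℝ → ℝ := fun x => ((cnt k α x : ℝ) - x * Pr.eval (Real.log x)) ^ 2 with hF
  have hFm : Measurable F := by
    have h1 : Measurable (fun x : ℝ => x * Pr.eval (Real.log x)) :=
      measurable_id.mul (Pr.continuous.measurable.comp Real.measurable_log)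
    exact (hm.sub h1).pow_const 2
  set J := ∫⁻ u in Ioi (0 : ℝ), ‖gg k α P u‖ₑ ^ 2 * ENNReal.ofReal (Real.exp (-2 * σ * u)) with hJ
  refine ⟨J.toReal, ENNReal.toReal_nonneg, fun X hX => ?_⟩
  have hX0 : 0 < X := by linarith
  rw [intervalIntegral.integral_of_le hX, integral_eq_lintegral_of_nonneg_ae
    (Eventually.of_forall (fun x => sq_nonneg _)) hFm.aestronglyMeasurable]
  apply ENNReal.toReal_le_of_le_ofReal (by positivity)
  have hlog : 0 ≤ Real.log X := Real.log_nonneg hX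
  have himg : Ioc (1 : ℝ) X = Real.exp '' Ioc 0 (Real.log X) := by
    ext x
    constructor
    · rintro ⟨h1, h2⟩
      refine ⟨Real.log x, ⟨Real.log_pos h1, Real.log_le_log (by linarith) h2⟩, Real.exp_log (by linarith)⟩
    · rintro ⟨u, ⟨h1, h2⟩, rfl⟩
      refine ⟨Real.one_lt_exp_iff.2 h1, ?_⟩
      rw [← Real.exp_log hX0]
      exact Real.exp_le_exp.2 h2
  rw [himg, lintegral_image_eq_lintegral_abs_deriv_mul measurableSet_Ioc
    (fun u _ => (Real.hasDerivAt_exp u).hasDerivWithinAt) (Real.exp_injective.injOn)]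
  have h1 : ∀ u ∈ Ioc (0 : ℝ) (Real.log X), ENNReal.ofReal |Real.exp u| * ENNReal.ofReal (F (Real.exp u)) ≤
      ENNReal.ofReal (X ^ (1 + 2 * σ)) *
        (‖gg k α P u‖ₑ ^ 2 * ENNReal.ofReal (Real.exp (-2 * σ * u))) := by
    intro u hu
    have hu0 : 0 < u := hu.1
    have e1 : F (Real.exp u) ≤ ‖gg k α P u‖ ^ 2 := by
      have e2 : (gg k α P u).re = (cnt k α (Real.exp u) : ℝ) - Real.exp u * Pr.eval (Real.log (Real.exp u)) := by
        rw [gg, if_neg (not_lt.2 hu0.le), Complex.sub_re, Complex.re_ofReal_mul, hre, Real.log_exp]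
        simp
      simp only [hF]
      rw [← e2, ← sq_abs]
      exact pow_le_pow_left₀ (abs_nonneg _) (Complex.abs_re_le_norm _) 2
    have e3 : Real.exp u ≤ X ^ (1 + 2 * σ) * Real.exp (-2 * σ * u) := by
      have e4 : Real.exp ((1 + 2 * σ) * u) ≤ X ^ (1 + 2 * σ) := by
        rw [Real.rpow_def_of_pos hX0]
        apply Real.exp_le_exp.2
        have := hu.2
        nlinarith
      calc Real.exp u = Real.exp ((1 + 2 * σ) * u) * Real.exp (-2 * σ * u) := by
            rw [← Real.exp_add]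
            congr 1
            ring
        _ ≤ _ := by gcongr
    rw [abs_of_pos (Real.exp_pos u), ← ENNReal.ofReal_mul (Real.exp_pos u).le, ← ofReal_norm,
      ← ENNReal.ofReal_pow (norm_nonneg _), ← ENNReal.ofReal_mul (by positivity),
      ← ENNReal.ofReal_mul (by positivity)]
    apply ENNReal.ofReal_le_ofReal
    have hF0 : 0 ≤ F (Real.exp u) := sq_nonneg _
    calc Real.exp u * F (Real.exp u) ≤ (X ^ (1 + 2 * σ) * Real.exp (-2 * σ * u)) * ‖gg k α P u‖ ^ 2 := by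
          gcongr
      _ = _ := by ring
  refine (setLIntegral_mono' measurableSet_Ioc h1).trans ?_
  rw [lintegral_const_mul' _ _ ENNReal.ofReal_ne_top]
  calc ENNReal.ofReal (X ^ (1 + 2 * σ)) * ∫⁻ u in Ioc (0 : ℝ) (Real.log X),
        ‖gg k α P u‖ₑ ^ 2 * ENNReal.ofReal (Real.exp (-2 * σ * u)) ≤
      ENNReal.ofReal (X ^ (1 + 2 * σ)) * J := by
        gcongr
        exact lintegral_mono_set (fun u hu => hu.1)
    _ = ENNReal.ofReal (J.toReal * X ^ (1 + 2 * σ)) := by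
        rw [ENNReal.ofReal_mul ENNReal.toReal_nonneg, ENNReal.ofReal_toReal h.ne, mul_comm]

/-- the lines used -/
def sg (K : ℕ) (n : ℕ) : ℝ := ((K : ℝ) - 1) / (2 * K) + 1 / (2 * K) * (1 / ((n : ℝ) + 2))

theorem sg_lt {K : ℕ} (hK : 1 ≤ K) (n : ℕ) : ((K : ℝ) - 1) / (2 * K) < sg K n ∧ 0 < sg K n ∧ sg K n < 1 / 2 := by
  have hk0 : (0 : ℝ) < K := by
    have : 0 < K := hK
    exact_mod_cast this
  have hk1 : (1 : ℝ) ≤ K := by exact_mod_cast hK
  have hτ0 : 0 ≤ ((K : ℝ) - 1) / (2 * K) := div_nonneg (by linarith) (by positivity)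
  have hτ1 : ((K : ℝ) - 1) / (2 * K) + 1 / (2 * K) = 1 / 2 := by
    field_simp
    ring
  have h0 : 0 < 1 / (2 * (K : ℝ)) * (1 / ((n : ℝ) + 2)) := by positivity
  have h1 : 1 / ((n : ℝ) + 2) < 1 := by
    rw [div_lt_one (by positivity)]
    have : (0 : ℝ) ≤ n := Nat.cast_nonneg _
    linarith
  have h2 : 0 < 1 / (2 * (K : ℝ)) := by positivity
  unfold sg
  refine ⟨by linarith, by linarith, ?_⟩
  nlinarith

/-- the theorem for one shift vector -/
theorem core (hDAN : S_DAN) (hTR : S_TR) (hPP : S_PP) (hPM : S_PM) {K : ℕ} (hK : 1 ≤ K) {β : Fin K → ℝ}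
    (hcube : β ∈ cube K)
    (hβ : ∀ n : ℕ, ∫⁻ t in {t : ℝ | 1 ≤ |t|}, ‖ZZ K β (sg K n + t * Complex.I)‖ₑ ^ 2 < ⊤) :
    ∃ P : ℝ[X], P.degree < (K : WithBot ℕ) ∧ ∀ ε : ℝ, 0 < ε → ∃ C : ℝ, ∀ X : ℝ, 1 ≤ X →
      ∫ x in (1 : ℝ)..X, ((cnt K β x : ℝ) - x * P.eval (Real.log x)) ^ 2 ≤ C * X ^ (1 + ((K : ℝ) - 1) / K + ε) := by
  have hk0 : (0 : ℝ) < K := by
    have : 0 < K := hK
    exact_mod_cast this
  have hk1 : (1 : ℝ) ≤ K := by exact_mod_cast hK
  have hcube' : ∀ i, 0 ≤ β i ∧ β i < 1 := fun i => hcube i (mem_univ i)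
  obtain ⟨hm, hb, ht⟩ := hTR K β hcube
  obtain ⟨P, G, hdeg, hd, hG, hgr⟩ := hPP K (fun i => DD (β i)) hK
    (fun i => (hDAN (β i) (hcube' i).1 (hcube' i).2).1)
    (fun i s hs => (hDAN (β i) (hcube' i).1 (hcube' i).2).2 s hs)
  obtain ⟨A, hA, hA'⟩ := gg_le P hb
  have key : ∀ n : ℕ, ∃ C : ℝ, 0 ≤ C ∧ ∀ X : ℝ, 1 ≤ X → ∫ x in (1 : ℝ)..X,
      ((cnt K β x : ℝ) - x * ((P.sum fun j p => monomial j p.re : ℝ[X])).eval (Real.log x)) ^ 2 ≤
        C * X ^ (1 + 2 * sg K n) := by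
    intro n
    obtain ⟨hs0, hs, hs1⟩ := sg_lt hK n
    obtain ⟨C, m, hC, hCm⟩ := hgr (sg K n) hs
    refine final P hs hm ?_
    refine t_MS2 (gg K β P) G (sg K n) 2 (7 / 4) A C m hs (by linarith) (by norm_num)
      (gg_meas P hm) (gg_cont (fun i => (hcube' i).1) P) (fun u hu => by rw [gg, if_pos hu]) hA' hd
      (fun s h1 h2 => hCm s h1 (by linarith)) (fun t => ?_) (G_L2 P hs hs1 hd hG (hβ n))
    exact gg_trans P hm hb ht hPM hG t
  refine ⟨P.sum fun j p => monomial j p.re, ?_, fun ε hε => ?_⟩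
  · rw [Polynomial.sum]
    refine lt_of_le_of_lt (Polynomial.degree_sum_le _ _) ?_
    rw [Finset.sup_lt_iff (by
      rw [bot_lt_iff_ne_bot]
      exact WithBot.coe_ne_bot)]
    intro j hj
    refine lt_of_le_of_lt (degree_monomial_le _ _) ?_
    exact lt_of_le_of_lt (le_degree_of_ne_zero (mem_support_iff.1 hj)) hdeg
  · obtain ⟨n, hn⟩ := exists_nat_gt (1 / ε)
    obtain ⟨C, hC, h⟩ := key n
    refine ⟨C, fun X hX => (h X hX).trans ?_⟩
    refine mul_le_mul_of_nonneg_left (Real.rpow_le_rpow_of_exponent_le hX ?_) hC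
    have h1 : 2 * (((K : ℝ) - 1) / (2 * K)) = ((K : ℝ) - 1) / K := by
      field_simp
    have h2 : 2 * (1 / (2 * (K : ℝ)) * (1 / ((n : ℝ) + 2))) ≤ ε := by
      have h3 : 1 / ((n : ℝ) + 2) ≤ ε := by
        rw [div_le_iff₀ (by positivity)]
        rw [div_lt_iff₀ hε] at hn
        nlinarith
      have h4 : 1 / (K : ℝ) ≤ 1 := by
        rw [div_le_one hk0]
        exact hk1
      have h5 : 0 ≤ 1 / ((n : ℝ) + 2) := by positivity
      calc 2 * (1 / (2 * (K : ℝ)) * (1 / ((n : ℝ) + 2))) = 1 / K * (1 / ((n : ℝ) + 2)) := by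
            field_simp
        _ ≤ 1 * (1 / ((n : ℝ) + 2)) := by gcongr
        _ ≤ ε := by linarith
    unfold sg
    linarith

theorem t_TOP (hDAN : S_DAN) (hFU : S_FU) (hTR : S_TR) (hPP : S_PP) (hPM : S_PM) : S_TOP := by
  intro k hk
  have hae : ∀ᵐ α ∂(volume.restrict (cube k)), ∀ n : ℕ,
      ∫⁻ t in {t : ℝ | 1 ≤ |t|}, ‖ZZ k α (sg k n + t * Complex.I)‖ₑ ^ 2 < ⊤ :=
    ae_all_iff.2 (fun n => hFU k (sg k n) hk (sg_lt hk n).1 (sg_lt hk n).2.1 (sg_lt hk n).2.2)
  have hcm : MeasurableSet (cube k) := MeasurableSet.univ_pi (fun _ => measurableSet_Ico)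
  filter_upwards [hae, ae_restrict_mem hcm] with α hα hcube
  exact core hDAN hTR hPP hPM hk hcube hα

end

end Pool.Agent.J4H38.GSX
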