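import Pool.Agent.J4H38.GSX.Asm
import Pool.Agent.J4H38.GS.Stm2

/-!
# Project GS: assembly, second part
-/

set_option autoImplicit false

open MeasureTheory Set Filter Polynomial

namespace Pool.Agent.J4H38.GSX

open Pool.Agent.J4H38.GS

noncomputable section

theorem app_mem {J k : ℕ} {α : Fin k → ℝ} (h : α ∈ cube k) : app J k α ∈ cube (J + k) := by
  intro i _
  unfold app
  refine Fin.addCases (fun j => ?_) (fun j => ?_) i
  · rw [Fin.append_left]
    simp
  · rw [Fin.append_right]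
    exact h j (mem_univ j)

theorem t_TOP2 (hDAN : S_DAN) (hFU2 : S_FU2) (hTR : S_TR) (hPP : S_PP) (hPM : S_PM) : S_TOP2 := by
  intro J k hJ hk
  have hae : ∀ᵐ α ∂(volume.restrict (cube k)), ∀ n : ℕ,
      ∫⁻ t in {t : ℝ | 1 ≤ |t|}, ‖ZZ (J + k) (app J k α) (sg (J + k) n + t * Complex.I)‖ₑ ^ 2 < ⊤ :=
    ae_all_iff.2 (fun n => hFU2 J k (sg (J + k) n) hJ hk (sg_lt hk n).1 (sg_lt hk n).2.1 (sg_lt hk n).2.2)
  have hcm : MeasurableSet (cube k) := MeasurableSet.univ_pi (fun _ => measurableSet_Ico)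
  filter_upwards [hae, ae_restrict_mem hcm] with α hα hcube
  exact core hDAN hTR hPP hPM hk (app_mem hcube) hα

end

end Pool.Agent.J4H38.GSX
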