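import Pool.Agent.J4H38.GSX.Asm
import Pool.Agent.J4H38.GS.Stm3

/-!
# Project GS: assembly of the lower bound
-/

set_option autoImplicit false

open MeasureTheory Set Filter Polynomial Topology

namespace Pool.Agent.J4H38.GSX

open Pool.Agent.J4H38.GS

noncomputable section

theorem prod_cont (hDAN : S_DAN) {k : ℕ} {α : Fin k → ℝ} (hα : α ∈ cube k) {σ : ℝ} (hσ : 0 < σ) (hσ1 : σ < 1) :
    Continuous (fun t : ℝ => ∏ i, (DD (α i) (ln σ t) + 1 / (ln σ t - 1))) := by
  have hcube : ∀ i, 0 ≤ α i ∧ α i < 1 := fun i => hα i (mem_univ i)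
  refine continuous_finsetProd _ fun i _ => ?_
  have hln : Continuous (ln σ) := by
    unfold ln
    fun_prop
  have hne : ∀ t : ℝ, ln σ t - 1 ≠ 0 := by
    intro t h
    have := congrArg Complex.re h
    simp [ln] at this
    linarith
  refine Continuous.add ?_ (continuous_const.div (hln.sub continuous_const) hne)
  rw [continuous_iff_continuousAt]
  intro t
  have h1 : DifferentiableAt ℂ (DD (α i)) (ln σ t) :=
    ((hDAN (α i) (hcube i).1 (hcube i).2).1 _ (by simp [ln, hσ])).differentiableAt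
      ((isOpen_lt continuous_const Complex.continuous_re).mem_nhds (by simp [ln, hσ]))
  exact ContinuousAt.comp (f := ln σ) h1.continuousAt hln.continuousAt

theorem t_LOW (hDAN : S_DAN) (hE5 : S_E5) (hE7 : S_E7) : S_LOW := by
  intro k hk
  have hk0 : (0 : ℝ) < k := by
    have : 0 < k := by omega
    exact_mod_cast this
  have hk2 : (2 : ℝ) ≤ k := by exact_mod_cast hk
  obtain ⟨τ, hτ⟩ : ∃ τ, τ = ((k : ℝ) - 1) / (2 * k) := ⟨_, rfl⟩
  have hτ0 : 0 < τ := by rw [hτ]; exact div_pos (by linarith) (by positivity)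
  have hτ1 : τ < 1 / 2 := by
    rw [hτ, div_lt_div_iff₀ (by positivity) (by norm_num)]
    linarith
  have hτk : (k : ℝ) * (1 - 2 * τ) = 1 := by
    rw [hτ]
    field_simp
    ring
  let sg' : ℕ → ℝ := fun n => τ * (1 - 1 / ((n : ℝ) + 2))
  have hsg : ∀ n, 0 < sg' n ∧ sg' n < τ := fun n => by
    have h1 : 1 / ((n : ℝ) + 2) < 1 := by
      rw [div_lt_one (by positivity)]
      have : (0 : ℝ) ≤ n := Nat.cast_nonneg _
      linarith
    have h2 : 0 < 1 / ((n : ℝ) + 2) := by positivity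
    refine ⟨mul_pos hτ0 (by linarith), ?_⟩
    simp only [sg']
    nlinarith
  have h5 : ∀ n : ℕ, ∃ c : ℝ, 0 < c ∧ ∀ᵐ α ∂(volume.restrict (cube k)), ∀ M : ℝ, ∃ T : ℝ, M ≤ T ∧ 1 ≤ T ∧
      c * T ^ (1 + k * (1 - 2 * sg' n)) ≤
        ∫ t in T..(2 * T), ‖∏ i, (DD (α i) (ln (sg' n) t) + 1 / (ln (sg' n) t - 1))‖ ^ 2 :=
    fun n => hE5 k (sg' n) (hsg n).1 ((hsg n).2.trans hτ1)
  choose c hc0 hc using h5
  have hcm : MeasurableSet (cube k) := MeasurableSet.univ_pi (fun _ => measurableSet_Ico)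
  filter_upwards [ae_all_iff.2 hc, ae_restrict_mem hcm] with α hα hcube Q b hb
  rintro ⟨C, hC⟩
  rw [← hτ] at hb
  -- choice of the line
  obtain ⟨n, hn⟩ : ∃ n : ℕ, b < sg' n := by
    have h1 : Tendsto (fun n : ℕ => sg' n) atTop (𝓝 (τ * (1 - 0))) := by
      refine Tendsto.const_mul τ (Tendsto.const_sub 1 ?_)
      refine Tendsto.div_atTop tendsto_const_nhds ?_
      exact tendsto_atTop_add_const_right _ _ tendsto_natCast_atTop_atTop
    rw [sub_zero, mul_one] at h1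
    exact (h1.eventually (lt_mem_nhds hb)).exists
  obtain ⟨hs0, hs1⟩ := hsg n
  set σ := sg' n with hσ
  have hfin := hE7 k α Q b σ C (by omega) hcube hs0 (hs1.trans hτ1) hn hC
  set I := ∫⁻ t in {t : ℝ | 1 ≤ |t|}, ‖ZZ k α (ln σ t)‖ₑ ^ 2 with hI
  have hcont := prod_cont hDAN hcube hs0 (by linarith : σ < 1)
  have hδ : 0 < (k : ℝ) * (1 - 2 * σ) - 1 := by
    have : (k : ℝ) * (1 - 2 * σ) = k * (1 - 2 * τ) + 2 * k * (τ - σ) := by ring
    rw [this, hτk]
    have : 0 < 2 * (k : ℝ) * (τ - σ) := mul_pos (by positivity) (by linarith)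
    linarith
  obtain ⟨M, hM⟩ := ((tendsto_rpow_atTop hδ).eventually_gt_atTop (5 * I.toReal / c n)).exists_forall_of_atTop
  obtain ⟨T, hMT, hT1, hT⟩ := hα n M
  have hT0 : 0 < T := by linarith
  have hbig := hM T hMT
  rw [div_lt_iff₀ (hc0 n)] at hbig
  have key : ENNReal.ofReal (∫ t in T..(2 * T), ‖∏ i, (DD (α i) (ln σ t) + 1 / (ln σ t - 1))‖ ^ 2) ≤
      ENNReal.ofReal (5 * T ^ 2) * I := by
    rw [intervalIntegral.integral_of_le (by linarith), integral_eq_lintegral_of_nonneg_ae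
      (Eventually.of_forall (fun _ => sq_nonneg _)) ((hcont.norm.pow 2).aestronglyMeasurable)]
    refine ENNReal.ofReal_toReal_le.trans ?_
    rw [hI, ← lintegral_const_mul' _ _ ENNReal.ofReal_ne_top]
    have hsub : Ioc T (2 * T) ⊆ {t : ℝ | 1 ≤ |t|} := fun t ht => by
      have : 1 ≤ t := hT1.trans ht.1.le
      exact this.trans (le_abs_self t)
    refine le_trans ?_ (lintegral_mono_set hsub)
    refine setLIntegral_mono' measurableSet_Ioc fun t ht => ?_
    have ht0 : 0 < t := hT0.trans ht.1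
    have hne : ln σ t ≠ 0 := by
      intro h
      have := congrArg Complex.re h
      simp [ln] at this
      linarith
    have e1 : ∏ i, (DD (α i) (ln σ t) + 1 / (ln σ t - 1)) = ln σ t * ZZ k α (ln σ t) := by
      unfold ZZ
      field_simp
    have e2 : ‖ln σ t‖ ^ 2 ≤ 5 * T ^ 2 := by
      have h3 : ‖ln σ t‖ ^ 2 = σ ^ 2 + t ^ 2 := by
        rw [ln, ← Complex.normSq_eq_norm_sq, Complex.normSq_add_mul_I]
      have h4 : σ ^ 2 ≤ 1 := by nlinarith
      have h5 : t ^ 2 ≤ (2 * T) ^ 2 := by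
        have := ht.2
        gcongr
      rw [h3]
      nlinarith
    rw [e1, ← ofReal_norm, ← ENNReal.ofReal_pow (norm_nonneg _), ← ENNReal.ofReal_mul (by positivity), norm_mul, mul_pow]
    exact ENNReal.ofReal_le_ofReal (mul_le_mul_of_nonneg_right e2 (by positivity))
  have key2 : ∫ t in T..(2 * T), ‖∏ i, (DD (α i) (ln σ t) + 1 / (ln σ t - 1))‖ ^ 2 ≤ 5 * T ^ 2 * I.toReal := by
    have h6 : ENNReal.ofReal (5 * T ^ 2) * I = ENNReal.ofReal (5 * T ^ 2 * I.toReal) := by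
      rw [ENNReal.ofReal_mul (p := 5 * T ^ 2) (by positivity), ENNReal.ofReal_toReal hfin.ne]
    rw [h6] at key
    exact (ENNReal.ofReal_le_ofReal_iff (by positivity)).1 key
  have h7 : c n * T ^ (1 + k * (1 - 2 * σ)) ≤ 5 * T ^ 2 * I.toReal := hT.trans key2
  have h8 : T ^ (1 + k * (1 - 2 * σ)) = T ^ 2 * T ^ ((k : ℝ) * (1 - 2 * σ) - 1) := by
    rw [← Real.rpow_natCast, ← Real.rpow_add hT0]
    congr 1
    push_cast
    ring
  rw [h8] at h7
  have h9 : 0 < T ^ 2 := by positivity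
  nlinarith

end

end Pool.Agent.J4H38.GSX
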