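import Pool.Agent.J4H38.GSX.Blk3

/-!
# Project GS5: the block estimate, fourth part
-/

set_option autoImplicit false

open MeasureTheory Set Filter Polynomial Topology
open scoped ComplexConjugate

namespace Pool.Agent.J4H38.GSX

open Pool.Agent.J4H38.GS

noncomputable section

theorem line_cont' {G : ℂ → ℂ} (hGd : DifferentiableOn ℂ G {s : ℂ | 0 < s.re}) {s : ℂ} (hs : 0 < s.re) :
    Continuous (fun t : ℝ => G (s + t * Complex.I) * G (s - t * Complex.I)) := by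
  have h : ∀ v : ℂ, 0 < v.re → ContinuousAt G v := fun v hv =>
    ((hGd v hv).differentiableAt ((isOpen_lt continuous_const Complex.continuous_re).mem_nhds hv)).continuousAt
  rw [continuous_iff_continuousAt]
  intro t
  refine ContinuousAt.mul ?_ ?_
  · exact ContinuousAt.comp (f := fun t : ℝ => s + t * Complex.I) (h _ (by simpa using hs)) (by fun_prop)
  · exact ContinuousAt.comp (f := fun t : ℝ => s - t * Complex.I) (h _ (by simpa using hs)) (by fun_prop)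

theorem block (hL1 : S_L1) (hGAMP : S_GAMP) (hPIB : S_PIB) {k : ℕ} (hk : 2 ≤ k) {α : Fin k → ℝ} (hα : α ∈ cube k) {P : ℂ[X]} {G : ℂ → ℂ}
    (hG : ∀ s : ℂ, 0 < s.re → s ≠ 1 → ZZ k α s = G s + RR P s) (hGd : DifferentiableOn ℂ G {s : ℂ | 0 < s.re})
    {Y : ℝ} (hY : 0 ≤ Y) {τ : ℝ} (hτ : τ = ((k : ℝ) - 1) / (2 * k)) {δ C₁ C₂ : ℝ} (hC₁ : 0 ≤ C₁) (hC₂ : 0 ≤ C₂)
    (h1 : ∀ (j : ℕ), Y + 1 ≤ 2 ^ j → ∀ b ∈ box (1 / 2 + 1 / (4 * (k : ℝ))) (1 / 2 + 1 / (2 * (k : ℝ))) Y, ∀ T : ℝ,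
      (2 : ℝ) ^ j ≤ T → T ≤ 2 ^ (j + 1) →
      ‖(∫ t in ((2 : ℝ) ^ j)..T, conj (EP α (conj b + t * Complex.I)) * EP α (b + t * Complex.I)) - ((T - 2 ^ j : ℝ) : ℂ) * GS.MM α b‖ ≤
        C₁ * (2 : ℝ) ^ (j * (1 - δ)))
    (h2 : ∀ (j : ℕ), Y + 1 ≤ 2 ^ j → ∀ b ∈ box (1 / 2 + 1 / (4 * (k : ℝ))) (1 / 2 + 1 / (2 * (k : ℝ))) Y,
      ∫ t in ((2 : ℝ) ^ j)..(2 ^ (j + 1)), ‖EP α (b + t * Complex.I)‖ ^ 2 ≤ C₂ * (2 : ℝ) ^ (j * (1 + (1 / 4 : ℝ)))) :
    ∃ (C : ℝ) (j₀ : ℕ), ∀ z : ℂ, 0 ≤ z.re → z.re ≤ 1 / (2 * k) → |z.im| ≤ Y → ∀ j : ℕ, j₀ ≤ j →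
      ‖∫ t in ((2 : ℝ) ^ j)..(2 ^ (j + 1)), (G (τ + z / 2 + t * Complex.I) * G (τ + z / 2 - t * Complex.I) -
        GS.MM α (1 - τ - z / 2) * (2 * Real.pi : ℂ) ^ (k * z - 1) * (t : ℂ) ^ (-1 - k * z))‖ ≤
        C * (2 : ℝ) ^ (-(min δ (1 / 4) * j)) := by
  have hk2 : (2 : ℝ) ≤ k := by exact_mod_cast hk
  have hk0 : (0 : ℝ) < k := by linarith
  obtain ⟨B, T₁, hB, hT₁, hpt⟩ := block_pt hL1 hGAMP hk hα hG hY hτ
  obtain ⟨D, hD, hpib⟩ := hPIB k Y hY
  obtain ⟨j₀, hj₀⟩ := pow_unbounded_of_one_lt (T₁ + Y) (one_lt_two : (1 : ℝ) < 2)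
  refine ⟨B * (1 + 2 * C₂) + D * C₁, j₀, fun z hz0 hz1 hzi j hj => ?_⟩
  have hr : 0 < 1 / (2 * (k : ℝ)) := by positivity
  have hτ1 : 1 - τ = 1 / 2 + 1 / (2 * k) := by
    rw [hτ]
    field_simp
    ring
  have hr1 : 1 / (2 * (k : ℝ)) ≤ 1 / 4 := one_div_le_one_div_of_le (by norm_num) (by linarith)
  have hx0 : 1 / 2 + 1 / (4 * (k : ℝ)) = 1 / 2 + (1 / (2 * k)) / 2 := by
    field_simp
    ring
  obtain ⟨b, hb⟩ : ∃ b : ℂ, b = 1 - τ - z / 2 := ⟨_, rfl⟩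
  have hbre : b.re = 1 / 2 + 1 / (2 * k) - z.re / 2 := by
    rw [hb, ← hτ1]
    simp
  have hbim : b.im = -z.im / 2 := by
    rw [hb]
    simp
    ring
  have hbi : |b.im| ≤ Y := by
    rw [hbim, neg_div, abs_neg, abs_div, abs_of_pos (two_pos : (0 : ℝ) < 2)]
    linarith [abs_nonneg z.im]
  have hbox : b ∈ box (1 / 2 + 1 / (4 * (k : ℝ))) (1 / 2 + 1 / (2 * (k : ℝ))) Y := by
    refine ⟨?_, ?_, hbi⟩
    · rw [hbre, hx0]
      linarith
    · rw [hbre]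
      linarith
  have hbox' : conj b ∈ box (1 / 2 + 1 / (4 * (k : ℝ))) (1 / 2 + 1 / (2 * (k : ℝ))) Y := by
    refine ⟨?_, ?_, ?_⟩
    · rw [Complex.conj_re]
      exact hbox.1
    · rw [Complex.conj_re]
      exact hbox.2.1
    · rw [Complex.conj_im, abs_neg]
      exact hbi
  have hbr : 0 < b.re ∧ b.re < 1 := by
    rw [hbre]
    constructor <;> linarith
  obtain ⟨x, hx⟩ : ∃ x : ℝ, x = (2 : ℝ) ^ j := ⟨_, rfl⟩
  have hx2 : (2 : ℝ) ^ (j + 1) = 2 * x := by rw [hx, pow_succ]; ring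
  have hxj : T₁ + Y ≤ x := by
    rw [hx]
    exact hj₀.le.trans (pow_le_pow_right₀ (by norm_num) hj)
  have hxT : T₁ ≤ x := by linarith
  have hx1 : 1 ≤ x := by linarith
  have hx0' : 0 < x := by linarith
  have hYx : Y + 1 ≤ 2 ^ j := by
    rw [← hx]
    linarith
  have hxle : x ≤ 2 * x := by linarith
  -- the functions
  have hs0 : 0 < ((τ : ℂ) + z / 2).re := by
    have h3 : ((τ : ℂ) + z / 2).re = τ + z.re / 2 := by simp
    rw [h3]
    linarith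
  have cG := line_cont' hGd hs0
  have cE1 : Continuous (fun t : ℝ => EP α (conj b + t * Complex.I)) := EP_cont α (by rw [Complex.conj_re]; exact hbr.1)
    (by rw [Complex.conj_re]; exact hbr.2)
  have cE2 : Continuous (fun t : ℝ => EP α (b + t * Complex.I)) := EP_cont α hbr.1 hbr.2
  obtain ⟨p, hp⟩ : ∃ p : ℝ → ℂ, p = fun t : ℝ => conj (EP α (conj b + t * Complex.I)) * EP α (b + t * Complex.I) := ⟨_, rfl⟩
  have cp' : Continuous p := by
    rw [hp]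
    exact (Complex.continuous_conj.comp cE1).mul cE2
  obtain ⟨φ, hφ⟩ : ∃ φ : ℝ → ℂ, φ = fun t : ℝ => (2 * Real.pi : ℂ) ^ (k * z - 1) * (t : ℂ) ^ (-1 - k * z) := ⟨_, rfl⟩
  have cφ : ContinuousOn φ (uIcc x (2 * x)) := by
    rw [uIcc_of_le hxle, hφ]
    intro t ht
    have ht0 : 0 < t := lt_of_lt_of_le hx0' ht.1
    refine ContinuousWithinAt.mul continuousWithinAt_const (ContinuousAt.continuousWithinAt ?_)
    exact Complex.continuousAt_ofReal_cpow_const t _ (Or.inr ht0.ne')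
  have i1 : IntervalIntegrable (fun t : ℝ => G (τ + z / 2 + t * Complex.I) * G (τ + z / 2 - t * Complex.I) - φ t * p t) volume x (2 * x) :=
    ((cG.continuousOn).sub (cφ.mul cp'.continuousOn)).intervalIntegrable
  have i2 : IntervalIntegrable (fun t : ℝ => φ t * (p t - GS.MM α b)) volume x (2 * x) :=
    (cφ.mul (cp'.sub continuous_const).continuousOn).intervalIntegrable
  have e0 : ∫ t in ((2 : ℝ) ^ j)..(2 ^ (j + 1)), (G (τ + z / 2 + t * Complex.I) * G (τ + z / 2 - t * Complex.I) -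
        GS.MM α (1 - τ - z / 2) * (2 * Real.pi : ℂ) ^ (k * z - 1) * (t : ℂ) ^ (-1 - k * z)) =
      (∫ t in x..(2 * x), (G (τ + z / 2 + t * Complex.I) * G (τ + z / 2 - t * Complex.I) - φ t * p t)) +
        ∫ t in x..(2 * x), φ t * (p t - GS.MM α b) := by
    rw [← intervalIntegral.integral_add i1 i2, hx2, ← hx]
    refine intervalIntegral.integral_congr fun t _ => ?_
    simp only [hφ, ← hb]
    ring
  -- the first part
  have hsx : 0 < Real.sqrt x ^ 3 := by positivity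
  have n1 : ‖∫ t in x..(2 * x), (G (τ + z / 2 + t * Complex.I) * G (τ + z / 2 - t * Complex.I) - φ t * p t)‖ ≤
      ∫ t in x..(2 * x), B / Real.sqrt x ^ 3 * (1 + ‖EP α (conj b + t * Complex.I)‖ ^ 2 + ‖EP α (b + t * Complex.I)‖ ^ 2) := by
    refine intervalIntegral.norm_integral_le_of_norm_le hxle ?_ ?_
    · refine Eventually.of_forall fun t ht => ?_
      have ht0 : 0 < t := hx0'.trans ht.1
      have h3 := hpt z hz0 hz1 hzi t (hxT.trans ht.1.le)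
      rw [← hb] at h3
      simp only [hφ, hp]
      refine h3.trans ?_
      rw [div_mul_eq_mul_div]
      have h4 : Real.sqrt x ≤ Real.sqrt t := Real.sqrt_le_sqrt ht.1.le
      gcongr
    · refine Continuous.intervalIntegrable ?_ _ _
      exact continuous_const.mul (((continuous_const).add (cE1.norm.pow 2)).add (cE2.norm.pow 2))
  have n1' : ∫ t in x..(2 * x), B / Real.sqrt x ^ 3 * (1 + ‖EP α (conj b + t * Complex.I)‖ ^ 2 + ‖EP α (b + t * Complex.I)‖ ^ 2) ≤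
      B * (1 + 2 * C₂) * (2 : ℝ) ^ (-((1 / 4) * (j : ℝ))) := by
    rw [intervalIntegral.integral_const_mul]
    have e3 : ∫ t in x..(2 * x), (1 + ‖EP α (conj b + t * Complex.I)‖ ^ 2 + ‖EP α (b + t * Complex.I)‖ ^ 2) =
        x + (∫ t in x..(2 * x), ‖EP α (conj b + t * Complex.I)‖ ^ 2) + ∫ t in x..(2 * x), ‖EP α (b + t * Complex.I)‖ ^ 2 := by
      have i3 : IntervalIntegrable (fun _ : ℝ => (1 : ℝ)) volume x (2 * x) := continuous_const.intervalIntegrable _ _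
      have i4 : IntervalIntegrable (fun t : ℝ => ‖EP α (conj b + t * Complex.I)‖ ^ 2) volume x (2 * x) :=
        (cE1.norm.pow 2).intervalIntegrable _ _
      have i5 : IntervalIntegrable (fun t : ℝ => ‖EP α (b + t * Complex.I)‖ ^ 2) volume x (2 * x) :=
        (cE2.norm.pow 2).intervalIntegrable _ _
      rw [intervalIntegral.integral_add (i3.add i4) i5, intervalIntegral.integral_add i3 i4, intervalIntegral.integral_const]
      simp only [smul_eq_mul, mul_one]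
      ring
    have h3 := h2 j hYx b hbox
    have h4 := h2 j hYx (conj b) hbox'
    rw [hx2, ← hx] at h3 h4
    have h5 : x ≤ (2 : ℝ) ^ ((j : ℝ) * (1 + (1 / 4 : ℝ))) := by
      rw [hx, ← Real.rpow_natCast]
      refine Real.rpow_le_rpow_of_exponent_le (by norm_num) ?_
      have : (0 : ℝ) ≤ j := Nat.cast_nonneg j
      linarith
    have h6 : Real.sqrt x ^ 3 = (2 : ℝ) ^ ((j : ℝ) * (3 / 2)) := by
      rw [hx, Real.sqrt_eq_rpow, ← Real.rpow_natCast, ← Real.rpow_natCast, ← Real.rpow_mul (by norm_num), ← Real.rpow_mul (by norm_num)]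
      congr 1
      push_cast
      ring
    have h7 : (2 : ℝ) ^ ((j : ℝ) * (1 + (1 / 4 : ℝ))) / (2 : ℝ) ^ ((j : ℝ) * (3 / 2)) = (2 : ℝ) ^ (-((1 / 4) * (j : ℝ))) := by
      rw [← Real.rpow_sub (by norm_num)]
      congr 1
      ring
    have h8 : 0 ≤ (2 : ℝ) ^ ((j : ℝ) * (1 + (1 / 4 : ℝ))) := by positivity
    calc _ ≤ B / Real.sqrt x ^ 3 * ((1 + 2 * C₂) * (2 : ℝ) ^ ((j : ℝ) * (1 + (1 / 4 : ℝ)))) := by
          refine mul_le_mul_of_nonneg_left ?_ (by positivity)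
          rw [e3]
          linarith
      _ = B * (1 + 2 * C₂) * ((2 : ℝ) ^ ((j : ℝ) * (1 + (1 / 4 : ℝ))) / (2 : ℝ) ^ ((j : ℝ) * (3 / 2))) := by
          rw [h6]
          ring
      _ = _ := by rw [h7]
  -- the second part
  have n2 : ‖∫ t in x..(2 * x), φ t * (p t - GS.MM α b)‖ ≤ D * C₁ * (2 : ℝ) ^ (-(δ * (j : ℝ))) := by
    have h3 := hpib z j (C₁ * (2 : ℝ) ^ (j * (1 - δ))) (fun t => p t - GS.MM α b) hz0 (by linarith) hzi (cp'.sub continuous_const)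
      (fun T hT1 hT2 => by
        rw [intervalIntegral.integral_sub (cp'.intervalIntegrable _ _) (continuous_const.intervalIntegrable _ _),
          intervalIntegral.integral_const]
        have h4 := h1 j hYx b hbox T hT1 hT2
        rw [Complex.real_smul]
        simp only [hp]
        exact h4)
    rw [hx2, ← hx] at h3
    simp only [hφ]
    refine h3.trans (le_of_eq ?_)
    rw [hx, ← Real.rpow_natCast, mul_div_assoc, mul_div_assoc, ← Real.rpow_sub (by norm_num), ← mul_assoc]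
    congr 2
    ring
  rw [e0]
  have m1 : (2 : ℝ) ^ (-((1 / 4) * (j : ℝ))) ≤ (2 : ℝ) ^ (-(min δ (1 / 4) * j)) := by
    refine Real.rpow_le_rpow_of_exponent_le (by norm_num) ?_
    have h3 : (0 : ℝ) ≤ j := Nat.cast_nonneg j
    have h4 : min δ (1 / 4) ≤ 1 / 4 := min_le_right _ _
    have := mul_le_mul_of_nonneg_right h4 h3
    linarith
  have m2 : (2 : ℝ) ^ (-(δ * (j : ℝ))) ≤ (2 : ℝ) ^ (-(min δ (1 / 4) * j)) := by
    refine Real.rpow_le_rpow_of_exponent_le (by norm_num) ?_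
    have h3 : (0 : ℝ) ≤ j := Nat.cast_nonneg j
    have h4 : min δ (1 / 4) ≤ δ := min_le_left _ _
    have := mul_le_mul_of_nonneg_right h4 h3
    linarith
  have h9 : 0 ≤ B * (1 + 2 * C₂) := by positivity
  have h10 : 0 ≤ D * C₁ := by positivity
  calc _ ≤ _ := norm_add_le _ _
    _ ≤ B * (1 + 2 * C₂) * (2 : ℝ) ^ (-((1 / 4) * (j : ℝ))) + D * C₁ * (2 : ℝ) ^ (-(δ * (j : ℝ))) := add_le_add (n1.trans n1') n2
    _ ≤ B * (1 + 2 * C₂) * (2 : ℝ) ^ (-(min δ (1 / 4) * j)) + D * C₁ * (2 : ℝ) ^ (-(min δ (1 / 4) * j)) :=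
        add_le_add (mul_le_mul_of_nonneg_left m1 h9) (mul_le_mul_of_nonneg_left m2 h10)
    _ = _ := by ring

end

end Pool.Agent.J4H38.GSX
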