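import Pool.Agent.J4H38.GS.Stm5
import Pool.Agent.J4H38.GS.Stm2

/-!
# Project GS (helper38, MP_bc6037_nt), seventh part (GS6): the asymptotic formula with up to two shifts equal to zero

As GS5 (`Pool/Agent/J4H38/GS/Stm5.lean`) for the shift vector `app J k α = (0, …, 0, α)` with `J ≤ 2` zeros, `α ∈ [0,1)^k`,
`K = J + k ≥ 2`.  (`expZeta 0 = riemannZeta`: `HurwitzZeta.expZeta_zero`; (POL), (DIA), (DK) of GS5 hold for every shift vector.)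
-/

set_option autoImplicit false

open MeasureTheory Set Filter Polynomial Topology
open scoped ComplexConjugate

namespace Pool.Agent.J4H38.GSX

open Pool.Agent.J4H38.GS

noncomputable section

/-- (Z7), 100 lines: as `J4H94/GS/Z3.lean` (`t_Z3 : S_Z3A → S_Z3`, from the fourth moment on the critical line), but uniform in `x` and
dyadic (`|t|^{-w} ≥ (4·2^j)^{-w}`, `w = 1 + ε`). -/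
def S_Z7 : Prop := ∀ x₀ x₁ ε : ℝ, 1 / 2 < x₀ → x₀ ≤ x₁ → x₁ < 1 → 0 < ε → ∃ C : ℝ, 0 ≤ C ∧ ∀ (j : ℕ) (x : ℝ), x₀ ≤ x → x ≤ x₁ →
  ∫⁻ t in Icc ((2 : ℝ) ^ j / 2) (4 * 2 ^ j), ‖riemannZeta (x + t * Complex.I)‖ₑ ^ 4 ≤ ENNReal.ofReal (C * (2 : ℝ) ^ (j * (1 + ε)))

/-- (Z8), `t_Z8 : S_Z7 → S_Z8`, 200 lines.  `f = ζ - SN N 0`, `N = NJ η j`, `x' = (1/2 + x₀)/2`; Cauchy for `(w - 1)^4/(w + 1)^4 f(w)^4 N^{w-w₀} e^{(w-w₀)²}`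
between the lines `x'` and `2` (as `cauchy_gauss`, `sup1` in `J4H77/PE/Three.lean`): for `w₀ = x + it`, `t ≥ 1/2`,
`|f(w₀)|⁴ ≤ C ∫ (N^{x'-x} |f(x'+iy)|⁴ + N^{2-x} |f(2+iy)|⁴) e^{-(y-t)²} dy` (up to `|w-1|/|w+1|` factors), `|f(2+iy)| ≤ 1/N`; on the line `x'`:
`|f|⁴ ≤ 8 |ζ|⁴ + 8 |SN|⁴`, (Z7), and `∫ |SN N 0|⁴ ≪ 2^j` over the window, as `SN²` is a Dirichlet polynomial of length `N² ≤ 2^{j/4}·4` with coefficients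
at most `d(n)`; the tails by the Gaussian factor (`|f|` is of polynomial growth). -/
def S_Z8 : Prop := ∀ x₀ x₁ η : ℝ, 1 / 2 < x₀ → x₀ ≤ x₁ → x₁ < 1 → 0 < η → η ≤ 1 / 8 → ∃ δ C : ℝ, 0 < δ ∧ 0 ≤ C ∧
  ∀ (j : ℕ) (x : ℝ), x₀ ≤ x → x ≤ x₁ →
    ∫⁻ t in Icc ((2 : ℝ) ^ j / 2) (4 * 2 ^ j), ‖riemannZeta (x + t * Complex.I) - SN (NJ η j) 0 (x + t * Complex.I)‖ₑ ^ 4 ≤
      ENNReal.ofReal (C * (2 : ℝ) ^ (j * (1 - δ)))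

/-- (REM2), `t_REM2 : S_EZ → S_LA → S_Z7 → S_Z8 → S_REM2`, 250 lines, as `t_REM` (`J4H6/GS5/{Mean,Rem}.lean`).  With `x_i = expZeta (α_i) w`, `y_i = SN N (α_i) w`,
`x₀ = ζ`, `y₀ = SN N 0`: `|∏ x - ∏ y|² ≤ K ∑_i |x_i - y_i|² ∏_{l<i} |x_l|² ∏_{l>i} |y_l|²`, mean value over `α`, then over `Re w ∈ [x₀-r, x₁+r]`,
`Im w ∈ [2^j/2, 4·2^j]`, for the zeros by Cauchy-Schwarz from (Z7), (Z8); Borel-Cantelli; for `2^j ≥ 2(Y+1)` the discs about `b + it` lie in the window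
and `(w-1)^J (DZ - DN)` is entire (area mean value); the finitely many smaller `j` by continuity (`Re b ≤ x₁ < 1`). -/
def S_REM2 : Prop := ∀ (J k : ℕ) (x₀ x₁ η : ℝ), J ≤ 2 → 1 / 2 < x₀ → x₀ ≤ x₁ → x₁ < 1 → 0 < η → η ≤ 1 / 8 → ∃ δ : ℝ, 0 < δ ∧
  ∀ᵐ α ∂(volume.restrict (cube k)), ∀ Y : ℝ, ∃ C : ℝ, 0 ≤ C ∧ ∀ (j : ℕ), ∀ b ∈ box x₀ x₁ Y,
    ∫ t in ((2 : ℝ) ^ j)..(2 ^ (j + 1)), ‖DZ (app J k α) (b + t * Complex.I) - DN (NJ η j) (app J k α) (b + t * Complex.I)‖ ^ 2 ≤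
      C * (2 : ℝ) ^ (j * (1 - δ))

/-- (SUB2), `t_SUB2 : S_EZ → S_LA → S_Z7 → S_SUB2`, 200 lines, as `t_SUB` and (REM2); `(1+|ζ|)^{2J} ≤ 8 (1 + |ζ|⁴)` -/
def S_SUB2 : Prop := ∀ (J k : ℕ) (x₀ x₁ ε : ℝ), J ≤ 2 → 1 / 2 < x₀ → x₀ ≤ x₁ → x₁ < 1 → 0 < ε →
  ∀ᵐ α ∂(volume.restrict (cube k)), ∀ Y : ℝ, ∃ C : ℝ, 0 ≤ C ∧ ∀ (j : ℕ), ∀ b ∈ box x₀ x₁ Y,
    ∫ t in ((2 : ℝ) ^ j)..(2 ^ (j + 1)), ∏ i, (1 + ‖HurwitzZeta.expZeta (app J k α i : UnitAddCircle) (b + t * Complex.I)‖) ^ 2 ≤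
      C * (2 : ℝ) ^ (j * (1 + ε))

/-- (MVD2), `t_MVD2 : S_REM2 → S_SUB2 → S_DK → S_POL → S_MVD2`, 100 lines, as `t_MVD` (`J4H97/GS/Mvd.lean`) with `K = J + k` in place of `k` -/
def S_MVD2 : Prop := ∀ (J k : ℕ) (x₀ x₁ : ℝ), J ≤ 2 → 1 / 2 < x₀ → x₀ ≤ x₁ → x₁ < 1 → ∃ δ : ℝ, 0 < δ ∧
  ∀ᵐ α ∂(volume.restrict (cube k)), ∀ Y : ℝ, ∃ C : ℝ, 0 ≤ C ∧ ∀ (j : ℕ), ∀ b ∈ box x₀ x₁ Y, ∀ T : ℝ, (2 : ℝ) ^ j ≤ T → T ≤ 2 ^ (j + 1) →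
    ‖(∫ t in ((2 : ℝ) ^ j)..T, conj (DZ (app J k α) (conj b + t * Complex.I)) * DZ (app J k α) (b + t * Complex.I)) -
      ((T - 2 ^ j : ℝ) : ℂ) * GS.MM (app J k α) b‖ ≤ C * (2 : ℝ) ^ (j * (1 - δ))

/-- (MVE2), `t_MVE2 : S_L2 → S_L3 → S_SUB2 → S_MVD2 → S_MVE2`, 150 lines, as `t_MVE` (`J4H53/GS/Mve.lean`); for `a = 0`:
`EE 0 w = (1 + e^{πiw}) ζ(w)` for `w ≠ 1` -/
def S_MVE2 : Prop := ∀ (J k : ℕ) (x₀ x₁ : ℝ), J ≤ 2 → 1 / 2 < x₀ → x₀ ≤ x₁ → x₁ < 1 → (∃ δ : ℝ, 0 < δ ∧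
  ∀ᵐ α ∂(volume.restrict (cube k)), ∀ Y : ℝ, ∃ C : ℝ, 0 ≤ C ∧ ∀ (j : ℕ), Y + 1 ≤ 2 ^ j → ∀ b ∈ box x₀ x₁ Y, ∀ T : ℝ,
    (2 : ℝ) ^ j ≤ T → T ≤ 2 ^ (j + 1) →
    ‖(∫ t in ((2 : ℝ) ^ j)..T, conj (EP (app J k α) (conj b + t * Complex.I)) * EP (app J k α) (b + t * Complex.I)) -
      ((T - 2 ^ j : ℝ) : ℂ) * GS.MM (app J k α) b‖ ≤ C * (2 : ℝ) ^ (j * (1 - δ))) ∧
  ∀ ε : ℝ, 0 < ε → ∀ᵐ α ∂(volume.restrict (cube k)), ∀ Y : ℝ, ∃ C : ℝ, 0 ≤ C ∧ ∀ (j : ℕ), Y + 1 ≤ 2 ^ j → ∀ b ∈ box x₀ x₁ Y,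
    ∫ t in ((2 : ℝ) ^ j)..(2 ^ (j + 1)), ‖EP (app J k α) (b + t * Complex.I)‖ ^ 2 ≤ C * (2 : ℝ) ^ (j * (1 + ε))

/-- (ASY2): the theorem (assembly: helper38) -/
def S_ASY2 : Prop := ∀ J k : ℕ, J ≤ 2 → 2 ≤ J + k → ∀ᵐ α ∂(volume.restrict (cube k)), ∃ P : ℝ[X],
  P.degree < ((J + k : ℕ) : WithBot ℕ) ∧
  Tendsto (fun X : ℝ => (∫ x in (1 : ℝ)..X, ((cnt (J + k) (app J k α) x : ℝ) - x * P.eval (Real.log x)) ^ 2) /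
      X ^ (2 - 1 / ((J + k : ℕ) : ℝ))) atTop
    (𝓝 ((∑' n : ℕ, ‖GS.gg (app J k α) (n + 1)‖ ^ 2 / ((n : ℝ) + 1) ^ (1 + 1 / ((J + k : ℕ) : ℝ))) /
      ((4 * ((J + k : ℕ) : ℝ) - 2) * Real.pi ^ 2)))

end

end Pool.Agent.J4H38.GSX
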