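import Pool.Agent.J4H38.GSX.Asy
import Pool.Agent.J4H38.GSX.Asm2
import Pool.Agent.J4H38.GSX.Stm7

/-!
# Project GS6: assembly of the asymptotic formula with up to two zeros
-/

set_option autoImplicit false

open MeasureTheory Set Filter Polynomial Topology
open scoped ComplexConjugate

namespace Pool.Agent.J4H38.GSX

open Pool.Agent.J4H38.GS

noncomputable section

/-- the asymptotic formula for one shift vector -/
theorem asy_core (hDAN : S_DAN) (hTR : S_TR) (hPP : S_PP) (hPM : S_PM) (hL1 : S_L1) (hWI : S_WI) (hAB : S_AB)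
    (hPARS : S_PARS) (hGAMP : S_GAMP)
    (hMD : ∀ (k : ℕ) (α : Fin k → ℝ), DifferentiableOn ℂ (GS.MM α) {b : ℂ | 1 / 2 < b.re})
    (hPSI : S_PSI) (hPIB : S_PIB) {k : ℕ} (hk : 2 ≤ k) {α : Fin k → ℝ} (hcube : α ∈ cube k)
    (hα : ∀ n : ℕ, ∫⁻ t in {t : ℝ | 1 ≤ |t|}, ‖ZZ k α (sg k n + t * Complex.I)‖ₑ ^ 2 < ⊤) {δ : ℝ} (hδ : 0 < δ)
    (h1 : ∀ Y : ℝ, ∃ C : ℝ, 0 ≤ C ∧ ∀ (j : ℕ), Y + 1 ≤ 2 ^ j →
      ∀ b ∈ box (1 / 2 + 1 / (4 * (k : ℝ))) (1 / 2 + 1 / (2 * (k : ℝ))) Y, ∀ T : ℝ, (2 : ℝ) ^ j ≤ T → T ≤ 2 ^ (j + 1) →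
      ‖(∫ t in ((2 : ℝ) ^ j)..T, conj (EP α (conj b + t * Complex.I)) * EP α (b + t * Complex.I)) - ((T - 2 ^ j : ℝ) : ℂ) * GS.MM α b‖ ≤
        C * (2 : ℝ) ^ (j * (1 - δ)))
    (h2 : ∀ Y : ℝ, ∃ C : ℝ, 0 ≤ C ∧ ∀ (j : ℕ), Y + 1 ≤ 2 ^ j →
      ∀ b ∈ box (1 / 2 + 1 / (4 * (k : ℝ))) (1 / 2 + 1 / (2 * (k : ℝ))) Y,
      ∫ t in ((2 : ℝ) ^ j)..(2 ^ (j + 1)), ‖EP α (b + t * Complex.I)‖ ^ 2 ≤ C * (2 : ℝ) ^ (j * (1 + (1 / 4 : ℝ)))) :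
    ∃ P : ℝ[X], P.degree < (k : WithBot ℕ) ∧
      Tendsto (fun X : ℝ => (∫ x in (1 : ℝ)..X, ((cnt k α x : ℝ) - x * P.eval (Real.log x)) ^ 2) / X ^ (2 - 1 / (k : ℝ))) atTop
        (𝓝 ((∑' n : ℕ, ‖GS.gg α (n + 1)‖ ^ 2 / ((n : ℝ) + 1) ^ (1 + 1 / (k : ℝ))) / ((4 * k - 2) * Real.pi ^ 2))) := by
  have hk2 : (2 : ℝ) ≤ k := by exact_mod_cast hk
  have hk0 : (0 : ℝ) < k := by linarith
  obtain ⟨τ, hτ⟩ : ∃ τ : ℝ, τ = ((k : ℝ) - 1) / (2 * k) := ⟨_, rfl⟩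
  obtain ⟨r, hr⟩ : ∃ r : ℝ, r = 1 / (2 * (k : ℝ)) := ⟨_, rfl⟩
  have hr0 : 0 < r := by rw [hr]; positivity
  have hr1 : r ≤ 1 / 4 := by
    rw [hr]
    exact one_div_le_one_div_of_le (by norm_num) (by linarith)
  have hτ1 : τ = 1 / 2 - r := by
    rw [hτ, hr]
    field_simp
  have hτ0 : 0 < τ := by linarith
  obtain ⟨P, G, hdeg, hd, hG, hmeas, ⟨A, hA, hAb⟩, htr, hfin⟩ := core2 hDAN hTR hPP hPM (by omega : 1 ≤ k) hcube hα
  rw [← hτ] at hfin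
  obtain ⟨Q, rfl, hQ⟩ := real_P (σ := 1 / 2) (by norm_num) (hfin (1 / 2) (by linarith))
  refine ⟨Q, lt_of_le_of_lt hQ hdeg, ?_⟩
  obtain ⟨g, hg⟩ : ∃ g : ℝ → ℝ, g = fun u => (gg k α (cp Q) u).re := ⟨_, rfl⟩
  have hgm : Measurable g := by
    rw [hg]
    exact Complex.measurable_re.comp hmeas
  have hgv : ∀ u : ℝ, 0 ≤ u → gg k α (cp Q) u = (((cnt k α (Real.exp u) : ℝ) - Real.exp u * Q.eval u : ℝ) : ℂ) := by
    intro u hu
    rw [gg, if_neg (not_lt.2 hu), cp_eval]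
    push_cast
    ring
  have hgc : ∀ u : ℝ, (g u : ℂ) = gg k α (cp Q) u := by
    intro u
    rcases lt_or_ge u 0 with hu | hu
    · simp only [hg]
      rw [gg, if_pos hu]
      simp
    · simp only [hg]
      rw [hgv u hu, Complex.ofReal_re]
  have hgr : ∀ u : ℝ, 0 ≤ u → g u = (cnt k α (Real.exp u) : ℝ) - Real.exp u * Q.eval u := by
    intro u hu
    have := hgc u
    rw [hgv u hu] at this
    exact_mod_cast this
  have hg0 : ∀ u : ℝ, u < 0 → g u = 0 := by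
    intro u hu
    have := hgc u
    rw [gg, if_pos hu] at this
    exact_mod_cast this
  have hgb : ∀ u : ℝ, 0 ≤ u → |g u| ≤ A * Real.exp (7 / 4 * u) := by
    intro u hu
    have := hAb u hu
    rwa [← hgc, Complex.norm_real, Real.norm_eq_abs] at this
  have hpars := hPARS g G τ A (7 / 4) hgm hg0 hgb hτ0 hd
    (fun s hs => by
      rw [← htr s hs]
      refine setIntegral_congr_fun measurableSet_Ioi fun u _ => ?_
      simp only [hgc])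
    (fun σ hσ => by
      refine lt_of_le_of_lt (le_of_eq (setLIntegral_congr_fun measurableSet_Ioi fun u _ => ?_)) (hfin σ hσ)
      rw [← hgc, ← ofReal_norm, ← ofReal_norm, Complex.norm_real])
  obtain ⟨f, hf⟩ : ∃ f : ℝ → ℝ, f = fun u => g u ^ 2 * Real.exp (-2 * τ * u) := ⟨_, rfl⟩
  have hfm : Measurable f := by
    rw [hf]
    exact (hgm.pow_const 2).mul (by fun_prop)
  have hf0 : ∀ u, 0 ≤ f u := fun u => by
    rw [hf]
    positivity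
  have hfi : ∀ x : ℝ, 0 < x → IntegrableOn (fun u => f u * Real.exp (-x * u)) (Ioi 0) := by
    intro x hx
    have := (hpars (x : ℂ) (by simpa using hx)).1
    rw [Complex.ofReal_re] at this
    rw [hf]
    exact this
  obtain ⟨S, hS⟩ : ∃ S : ℝ, S = ∑' n : ℕ, ‖GS.gg α (n + 1)‖ ^ 2 / ((n : ℝ) + 1) ^ (1 + 1 / (k : ℝ)) := ⟨_, rfl⟩
  have hS0 : 0 ≤ S := by
    rw [hS]
    exact tsum_nonneg fun n => by positivity
  have hSM : GS.MM α (1 - τ) = (S : ℂ) := by rw [hS]; exact MM_real (by omega) α hτ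
  have hwi := hWI f (S / (2 * Real.pi ^ 2 * k)) r hfm hf0 hr0 hfi (fun Y => by
    obtain ⟨Y', hY'⟩ : ∃ Y' : ℝ, Y' = max Y 0 := ⟨_, rfl⟩
    have hY0 : 0 ≤ Y' := by rw [hY']; exact le_max_right _ _
    have hYY : Y ≤ Y' := by rw [hY']; exact le_max_left _ _
    obtain ⟨C₁, hC₁, h1'⟩ := h1 Y'
    obtain ⟨C₂, hC₂, h2'⟩ := h2 Y'
    obtain ⟨C, j₀, hbl⟩ := block hL1 hGAMP hPIB hk hcube hG hd hY0 hτ hC₁ hC₂ h1' h2'
    obtain ⟨Ψ, hΨ, hΨ'⟩ := hPSI k j₀ τ r Y' (min δ (1 / 4)) C G (GS.MM α) (by omega) hτ0 hr0 (by linarith) (by positivity) hd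
      (hMD k α) (fun z hz _ => (hpars z hz).2.1) (fun z hz0 hz1 hzi j hj => hbl z hz0 (by rw [← hr]; exact hz1) hzi j hj)
    refine ⟨Ψ, hΨ.mono fun z hz => ⟨hz.1, hz.2.1, hz.2.2.trans hYY⟩, fun z hz0 hz1 hzi => ?_⟩
    have e1 := (hpars z hz0).2.2
    rw [hΨ' z hz0 hz1 (hzi.trans hYY), hSM] at e1
    rw [hf, e1]
    push_cast
    ring)
  have hab := hAB f (S / (2 * Real.pi ^ 2 * k)) (1 + 2 * τ) hfm hf0 (by linarith) (by positivity) hfi hwi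
  have hval : S / (2 * Real.pi ^ 2 * k) / (1 + 2 * τ) = S / ((4 * k - 2) * Real.pi ^ 2) := by
    have h3 : 1 + 2 * τ = (2 * k - 1) / k := by
      rw [hτ]
      field_simp
      ring
    have h4 : (2 * (k : ℝ) - 1) ≠ 0 := by linarith
    have h5 : (4 * (k : ℝ) - 2) = 2 * (2 * k - 1) := by ring
    have := Real.pi_pos.ne'
    rw [h3, h5]
    field_simp
  rw [hval] at hab
  rw [← hS]
  have hlim := hab.comp Real.tendsto_log_atTop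
  refine hlim.congr' ?_
  filter_upwards [eventually_ge_atTop (1 : ℝ)] with X hX
  have hX0 : 0 < X := by linarith
  simp only [Function.comp]
  rw [cov2 Q g hgr τ hX]
  have e2 : Real.exp ((1 + 2 * τ) * Real.log X) = X ^ (2 - 1 / (k : ℝ)) := by
    rw [Real.rpow_def_of_pos hX0]
    congr 1
    rw [mul_comm]
    congr 1
    rw [hτ]
    field_simp
    ring
  rw [e2, hf]

theorem box_nums {K : ℕ} (hK : 2 ≤ K) : 1 / 2 < 1 / 2 + 1 / (4 * (K : ℝ)) ∧ 1 / 2 + 1 / (4 * (K : ℝ)) ≤ 1 / 2 + 1 / (2 * (K : ℝ)) ∧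
    1 / 2 + 1 / (2 * (K : ℝ)) < 1 := by
  have hk2 : (2 : ℝ) ≤ K := by exact_mod_cast hK
  have h1 : 0 < 1 / (4 * (K : ℝ)) := by positivity
  have h2 : 1 / (4 * (K : ℝ)) ≤ 1 / (2 * (K : ℝ)) := one_div_le_one_div_of_le (by positivity) (by linarith)
  have h3 : 1 / (2 * (K : ℝ)) ≤ 1 / 4 := one_div_le_one_div_of_le (by norm_num) (by linarith)
  refine ⟨?_, ?_, ?_⟩ <;> linarith

theorem t_ASY2 (hDAN : S_DAN) (hFU2 : S_FU2) (hTR : S_TR) (hPP : S_PP) (hPM : S_PM) (hL1 : S_L1) (hWI : S_WI) (hAB : S_AB)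
    (hPARS : S_PARS) (hGAMP : S_GAMP)
    (hMD : ∀ (k : ℕ) (α : Fin k → ℝ), DifferentiableOn ℂ (GS.MM α) {b : ℂ | 1 / 2 < b.re})
    (hMVE : S_MVE2) (hPSI : S_PSI) (hPIB : S_PIB) : S_ASY2 := by
  intro J k hJ hk
  obtain ⟨hb1, hb2, hb3⟩ := box_nums hk
  obtain ⟨⟨δ, hδ, hM1⟩, hM2⟩ := hMVE J k _ _ hJ hb1 hb2 hb3
  have hM2' := hM2 (1 / 4) (by norm_num)
  have hae : ∀ᵐ α ∂(volume.restrict (cube k)), ∀ n : ℕ,
      ∫⁻ t in {t : ℝ | 1 ≤ |t|}, ‖ZZ (J + k) (app J k α) (sg (J + k) n + t * Complex.I)‖ₑ ^ 2 < ⊤ :=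
    ae_all_iff.2 (fun n => hFU2 J k (sg (J + k) n) hJ (by omega) (sg_lt (by omega) n).1 (sg_lt (by omega) n).2.1
      (sg_lt (by omega) n).2.2)
  have hcm : MeasurableSet (cube k) := MeasurableSet.univ_pi (fun _ => measurableSet_Ico)
  filter_upwards [hae, hM1, hM2', ae_restrict_mem hcm] with α hα h1 h2 hcube
  exact asy_core hDAN hTR hPP hPM hL1 hWI hAB hPARS hGAMP hMD hPSI hPIB hk (app_mem hcube) hα hδ h1 h2

end

end Pool.Agent.J4H38.GSX
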