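import Pool.Agent.J4H38.GS.Stm5

/-!
# Project GS (helper38, MP_bc6037_nt), sixth part (GS5): two pieces of the assembly
-/

set_option autoImplicit false

open MeasureTheory Set Filter Polynomial Topology
open scoped ComplexConjugate

namespace Pool.Agent.J4H38.GSX

noncomputable section

/-- (PSI), 180 lines, Mathlib only.  `Φ z t = G(τ+z/2+it) G(τ+z/2-it) - M(1-τ-z/2) (2π)^{kz-1} t^{-1-kz}`; the blocks `E_j(z)` (the integrals in the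
hypothesis) are continuous in `z` on the closed region (replace `z` by `⟨max 0 (min r z.re), z.im⟩` and `t` by `max t 1`, then the integrand is
continuous on `ℂ × ℝ`: `intervalIntegral.continuous_parametric_intervalIntegral_of_continuous'`), so `∑_{j ≥ j₀} E_j` is continuous
(`continuousOn_tsum`).  For `Re z > 0` both parts are integrable on `(2^{j₀}, ∞)` (`integral_Ioi_cpow_of_lt`), the sum of the blocks is the
integral (`intervalIntegral.sum_integral_adjacent_intervals`, `intervalIntegral_tendsto_integral_Ioi`), and the transform is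
`(1/π) (∫_0^{2^{j₀}} G G + ∑ E_j) + F(z)/z`, `F(z) = M(1-τ-z/2) (2π)^{kz-1} (2^{j₀})^{-kz}/(πk)`, `F(z)/z = F(0)/z + dslope F 0 z`
(`continuousOn_dslope`). -/
def S_PSI : Prop := ∀ (k j₀ : ℕ) (τ r Y δ C : ℝ) (G M : ℂ → ℂ), 0 < k → 0 < τ → 0 < r → τ + r / 2 < 1 / 2 → 0 < δ →
  DifferentiableOn ℂ G {s : ℂ | 0 < s.re} → DifferentiableOn ℂ M {b : ℂ | 1 / 2 < b.re} →
  (∀ z : ℂ, 0 < z.re → z.re ≤ r → Integrable (fun t : ℝ => G (τ + z / 2 + t * Complex.I) * G (τ + z / 2 - t * Complex.I))) →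
  (∀ z : ℂ, 0 ≤ z.re → z.re ≤ r → |z.im| ≤ Y → ∀ j : ℕ, j₀ ≤ j →
    ‖∫ t in ((2 : ℝ) ^ j)..(2 ^ (j + 1)), (G (τ + z / 2 + t * Complex.I) * G (τ + z / 2 - t * Complex.I) -
      M (1 - τ - z / 2) * (2 * Real.pi : ℂ) ^ (k * z - 1) * (t : ℂ) ^ (-1 - k * z))‖ ≤ C * (2 : ℝ) ^ (-(δ * j))) →
  ∃ Ψ : ℂ → ℂ, ContinuousOn Ψ {z : ℂ | 0 ≤ z.re ∧ z.re ≤ r ∧ |z.im| ≤ Y} ∧ ∀ z : ℂ, 0 < z.re → z.re ≤ r → |z.im| ≤ Y →
    (1 / (2 * Real.pi) : ℂ) * ∫ t : ℝ, G (τ + z / 2 + t * Complex.I) * G (τ + z / 2 - t * Complex.I) =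
      (M (1 - τ) / (2 * Real.pi ^ 2 * k)) / z + Ψ z

/-- (PIB), 60 lines, Mathlib only: partial integration on a block (`D(T) = ∫_{2^j}^T p`, `|D| ≤ E`; `φ(t) = (2π)^{kz-1} t^{-1-kz}`) -/
def S_PIB : Prop := ∀ (k : ℕ) (Y : ℝ), 0 ≤ Y → ∃ C : ℝ, 0 ≤ C ∧ ∀ (z : ℂ) (j : ℕ) (E : ℝ) (p : ℝ → ℂ), 0 ≤ z.re → z.re ≤ 1 → |z.im| ≤ Y →
  Continuous p → (∀ T : ℝ, (2 : ℝ) ^ j ≤ T → T ≤ 2 ^ (j + 1) → ‖∫ t in ((2 : ℝ) ^ j)..T, p t‖ ≤ E) →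
  ‖∫ t in ((2 : ℝ) ^ j)..(2 ^ (j + 1)), (2 * Real.pi : ℂ) ^ (k * z - 1) * (t : ℂ) ^ (-1 - k * z) * p t‖ ≤ C * E / 2 ^ j

end

end Pool.Agent.J4H38.GSX
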