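import Pool.Agent.J4H38.GSX.L6
import Pool.Agent.J4H38.GSX.Stm6

/-!
# Project GS5: the block estimate
-/

set_option autoImplicit false

open MeasureTheory Set Filter Polynomial Topology
open scoped ComplexConjugate

namespace Pool.Agent.J4H38.GSX

open Pool.Agent.J4H38.GS

noncomputable section

theorem EE_diff' (a : ℝ) {w : ℂ} (h : 0 < w.re) (hw : w ≠ 1) : DifferentiableAt ℂ (EE a) w := by
  unfold EE
  have e1 : DifferentiableAt ℂ (fun w : ℂ => Complex.exp (Real.pi * Complex.I * w)) w := by fun_prop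
  refine ((HurwitzZeta.differentiableAt_expZeta _ w (Or.inl hw)).add
    (e1.mul (HurwitzZeta.differentiableAt_expZeta _ w (Or.inl hw)))).sub ?_
  refine DifferentiableAt.div ?_ (AA_diff h) (AA_ne h)
  exact DifferentiableAt.const_cpow (differentiableAt_id.sub_const 1) (Or.inr (by simpa [sub_eq_zero] using hw))

theorem EP_cont {k : ℕ} (α : Fin k → ℝ) {b : ℂ} (h : 0 < b.re) (h1 : b.re < 1) :
    Continuous (fun t : ℝ => EP α (b + t * Complex.I)) := by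
  unfold EP
  refine continuous_finsetProd _ fun i _ => ?_
  rw [continuous_iff_continuousAt]
  intro t
  have hre : (b + t * Complex.I).re = b.re := by simp
  have hne : b + t * Complex.I ≠ 1 := by
    intro h0
    rw [h0] at hre
    rw [← hre] at h1
    simp at h1
  have h2 := (EE_diff' (α i) (w := b + t * Complex.I) (by rw [hre]; exact h) hne).continuousAt
  have h3 : ContinuousAt (fun t : ℝ => b + t * Complex.I) t := by fun_prop
  exact ContinuousAt.comp (f := fun t : ℝ => b + t * Complex.I) h2 h3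

/-- `DD` commutes with conjugation -/
theorem DD_conj (a : ℝ) (s : ℂ) : DD a (conj s) = conj (DD a s) := by
  unfold DD
  rw [map_mul, ← integral_conj]
  congr 1
  refine setIntegral_congr_fun measurableSet_Ioi fun y hy => ?_
  have hy' : (0 : ℝ) < y := lt_trans one_pos hy
  have h1 : (y : ℂ) ^ (-conj s - 1) = conj ((y : ℂ) ^ (-s - 1)) := by
    have h2 : (y : ℂ).arg ≠ Real.pi := by
      rw [Complex.arg_ofReal_of_nonneg hy'.le]
      exact Real.pi_pos.ne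
    have h3 := Complex.cpow_conj (y : ℂ) (-s - 1) h2
    rw [Complex.conj_ofReal] at h3
    rw [← h3]
    congr 1
    simp
  rw [map_mul, Complex.conj_ofReal, h1]

theorem ZZ_conj (k : ℕ) (α : Fin k → ℝ) (s : ℂ) : ZZ k α (conj s) = conj (ZZ k α s) := by
  unfold ZZ
  rw [map_div₀, map_prod]
  congr 1
  refine Finset.prod_congr rfl fun i _ => ?_
  rw [map_add, DD_conj, map_div₀, map_sub, map_one]

/-- the functional equation for the product -/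
theorem ZZ_fe (h1 : S_L1) {k : ℕ} {α : Fin k → ℝ} (hα : α ∈ cube k) {w : ℂ} (h0 : 0 < w.re) (h1' : w.re < 1) (hi : 1 ≤ w.im) :
    ZZ k α (1 - w) = AA w ^ k * EP α w / (1 - w) := by
  have hb : ∀ i, 0 ≤ α i ∧ α i < 1 := fun i => hα i (mem_univ i)
  unfold ZZ EP
  congr 1
  rw [Finset.prod_congr rfl fun i _ => h1 (α i) (hb i).1 (hb i).2 w h0 h1' hi, Finset.prod_mul_distrib, Finset.prod_const,
    Finset.card_univ, Fintype.card_fin]

theorem pow_diff {a b : ℂ} {R : ℝ} (ha : ‖a‖ ≤ R) (hb : ‖b‖ ≤ R) (n : ℕ) : ‖a ^ (n + 1) - b ^ (n + 1)‖ ≤ (n + 1) * R ^ n * ‖a - b‖ := by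
  have hR : 0 ≤ R := (norm_nonneg _).trans ha
  induction n with
  | zero => simp
  | succ n ih =>
    have e : a ^ (n + 1 + 1) - b ^ (n + 1 + 1) = a * (a ^ (n + 1) - b ^ (n + 1)) + (a - b) * b ^ (n + 1) := by ring
    rw [e]
    refine (norm_add_le _ _).trans ?_
    rw [norm_mul, norm_mul, norm_pow]
    have h1 : ‖a‖ * ‖a ^ (n + 1) - b ^ (n + 1)‖ ≤ R * ((n + 1) * R ^ n * ‖a - b‖) :=
      mul_le_mul ha ih (norm_nonneg _) hR
    have h2 : ‖a - b‖ * ‖b‖ ^ (n + 1) ≤ ‖a - b‖ * R ^ (n + 1) :=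
      mul_le_mul_of_nonneg_left (pow_le_pow_left₀ (norm_nonneg _) hb _) (norm_nonneg _)
    push_cast
    have h3 : R * ((n + 1) * R ^ n * ‖a - b‖) = (n + 1) * R ^ (n + 1) * ‖a - b‖ := by ring
    rw [h3] at h1
    linarith

/-- the main term of the integrand -/
theorem main_eq {k : ℕ} (hk : 0 < k) {z b : ℂ} (hb : b = 1 - ((((k : ℝ) - 1) / (2 * k) : ℝ) : ℂ) - z / 2) {t : ℝ} (ht : 0 < t) :
    (((t / (2 * Real.pi) : ℝ) : ℂ) ^ (2 * b - 1)) ^ k / (t : ℂ) ^ 2 =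
      (2 * Real.pi : ℂ) ^ (k * z - 1) * (t : ℂ) ^ (-1 - k * z) := by
  have hk0 : (k : ℂ) ≠ 0 := by exact_mod_cast hk.ne'
  have ht0 : (t : ℂ) ≠ 0 := by exact_mod_cast ht.ne'
  have hpi : (0 : ℝ) < 2 * Real.pi := by positivity
  have hpi0 : ((2 * Real.pi : ℝ) : ℂ) ≠ 0 := by exact_mod_cast hpi.ne'
  have e1 : (k : ℂ) * (2 * b - 1) = 1 - k * z := by
    rw [hb]
    push_cast
    field_simp
    ring
  rw [← Complex.cpow_nat_mul, e1]
  have e2 : (t : ℂ) = ((t / (2 * Real.pi) : ℝ) : ℂ) * ((2 * Real.pi : ℝ) : ℂ) := by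
    rw [← Complex.ofReal_mul, div_mul_cancel₀ _ hpi.ne']
  have e3 : (t : ℂ) ^ (1 - (k : ℂ) * z) = ((t / (2 * Real.pi) : ℝ) : ℂ) ^ (1 - (k : ℂ) * z) * ((2 * Real.pi : ℝ) : ℂ) ^ (1 - (k : ℂ) * z) := by
    conv_lhs => rw [e2]
    exact Complex.mul_cpow_ofReal_nonneg (by positivity) hpi.le _
  have e4 : (-1 - (k : ℂ) * z) = (1 - k * z) - 2 := by ring
  have e5 : ((k : ℂ) * z - 1) = -(1 - k * z) := by ring
  have e6 : (2 * Real.pi : ℂ) = ((2 * Real.pi : ℝ) : ℂ) := by push_cast; rfl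
  have h7 : ((2 * Real.pi : ℝ) : ℂ) ^ (1 - (k : ℂ) * z) ≠ 0 := by
    rw [Complex.cpow_def_of_ne_zero hpi0]
    exact Complex.exp_ne_zero _
  rw [e4, e5, e6, Complex.cpow_sub _ _ ht0, Complex.cpow_neg, e3, Complex.cpow_ofNat]
  field_simp

/-- the algebra of the integrand; `y = √t` -/
theorem alg {q m p D u1 u2 r1 r2 : ℂ} {k : ℕ} {t y A B R e1 e2 : ℝ} (hy : 1 ≤ y) (hty : t = y ^ 2) (hA : 0 ≤ A) (hB : 0 ≤ B)
    (hR : 0 ≤ R) (hu : u1 * u2 = q ^ k * p / D)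
    (h1 : ‖q ^ k / D - m ^ k / (t : ℂ) ^ 2‖ ≤ A / t ^ 2) (h2 : ‖p‖ ≤ e1 * e2) (he1 : 0 ≤ e1) (he2 : 0 ≤ e2)
    (h3 : ‖u1‖ ^ 2 ≤ B * e1 ^ 2 / t) (h4 : ‖u2‖ ^ 2 ≤ B * e2 ^ 2 / t) (h5 : ‖r1‖ ≤ R / t) (h6 : ‖r2‖ ≤ R / t) :
    ‖(u1 - r1) * (u2 - r2) - m ^ k / (t : ℂ) ^ 2 * p‖ ≤ (A + B + 2 * R ^ 2) * (1 + e1 ^ 2 + e2 ^ 2) / y ^ 3 := by
  have hy0 : 0 < y := by linarith
  have e : (u1 - r1) * (u2 - r2) - m ^ k / (t : ℂ) ^ 2 * p = (q ^ k / D - m ^ k / (t : ℂ) ^ 2) * p - r1 * u2 - u1 * r2 + r1 * r2 := by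
    have : (u1 - r1) * (u2 - r2) = q ^ k * p / D - r1 * u2 - u1 * r2 + r1 * r2 := by
      rw [← hu]
      ring
    rw [this]
    ring
  have hy3 : 0 < y ^ 3 := by positivity
  have n1 : ‖(q ^ k / D - m ^ k / (t : ℂ) ^ 2) * p‖ ≤ A * ((e1 ^ 2 + e2 ^ 2) / 2) / y ^ 3 := by
    rw [norm_mul]
    calc _ ≤ A / t ^ 2 * (e1 * e2) := mul_le_mul h1 h2 (norm_nonneg _) (by positivity)
      _ ≤ A / y ^ 3 * ((e1 ^ 2 + e2 ^ 2) / 2) := by
          have h7 : A / t ^ 2 ≤ A / y ^ 3 := by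
            refine div_le_div_of_nonneg_left hA hy3 ?_
            rw [hty, ← pow_mul]
            exact pow_le_pow_right₀ hy (by norm_num)
          have h8 : e1 * e2 ≤ (e1 ^ 2 + e2 ^ 2) / 2 := by nlinarith [sq_nonneg (e1 - e2)]
          exact mul_le_mul h7 h8 (by positivity) (by positivity)
      _ = _ := by ring
  have cross : ∀ (r u : ℂ) (e : ℝ), ‖r‖ ≤ R / t → ‖u‖ ^ 2 ≤ B * e ^ 2 / t → ‖r‖ * ‖u‖ ≤ (B * e ^ 2 + R ^ 2) / 2 / y ^ 3 := by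
    intro r u e hr hu
    have h7 : ‖r‖ * ‖u‖ ≤ (‖u‖ ^ 2 / y + ‖r‖ ^ 2 * y) / 2 := by
      have h8 : ‖u‖ ^ 2 / y + ‖r‖ ^ 2 * y - 2 * (‖r‖ * ‖u‖) = (‖u‖ - ‖r‖ * y) ^ 2 / y := by
        field_simp
        ring
      have h9 : 0 ≤ (‖u‖ - ‖r‖ * y) ^ 2 / y := by positivity
      linarith
    have h8 : ‖u‖ ^ 2 / y ≤ B * e ^ 2 / y ^ 3 := by
      rw [div_le_iff₀ hy0]
      refine hu.trans (le_of_eq ?_)
      rw [hty]
      field_simp
    have h9 : ‖r‖ ^ 2 * y ≤ R ^ 2 / y ^ 3 := by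
      calc ‖r‖ ^ 2 * y ≤ (R / t) ^ 2 * y := by gcongr
        _ = _ := by
          rw [hty]
          field_simp
    calc ‖r‖ * ‖u‖ ≤ _ := h7
      _ ≤ (B * e ^ 2 / y ^ 3 + R ^ 2 / y ^ 3) / 2 := by linarith
      _ = _ := by ring
  have n2 := cross r1 u2 e2 h5 h4
  have n3 := cross r2 u1 e1 h6 h3
  have n4 : ‖r1‖ * ‖r2‖ ≤ R ^ 2 / y ^ 3 := by
    calc ‖r1‖ * ‖r2‖ ≤ (R / t) * (R / t) := mul_le_mul h5 h6 (norm_nonneg _) (by rw [hty]; positivity)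
      _ = R ^ 2 / y ^ 4 := by
          rw [hty]
          field_simp
      _ ≤ R ^ 2 / y ^ 3 := div_le_div_of_nonneg_left (by positivity) hy3 (pow_le_pow_right₀ hy (by norm_num))
  rw [e]
  calc _ ≤ ‖(q ^ k / D - m ^ k / (t : ℂ) ^ 2) * p‖ + ‖r1‖ * ‖u2‖ + ‖r2‖ * ‖u1‖ + ‖r1‖ * ‖r2‖ := by
        refine (norm_add_le _ _).trans (add_le_add ((norm_sub_le _ _).trans (add_le_add ((norm_sub_le _ _).trans
          (add_le_add le_rfl ?_)) ?_)) ?_)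
        · rw [norm_mul]
        · rw [norm_mul, mul_comm]
        · rw [norm_mul]
    _ ≤ A * ((e1 ^ 2 + e2 ^ 2) / 2) / y ^ 3 + (B * e2 ^ 2 + R ^ 2) / 2 / y ^ 3 + (B * e1 ^ 2 + R ^ 2) / 2 / y ^ 3 + R ^ 2 / y ^ 3 := by
        gcongr
    _ = (A * ((e1 ^ 2 + e2 ^ 2) / 2) + (B * e2 ^ 2 + R ^ 2) / 2 + (B * e1 ^ 2 + R ^ 2) / 2 + R ^ 2) / y ^ 3 := by ring
    _ ≤ _ := by
        refine div_le_div_of_nonneg_right ?_ hy3.le
        have h7 : 0 ≤ e1 ^ 2 := sq_nonneg _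
        have h8 : 0 ≤ e2 ^ 2 := sq_nonneg _
        have h9 : 0 ≤ R ^ 2 := sq_nonneg _
        nlinarith [mul_nonneg hA h7, mul_nonneg hA h8, mul_nonneg hB h7, mul_nonneg hB h8, mul_nonneg h9 h7, mul_nonneg h9 h8]

end

end Pool.Agent.J4H38.GSX
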