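import Pool.Agent.J4H38.GSX.Blk

/-!
# Project GS5: the block estimate, second part
-/

set_option autoImplicit false

open MeasureTheory Set Filter Polynomial Topology
open scoped ComplexConjugate

namespace Pool.Agent.J4H38.GSX

open Pool.Agent.J4H38.GS

noncomputable section

/-- bound for the factor of the functional equation from (GAMP) at real argument -/
theorem AA_up {x₀ x₁ C t₀ : ℝ} (hC : 0 ≤ C) (ht₀ : 1 ≤ t₀) (hx₀ : 1 / 2 ≤ x₀)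
    (h : ∀ (b : ℂ) (t : ℝ), x₀ ≤ b.re → b.re ≤ x₁ → |b.im| ≤ 0 → t₀ ≤ t →
      ‖conj (AA (conj b + t * Complex.I)) * AA (b + t * Complex.I) - ((t / (2 * Real.pi) : ℝ) : ℂ) ^ (2 * b - 1)‖ ≤ C * t ^ (2 * b.re - 2))
    {w : ℂ} (h0 : x₀ ≤ w.re) (h1 : w.re ≤ x₁) (hi : t₀ ≤ w.im) : ‖AA w‖ ^ 2 ≤ (1 + C) * w.im ^ (2 * w.re - 1) := by
  have ht0 : 0 < w.im := by linarith
  have e := h (w.re : ℂ) w.im (by simpa using h0) (by simpa using h1) (by simp) hi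
  rw [Complex.conj_ofReal, Complex.re_add_im, Complex.ofReal_re] at e
  have e1 : conj (AA w) * AA w = ((‖AA w‖ ^ 2 : ℝ) : ℂ) := by
    rw [← Complex.normSq_eq_conj_mul_self, Complex.normSq_eq_norm_sq]
  rw [e1] at e
  have hp : 0 < w.im / (2 * Real.pi) := by positivity
  have e2 : ‖((w.im / (2 * Real.pi) : ℝ) : ℂ) ^ (2 * (w.re : ℂ) - 1)‖ = (w.im / (2 * Real.pi)) ^ (2 * w.re - 1) := by
    rw [Complex.norm_cpow_eq_rpow_re_of_pos hp]
    congr 1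
    simp
  have e3 : (w.im / (2 * Real.pi)) ^ (2 * w.re - 1) ≤ w.im ^ (2 * w.re - 1) := by
    refine Real.rpow_le_rpow hp.le ?_ (by linarith)
    refine div_le_self ht0.le ?_
    linarith [Real.pi_gt_three]
  have e4 : w.im ^ (2 * w.re - 2) ≤ w.im ^ (2 * w.re - 1) :=
    Real.rpow_le_rpow_of_exponent_le (by linarith) (by linarith)
  have e5 : ‖((‖AA w‖ ^ 2 : ℝ) : ℂ)‖ ≤ ‖((‖AA w‖ ^ 2 : ℝ) : ℂ) - ((w.im / (2 * Real.pi) : ℝ) : ℂ) ^ (2 * (w.re : ℂ) - 1)‖ +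
      ‖((w.im / (2 * Real.pi) : ℝ) : ℂ) ^ (2 * (w.re : ℂ) - 1)‖ := by
    have := norm_add_le (((‖AA w‖ ^ 2 : ℝ) : ℂ) - ((w.im / (2 * Real.pi) : ℝ) : ℂ) ^ (2 * (w.re : ℂ) - 1))
      (((w.im / (2 * Real.pi) : ℝ) : ℂ) ^ (2 * (w.re : ℂ) - 1))
    rwa [sub_add_cancel] at this
  rw [Complex.norm_real, Real.norm_of_nonneg (sq_nonneg _), e2] at e5
  nlinarith

/-- the quotient of the Gamma factors -/
theorem quot_le {k : ℕ} {C S t : ℝ} {q m D s2 : ℂ} {c : ℝ} (hC : 0 ≤ C) (hS : 0 ≤ S) (ht : 1 ≤ t)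
    (hc : c * (k + 1) ≤ 1) (hm : ‖m‖ ≤ t ^ c) (hq : ‖q - m‖ ≤ C * t ^ (c - 1))
    (hD : D = s2 + (t : ℂ) ^ 2) (hs : ‖s2‖ ≤ S) (hSt : 2 * S ≤ t ^ 2) :
    ‖q ^ (k + 1) / D - m ^ (k + 1) / (t : ℂ) ^ 2‖ ≤ (2 * (k + 1) * (1 + C) ^ k * C + 2 * S) / t ^ 2 := by
  have ht0 : 0 < t := by linarith
  have htc : (t : ℂ) ≠ 0 := by exact_mod_cast ht0.ne'
  have hnt : ‖(t : ℂ) ^ 2‖ = t ^ 2 := by rw [norm_pow, Complex.norm_real, Real.norm_of_nonneg ht0.le]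
  have hDn : t ^ 2 / 2 ≤ ‖D‖ := by
    rw [hD]
    have h1 := norm_sub_norm_le ((t : ℂ) ^ 2) (-s2)
    rw [norm_neg, sub_neg_eq_add, hnt, add_comm] at h1
    linarith
  have ht2 : 0 < t ^ 2 := by positivity
  have hD0 : D ≠ 0 := by
    intro h0
    rw [h0, norm_zero] at hDn
    linarith
  have hDp : 0 < ‖D‖ := norm_pos_iff.2 hD0
  have hR1 : ‖m‖ ≤ (1 + C) * t ^ c := by
    have : 0 ≤ C * t ^ c := by positivity
    linarith
  have hR2 : ‖q‖ ≤ (1 + C) * t ^ c := by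
    have h1 : ‖q‖ ≤ ‖q - m‖ + ‖m‖ := by
      have := norm_add_le (q - m) m
      rwa [sub_add_cancel] at this
    have h2 : t ^ (c - 1) ≤ t ^ c := Real.rpow_le_rpow_of_exponent_le ht (by linarith)
    have h3 : C * t ^ (c - 1) ≤ C * t ^ c := mul_le_mul_of_nonneg_left h2 hC
    linarith
  have hd := pow_diff hR2 hR1 k
  have h1 : ‖q ^ (k + 1) - m ^ (k + 1)‖ ≤ (k + 1) * (1 + C) ^ k * C := by
    refine hd.trans ?_
    calc ((k : ℝ) + 1) * ((1 + C) * t ^ c) ^ k * ‖q - m‖ ≤ ((k : ℝ) + 1) * ((1 + C) * t ^ c) ^ k * (C * t ^ (c - 1)) := by gcongr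
      _ = (k + 1) * (1 + C) ^ k * C * (t ^ (c * (k + 1) - 1)) := by
          rw [mul_pow, ← Real.rpow_natCast (t ^ c), ← Real.rpow_mul ht0.le]
          have : t ^ (c * (k + 1) - 1) = t ^ (c * k) * t ^ (c - 1) := by
            rw [← Real.rpow_add ht0]
            congr 1
            ring
          rw [this]
          ring
      _ ≤ (k + 1) * (1 + C) ^ k * C * 1 := by
          gcongr
          exact Real.rpow_le_one_of_one_le_of_nonpos ht (by linarith)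
      _ = _ := by ring
  have h2 : ‖m ^ (k + 1)‖ ≤ t := by
    rw [norm_pow]
    calc ‖m‖ ^ (k + 1) ≤ (t ^ c) ^ (k + 1) := by gcongr
      _ = t ^ (c * (k + 1)) := by
          rw [← Real.rpow_natCast (t ^ c), ← Real.rpow_mul ht0.le]
          push_cast
          rfl
      _ ≤ t ^ (1 : ℝ) := Real.rpow_le_rpow_of_exponent_le ht hc
      _ = t := Real.rpow_one t
  have e : q ^ (k + 1) / D - m ^ (k + 1) / (t : ℂ) ^ 2 = (q ^ (k + 1) - m ^ (k + 1)) / D - m ^ (k + 1) * s2 / (D * (t : ℂ) ^ 2) := by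
    have : m ^ (k + 1) * s2 = m ^ (k + 1) * (D - (t : ℂ) ^ 2) := by
      rw [hD]
      ring
    rw [this]
    field_simp
    ring
  rw [e]
  refine (norm_sub_le _ _).trans ?_
  have h3 : ‖(q ^ (k + 1) - m ^ (k + 1)) / D‖ ≤ 2 * (k + 1) * (1 + C) ^ k * C / t ^ 2 := by
    rw [norm_div, div_le_div_iff₀ hDp ht2]
    have h5 : 0 ≤ ((k : ℝ) + 1) * (1 + C) ^ k * C := by positivity
    calc ‖q ^ (k + 1) - m ^ (k + 1)‖ * t ^ 2 ≤ ((k + 1) * (1 + C) ^ k * C) * t ^ 2 := by gcongr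
      _ ≤ ((k + 1) * (1 + C) ^ k * C) * (2 * ‖D‖) := by
          refine mul_le_mul_of_nonneg_left ?_ h5
          linarith
      _ = _ := by ring
  have h4 : ‖m ^ (k + 1) * s2 / (D * (t : ℂ) ^ 2)‖ ≤ 2 * S / t ^ 2 := by
    rw [norm_div, norm_mul, norm_mul, hnt]
    rw [div_le_div_iff₀ (by positivity) ht2]
    have h6 : ‖m ^ (k + 1)‖ * ‖s2‖ ≤ t * S := mul_le_mul h2 hs (norm_nonneg _) ht0.le
    have h7 : t * S ≤ 2 * S * ‖D‖ := by
      have h8 : t ≤ t ^ 2 := by nlinarith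
      have h9 : t ≤ 2 * ‖D‖ := by linarith
      nlinarith
    calc ‖m ^ (k + 1)‖ * ‖s2‖ * t ^ 2 ≤ (2 * S * ‖D‖) * t ^ 2 := by
          refine mul_le_mul_of_nonneg_right (h6.trans h7) ht2.le
      _ = _ := by ring
  rw [add_div]
  exact add_le_add h3 h4

end

end Pool.Agent.J4H38.GSX
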