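import Pool.Agent.J4H38.GSX.Blk2

/-!
# Project GS5: the block estimate, third part
-/

set_option autoImplicit false

open MeasureTheory Set Filter Polynomial Topology
open scoped ComplexConjugate

namespace Pool.Agent.J4H38.GSX

open Pool.Agent.J4H38.GS

noncomputable section

/-- pointwise form of the integrand -/
theorem block_pt (hL1 : S_L1) (hGAMP : S_GAMP) {k : ℕ} (hk : 2 ≤ k) {α : Fin k → ℝ} (hα : α ∈ cube k) {P : ℂ[X]} {G : ℂ → ℂ}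
    (hG : ∀ s : ℂ, 0 < s.re → s ≠ 1 → ZZ k α s = G s + RR P s) {Y : ℝ} (hY : 0 ≤ Y) {τ : ℝ} (hτ : τ = ((k : ℝ) - 1) / (2 * k)) :
    ∃ B T₁ : ℝ, 0 ≤ B ∧ 1 ≤ T₁ ∧ ∀ z : ℂ, 0 ≤ z.re → z.re ≤ 1 / (2 * k) → |z.im| ≤ Y → ∀ t : ℝ, T₁ ≤ t →
      ‖G (τ + z / 2 + t * Complex.I) * G (τ + z / 2 - t * Complex.I) -
        (2 * Real.pi : ℂ) ^ (k * z - 1) * (t : ℂ) ^ (-1 - k * z) *
          (conj (EP α (conj (1 - τ - z / 2) + t * Complex.I)) * EP α ((1 - τ - z / 2) + t * Complex.I))‖ ≤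
        B * (1 + ‖EP α (conj (1 - τ - z / 2) + t * Complex.I)‖ ^ 2 + ‖EP α ((1 - τ - z / 2) + t * Complex.I)‖ ^ 2) / Real.sqrt t ^ 3 := by
  have hk2 : (2 : ℝ) ≤ k := by exact_mod_cast hk
  have hk0 : (0 : ℝ) < k := by linarith
  obtain ⟨k', rfl⟩ : ∃ k', k = k' + 1 := ⟨k - 1, by omega⟩
  set K : ℝ := ((k' + 1 : ℕ) : ℝ) with hK
  have hr : 0 < 1 / (2 * K) := by positivity
  have hτ1 : 1 - τ = 1 / 2 + 1 / (2 * K) := by
    rw [hτ]
    field_simp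
    ring
  have hr1 : 1 / (2 * K) ≤ 1 / 4 := one_div_le_one_div_of_le (by norm_num) (by linarith)
  have hx0 : 1 / 2 + 1 / (4 * K) = 1 / 2 + (1 / (2 * K)) / 2 := by
    field_simp
    ring
  obtain ⟨C, t₀, hC, ht₀, hgam⟩ := hGAMP (1 / 2 + 1 / (4 * K)) (1 / 2 + 1 / (2 * K)) Y (by positivity) (by rw [hx0]; linarith)
  obtain ⟨R, hR, hRR⟩ := RR_le P
  refine ⟨(2 * (k' + 1) * (1 + C) ^ k' * C + 2 * (1 + Y) ^ 2) + 8 * (1 + C) ^ (k' + 1) + 2 * (2 * R) ^ 2, t₀ + 2 * Y + 2, by positivity,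
    by linarith, fun z hz0 hz1 hzi t ht => ?_⟩
  have ht1 : 1 ≤ t := by linarith
  have ht0 : 0 < t := by linarith
  obtain ⟨b, hb⟩ : ∃ b : ℂ, b = 1 - τ - z / 2 := ⟨_, rfl⟩
  have hbre : b.re = 1 / 2 + 1 / (2 * K) - z.re / 2 := by
    rw [hb, ← hτ1]
    simp
  have hbim : b.im = -z.im / 2 := by
    rw [hb]
    simp
    ring
  have hbi : |b.im| ≤ Y := by
    rw [hbim, neg_div, abs_neg, abs_div, abs_of_pos (two_pos : (0 : ℝ) < 2)]
    linarith [abs_nonneg z.im]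
  have hb0 : 1 / 2 + 1 / (4 * K) ≤ b.re := by
    rw [hbre, hx0]
    linarith
  have hb1 : b.re ≤ 1 / 2 + 1 / (2 * K) := by
    rw [hbre]
    linarith
  have hq1 : 0 < 1 / (4 * K) := by positivity
  obtain ⟨w, hw⟩ : ∃ w : ℂ, w = b + t * Complex.I := ⟨_, rfl⟩
  obtain ⟨w', hw'⟩ : ∃ w' : ℂ, w' = conj b + t * Complex.I := ⟨_, rfl⟩
  have hwre : w.re = b.re := by rw [hw]; simp
  have hwim : w.im = b.im + t := by rw [hw]; simp
  have hwre' : w'.re = b.re := by rw [hw']; simp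
  have hwim' : w'.im = -b.im + t := by rw [hw']; simp
  have hbl := abs_le.1 hbi
  have hi1 : t₀ ≤ w.im ∧ t / 2 ≤ w.im ∧ w.im ≤ 2 * t := by
    rw [hwim]
    refine ⟨?_, ?_, ?_⟩ <;> linarith [hbl.1, hbl.2]
  have hi2 : t₀ ≤ w'.im ∧ t / 2 ≤ w'.im ∧ w'.im ≤ 2 * t := by
    rw [hwim']
    refine ⟨?_, ?_, ?_⟩ <;> linarith [hbl.1, hbl.2]
  have es1 : (τ : ℂ) + z / 2 + t * Complex.I = conj (1 - w') := by
    rw [hw', map_sub, map_add, map_one, Complex.conj_conj, map_mul, Complex.conj_ofReal, Complex.conj_I, hb]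
    ring
  have es2 : (τ : ℂ) + z / 2 - t * Complex.I = 1 - w := by
    rw [hw, hb]
    ring
  have fe1 := ZZ_fe hL1 hα (w := w') (by rw [hwre']; linarith) (by rw [hwre']; linarith) (by linarith [hi2.1])
  have fe2 := ZZ_fe hL1 hα (w := w) (by rw [hwre]; linarith) (by rw [hwre]; linarith) (by linarith [hi1.1])
  obtain ⟨s1, hs1⟩ : ∃ s1 : ℂ, s1 = (τ : ℂ) + z / 2 + t * Complex.I := ⟨_, rfl⟩
  obtain ⟨s2, hs2⟩ : ∃ s2 : ℂ, s2 = (τ : ℂ) + z / 2 - t * Complex.I := ⟨_, rfl⟩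
  have hs1re : 0 < s1.re := by
    rw [hs1, es1]
    simp only [Complex.conj_re, Complex.sub_re, Complex.one_re, hwre']
    linarith
  have hs2re : 0 < s2.re := by
    rw [hs2, es2]
    simp only [Complex.sub_re, Complex.one_re, hwre]
    linarith
  have hs1im : s1.im = w'.im := by
    rw [hs1, es1]
    simp
  have hs2im : s2.im = -w.im := by
    rw [hs2, es2]
    simp
  have hs1ne : s1 ≠ 1 := by
    intro h0
    rw [h0, Complex.one_im] at hs1im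
    linarith [hi2.2.1]
  have hs2ne : s2 ≠ 1 := by
    intro h0
    rw [h0, Complex.one_im] at hs2im
    linarith [hi1.2.1]
  have hu1 : ZZ (k' + 1) α s1 = conj (AA w') ^ (k' + 1) * conj (EP α w') / s1 := by
    rw [hs1, es1, ZZ_conj, fe1, map_div₀, map_mul, map_pow]
  have hu2 : ZZ (k' + 1) α s2 = AA w ^ (k' + 1) * EP α w / s2 := by
    rw [hs2, es2, fe2]
  have hG1 : G s1 = ZZ (k' + 1) α s1 - RR P s1 := by
    rw [hG s1 hs1re hs1ne]
    ring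
  have hG2 : G s2 = ZZ (k' + 1) α s2 - RR P s2 := by
    rw [hG s2 hs2re hs2ne]
    ring
  have hD : s1 * s2 = ((τ : ℂ) + z / 2) ^ 2 + (t : ℂ) ^ 2 := by
    rw [hs1, hs2]
    have := Complex.I_sq
    linear_combination (-(t : ℂ) ^ 2) * this
  have hτ0 : 0 ≤ τ ∧ τ ≤ 1 / 2 := ⟨by linarith, by linarith⟩
  have hsn : ‖((τ : ℂ) + z / 2) ^ 2‖ ≤ (1 + Y) ^ 2 := by
    rw [norm_pow]
    refine pow_le_pow_left₀ (norm_nonneg _) ?_ 2
    have h1 := Complex.norm_le_abs_re_add_abs_im z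
    have h2 : ‖(τ : ℂ) + z / 2‖ ≤ τ + ‖z‖ / 2 := by
      refine (norm_add_le _ _).trans (le_of_eq ?_)
      rw [Complex.norm_real, Real.norm_of_nonneg hτ0.1, norm_div]
      simp
    rw [abs_of_nonneg hz0] at h1
    linarith
  have hc : (2 * b.re - 1) * ((k' : ℝ) + 1) ≤ 1 := by
    rw [hbre]
    have hK' : (k' : ℝ) + 1 = K := by rw [hK]; push_cast; rfl
    rw [hK']
    have h3 : (2 * (1 / 2 + 1 / (2 * K) - z.re / 2) - 1) * K = 1 - z.re * K := by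
      field_simp
      ring
    rw [h3]
    have : 0 ≤ z.re * K := mul_nonneg hz0 hk0.le
    linarith
  have hm : ‖((t / (2 * Real.pi) : ℝ) : ℂ) ^ (2 * b - 1)‖ ≤ t ^ (2 * b.re - 1) := by
    have hp : 0 < t / (2 * Real.pi) := by positivity
    rw [Complex.norm_cpow_eq_rpow_re_of_pos hp]
    have e1 : (2 * b - 1).re = 2 * b.re - 1 := by simp
    rw [e1]
    refine Real.rpow_le_rpow hp.le ?_ (by linarith)
    refine div_le_self ht0.le ?_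
    linarith [Real.pi_gt_three]
  have hgam1 := hgam b t hb0 hb1 hbi (by linarith)
  rw [← hw, ← hw'] at hgam1
  have hquot := quot_le (k := k') (q := conj (AA w') * AA w) (m := ((t / (2 * Real.pi) : ℝ) : ℂ) ^ (2 * b - 1)) (D := s1 * s2)
    (s2 := ((τ : ℂ) + z / 2) ^ 2) (S := (1 + Y) ^ 2) hC (by positivity) ht1 hc hm
    (by
      refine hgam1.trans (le_of_eq ?_)
      congr 2
      ring) hD hsn (by
      calc 2 * (1 + Y) ^ 2 ≤ (2 * (1 + Y)) ^ 2 := by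
            have : 0 ≤ (1 + Y) ^ 2 := sq_nonneg _
            rw [mul_pow]
            linarith
        _ ≤ t ^ 2 := pow_le_pow_left₀ (by linarith) (by linarith) 2)
  have hAA : ∀ v : ℂ, v.re = b.re → t₀ ≤ v.im → v.im ≤ 2 * t → (‖AA v‖ ^ 2) ^ (k' + 1) ≤ (1 + C) ^ (k' + 1) * (2 * t) := by
    intro v hv h1 h2
    have h3 := AA_up hC ht₀ (by linarith : (1 : ℝ) / 2 ≤ 1 / 2 + 1 / (4 * K))
      (fun b t h1 h2 h3 h4 => hgam b t h1 h2 (h3.trans hY) h4) (w := v) (by rw [hv]; exact hb0) (by rw [hv]; exact hb1) h1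
    rw [hv] at h3
    have hv0 : 0 < v.im := by linarith
    have h4 : v.im ^ (2 * b.re - 1) ≤ (2 * t) ^ (2 * b.re - 1) := Real.rpow_le_rpow hv0.le h2 (by linarith)
    calc (‖AA v‖ ^ 2) ^ (k' + 1) ≤ ((1 + C) * (2 * t) ^ (2 * b.re - 1)) ^ (k' + 1) := by
          refine pow_le_pow_left₀ (sq_nonneg _) (h3.trans ?_) _
          exact mul_le_mul_of_nonneg_left h4 (by linarith)
      _ = (1 + C) ^ (k' + 1) * (2 * t) ^ ((2 * b.re - 1) * ((k' : ℝ) + 1)) := by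
          rw [mul_pow, ← Real.rpow_natCast ((2 * t) ^ (2 * b.re - 1)), ← Real.rpow_mul (by positivity)]
          push_cast
          rfl
      _ ≤ (1 + C) ^ (k' + 1) * (2 * t) ^ (1 : ℝ) := by
          gcongr
          linarith
      _ = _ := by rw [Real.rpow_one]
  have hub : ∀ (v e s : ℂ), v.re = b.re → t₀ ≤ v.im → v.im ≤ 2 * t → t / 2 ≤ ‖s‖ → ∀ c : ℂ, ‖c‖ = ‖AA v‖ →
      ‖c ^ (k' + 1) * e / s‖ ^ 2 ≤ 8 * (1 + C) ^ (k' + 1) * ‖e‖ ^ 2 / t := by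
    intro v e s hv h1 h2 h3 c hc
    rw [norm_div, norm_mul, norm_pow, hc, div_pow, mul_pow, ← pow_mul, mul_comm (k' + 1) 2, pow_mul]
    have hs0 : 0 < ‖s‖ := by linarith
    rw [div_le_div_iff₀ (by positivity) ht0]
    have h5 := hAA v hv h1 h2
    have h6 : t ^ 2 / 4 ≤ ‖s‖ ^ 2 := by
      calc t ^ 2 / 4 = (t / 2) ^ 2 := by ring
        _ ≤ ‖s‖ ^ 2 := pow_le_pow_left₀ (by linarith) h3 2
    calc (‖AA v‖ ^ 2) ^ (k' + 1) * ‖e‖ ^ 2 * t ≤ ((1 + C) ^ (k' + 1) * (2 * t)) * ‖e‖ ^ 2 * t := by gcongr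
      _ = 8 * (1 + C) ^ (k' + 1) * ‖e‖ ^ 2 * (t ^ 2 / 4) := by ring
      _ ≤ _ := by gcongr
  have hn1 : t / 2 ≤ ‖s1‖ := by
    have := Complex.abs_im_le_norm s1
    rw [hs1im] at this
    exact hi2.2.1.trans ((le_abs_self _).trans this)
  have hn2 : t / 2 ≤ ‖s2‖ := by
    have := Complex.abs_im_le_norm s2
    rw [hs2im, abs_neg] at this
    exact hi1.2.1.trans ((le_abs_self _).trans this)
  have hrr : ∀ s : ℂ, t / 2 ≤ |s.im| → ‖RR P s‖ ≤ 2 * R / t := by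
    intro s hs
    refine (hRR s (by linarith)).trans ?_
    have : 0 < |s.im| := by linarith
    rw [div_le_div_iff₀ this ht0]
    calc R * t = 2 * R * (t / 2) := by ring
      _ ≤ 2 * R * |s.im| := mul_le_mul_of_nonneg_left hs (by positivity)
  have hy : 1 ≤ Real.sqrt t := Real.one_le_sqrt.2 ht1
  have g1 : ZZ (k' + 1) α s1 * ZZ (k' + 1) α s2 = (conj (AA w') * AA w) ^ (k' + 1) * (conj (EP α w') * EP α w) / (s1 * s2) := by
    rw [hu1, hu2, mul_pow, div_mul_div_comm]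
    congr 1
    ring
  have g2 : ‖conj (EP α w') * EP α w‖ ≤ ‖EP α w'‖ * ‖EP α w‖ := by rw [norm_mul, RCLike.norm_conj]
  have g3 : ‖ZZ (k' + 1) α s1‖ ^ 2 ≤ 8 * (1 + C) ^ (k' + 1) * ‖EP α w'‖ ^ 2 / t := by
    have h7 := hub w' (conj (EP α w')) s1 hwre' hi2.1 hi2.2.2 hn1 (conj (AA w')) (RCLike.norm_conj _)
    rw [hu1]
    rwa [RCLike.norm_conj] at h7
  have g4 : ‖ZZ (k' + 1) α s2‖ ^ 2 ≤ 8 * (1 + C) ^ (k' + 1) * ‖EP α w‖ ^ 2 / t := by
    rw [hu2]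
    exact hub w (EP α w) s2 hwre hi1.1 hi1.2.2 hn2 (AA w) rfl
  have g5 : ‖RR P s1‖ ≤ 2 * R / t := hrr s1 (by rw [hs1im]; exact hi2.2.1.trans (le_abs_self _))
  have g6 : ‖RR P s2‖ ≤ 2 * R / t := hrr s2 (by rw [hs2im, abs_neg]; exact hi1.2.1.trans (le_abs_self _))
  have hA0 : 0 ≤ 2 * ((k' : ℝ) + 1) * (1 + C) ^ k' * C + 2 * (1 + Y) ^ 2 := by positivity
  have hB0 : 0 ≤ 8 * (1 + C) ^ (k' + 1) := by positivity
  have hR0 : 0 ≤ 2 * R := by positivity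
  have hfin := alg hy (Real.sq_sqrt ht0.le).symm hA0 hB0 hR0 g1 hquot g2 (norm_nonneg _) (norm_nonneg _) g3 g4 g5 g6
  rw [main_eq (by omega : 0 < k' + 1) (by rw [hb, hτ]) ht0] at hfin
  rw [← hs1, ← hs2, hG1, hG2, ← hb, ← hw, ← hw']
  exact hfin

end

end Pool.Agent.J4H38.GSX
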