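import Pool.Agent.J4H38.GSX.E7
import Pool.Agent.J4H38.GS.Stm5

/-!
# Project GS5: the data for one shift vector
-/

set_option autoImplicit false

open MeasureTheory Set Filter Polynomial Topology
open scoped ComplexConjugate

namespace Pool.Agent.J4H38.GSX

open Pool.Agent.J4H38.GS

noncomputable section

theorem gg_trans' {k : ℕ} {α : Fin k → ℝ} (P : ℂ[X]) {G : ℂ → ℂ}
    (hm : Measurable (fun x => (cnt k α x : ℝ)))
    (hb : ∃ C : ℝ, 0 ≤ C ∧ ∀ x : ℝ, 1 ≤ x → (cnt k α x : ℝ) ≤ C * x ^ (3 / 2 : ℝ))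
    (ht : ∀ s : ℂ, 3 / 2 < s.re →
      ∫ u in Ioi (0 : ℝ), (cnt k α (Real.exp u) : ℂ) * Complex.exp (-s * u) = ZZ k α s)
    (hPM : S_PM) (hG : ∀ s : ℂ, 0 < s.re → s ≠ 1 → ZZ k α s = G s + RR P s) {s : ℂ} (hs : 3 / 2 < s.re) :
    ∫ u in Ioi (0 : ℝ), gg k α P u * Complex.exp (-s * u) = G s := by
  obtain ⟨hP1, hP2⟩ := hPM P s (by linarith)
  have hne : s ≠ 1 := fun h => by
    rw [h] at hs
    norm_num at hs
  have h1 := ht s hs
  have h2 := hG s (by linarith) hne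
  obtain ⟨C, hC, h⟩ := hb
  have hi : IntegrableOn (fun u : ℝ => (cnt k α (Real.exp u) : ℂ) * Complex.exp (-s * u)) (Ioi 0) := by
    refine Integrable.mono' ((expint (show (0 : ℝ) < s.re - 3 / 2 by linarith)).const_mul C) ?_ ?_
    · have h3 : Measurable (fun u : ℝ => (cnt k α (Real.exp u) : ℂ)) := by
        have : (fun u : ℝ => (cnt k α (Real.exp u) : ℂ)) =
            fun u : ℝ => (((cnt k α (Real.exp u) : ℝ)) : ℂ) := by
          funext u
          simp
        rw [this]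
        exact Complex.measurable_ofReal.comp (hm.comp Real.measurable_exp)
      have h4 : Continuous (fun u : ℝ => Complex.exp (-s * u)) := by fun_prop
      exact (h3.mul h4.measurable).aestronglyMeasurable
    · filter_upwards [ae_restrict_mem measurableSet_Ioi] with u hu
      have hu' : (0 : ℝ) < u := hu
      rw [norm_mul, Complex.norm_natCast, Complex.norm_exp]
      have e1 : (-s * u).re = -s.re * u := by
        rw [Complex.mul_re, Complex.neg_re]
        simp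
      rw [e1]
      calc (cnt k α (Real.exp u) : ℝ) * Real.exp (-s.re * u) ≤
            (C * Real.exp u ^ (3 / 2 : ℝ)) * Real.exp (-s.re * u) := by
              gcongr
              exact h _ (Real.one_le_exp hu'.le)
        _ = C * Real.exp (-(s.re - 3 / 2) * u) := by
              rw [← Real.exp_mul, mul_assoc, ← Real.exp_add]
              congr 2
              ring
  have h3 : ∫ u in Ioi (0 : ℝ), gg k α P u * Complex.exp (-s * u) =
      ∫ u in Ioi (0 : ℝ), ((cnt k α (Real.exp u) : ℂ) * Complex.exp (-s * u) -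
        (Real.exp u : ℂ) * P.eval (u : ℂ) * Complex.exp (-s * u)) := by
    apply setIntegral_congr_fun measurableSet_Ioi
    intro u hu
    have hu' : (0 : ℝ) < u := hu
    simp only [gg, if_neg (not_lt.2 hu'.le)]
    ring
  rw [h3, integral_sub hi hP1, h1, hP2, h2]
  ring

/-- weighted finiteness is monotone in the exponent -/
theorem fin_mono {g : ℝ → ℂ} {σ σ' : ℝ} (h : σ ≤ σ')
    (hf : ∫⁻ u in Ioi (0 : ℝ), ‖g u‖ₑ ^ 2 * ENNReal.ofReal (Real.exp (-2 * σ * u)) < ⊤) :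
    ∫⁻ u in Ioi (0 : ℝ), ‖g u‖ₑ ^ 2 * ENNReal.ofReal (Real.exp (-2 * σ' * u)) < ⊤ := by
  refine lt_of_le_of_lt (setLIntegral_mono' measurableSet_Ioi fun u hu => ?_) hf
  have hu' : (0 : ℝ) < u := hu
  refine mul_le_mul_right ?_ _
  exact ENNReal.ofReal_le_ofReal (Real.exp_le_exp.2 (by nlinarith))

/-- the data for one shift vector -/
theorem core2 (hDAN : S_DAN) (hTR : S_TR) (hPP : S_PP) (hPM : S_PM) {K : ℕ} (hK : 1 ≤ K) {β : Fin K → ℝ}
    (hcube : β ∈ cube K)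
    (hβ : ∀ n : ℕ, ∫⁻ t in {t : ℝ | 1 ≤ |t|}, ‖ZZ K β (sg K n + t * Complex.I)‖ₑ ^ 2 < ⊤) :
    ∃ (P : ℂ[X]) (G : ℂ → ℂ), P.degree < (K : WithBot ℕ) ∧ DifferentiableOn ℂ G {s : ℂ | 0 < s.re} ∧
      (∀ s : ℂ, 0 < s.re → s ≠ 1 → ZZ K β s = G s + RR P s) ∧ Measurable (gg K β P) ∧
      (∃ A : ℝ, 0 ≤ A ∧ ∀ u : ℝ, 0 ≤ u → ‖gg K β P u‖ ≤ A * Real.exp (7 / 4 * u)) ∧
      (∀ s : ℂ, 3 / 2 < s.re → ∫ u in Ioi (0 : ℝ), gg K β P u * Complex.exp (-s * u) = G s) ∧
      ∀ σ : ℝ, ((K : ℝ) - 1) / (2 * K) < σ →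
        ∫⁻ u in Ioi (0 : ℝ), ‖gg K β P u‖ₑ ^ 2 * ENNReal.ofReal (Real.exp (-2 * σ * u)) < ⊤ := by
  have hk0 : (0 : ℝ) < K := by
    have : 0 < K := hK
    exact_mod_cast this
  have hcube' : ∀ i, 0 ≤ β i ∧ β i < 1 := fun i => hcube i (mem_univ i)
  obtain ⟨hm, hb, ht⟩ := hTR K β hcube
  obtain ⟨P, G, hdeg, hd, hG, hgr⟩ := hPP K (fun i => DD (β i)) hK
    (fun i => (hDAN (β i) (hcube' i).1 (hcube' i).2).1)
    (fun i s hs => (hDAN (β i) (hcube' i).1 (hcube' i).2).2 s hs)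
  obtain ⟨A, hA, hA'⟩ := gg_le P hb
  refine ⟨P, G, hdeg, hd, hG, gg_meas P hm, ⟨A, hA, hA'⟩, fun s hs => gg_trans' P hm hb ht hPM hG hs, fun σ hσ => ?_⟩
  obtain ⟨n, hn⟩ : ∃ n : ℕ, sg K n < σ := by
    have h1 : Tendsto (fun n : ℕ => sg K n) atTop (𝓝 (((K : ℝ) - 1) / (2 * K) + 1 / (2 * K) * 0)) := by
      refine Tendsto.const_add _ (Tendsto.const_mul _ ?_)
      refine Tendsto.div_atTop tendsto_const_nhds ?_
      exact tendsto_atTop_add_const_right _ _ tendsto_natCast_atTop_atTop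
    rw [mul_zero, add_zero] at h1
    exact (h1.eventually (gt_mem_nhds hσ)).exists
  obtain ⟨hs0, hs, hs1⟩ := sg_lt hK n
  obtain ⟨C, m, hC, hCm⟩ := hgr (sg K n) hs
  refine fin_mono hn.le ?_
  refine t_MS2 (gg K β P) G (sg K n) 2 (7 / 4) A C m hs (by linarith) (by norm_num)
    (gg_meas P hm) (gg_cont (fun i => (hcube' i).1) P) (fun u hu => by rw [gg, if_pos hu]) hA' hd
    (fun s h1 h2 => hCm s h1 (by linarith)) (fun t => ?_) (G_L2 P hs hs1 hd hG (hβ n))
  exact gg_trans P hm hb ht hPM hG t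

/-- a real polynomial in `L²(0, ∞)` with a growing weight is zero -/
theorem poly_zero (R : ℝ[X]) (h : ∫⁻ u in Ioi (0 : ℝ), ENNReal.ofReal ((R.eval u) ^ 2) < ⊤) : R = 0 := by
  by_contra hR
  have key : ∃ c U : ℝ, 0 < c ∧ 0 ≤ U ∧ ∀ u : ℝ, U ≤ u → c ≤ (R.eval u) ^ 2 := by
    rcases lt_or_ge 0 R.degree with hd | hd
    · have h1 := (R.abs_tendsto_atTop hd).eventually_ge_atTop 1
      obtain ⟨U, hU⟩ := h1.exists_forall_of_atTop
      refine ⟨1, max U 0, one_pos, le_max_right _ _, fun u hu => ?_⟩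
      have h2 := hU u ((le_max_left _ _).trans hu)
      rw [← sq_abs]
      nlinarith
    · obtain ⟨a, rfl⟩ : ∃ a, R = C a := ⟨_, eq_C_of_degree_le_zero hd⟩
      have ha : a ≠ 0 := fun h0 => hR (by rw [h0, C_0])
      exact ⟨a ^ 2, 0, by positivity, le_rfl, fun u _ => by rw [eval_C]⟩
  obtain ⟨c, U, hc, hU, hcU⟩ := key
  have h1 : ∫⁻ u in Ioi U, ENNReal.ofReal c ≤ ∫⁻ u in Ioi (0 : ℝ), ENNReal.ofReal ((R.eval u) ^ 2) := by
    refine le_trans (setLIntegral_mono' measurableSet_Ioi fun u hu => ?_) (lintegral_mono_set (Ioi_subset_Ioi hU))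
    exact ENNReal.ofReal_le_ofReal (hcU u (le_of_lt hu))
  rw [setLIntegral_const, Real.volume_Ioi, ENNReal.mul_top (by simpa using hc)] at h1
  exact absurd h (not_lt.2 h1)

/-- the imaginary part of the polynomial vanishes -/
theorem real_P {k : ℕ} {α : Fin k → ℝ} {P : ℂ[X]} {σ : ℝ} (hσ : σ ≤ 1)
    (h : ∫⁻ u in Ioi (0 : ℝ), ‖gg k α P u‖ₑ ^ 2 * ENNReal.ofReal (Real.exp (-2 * σ * u)) < ⊤) :
    ∃ Q : ℝ[X], P = cp Q ∧ Q.degree ≤ P.degree := by
  obtain ⟨Q, hQ⟩ : ∃ Q : ℝ[X], ∀ j, Q.coeff j = (P.coeff j).re := by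
    refine ⟨P.sum fun j p => monomial j p.re, fun j => ?_⟩
    rw [Polynomial.sum, finsetSum_coeff]
    by_cases hj : j ∈ P.support
    · rw [Finset.sum_eq_single_of_mem j hj]
      · simp
      · intro i _ hi
        rw [coeff_monomial, if_neg hi]
    · rw [Finset.sum_eq_zero, notMem_support_iff.1 hj]
      · simp
      · intro i hi
        have : i ≠ j := fun h => hj (h ▸ hi)
        rw [coeff_monomial, if_neg this]
  obtain ⟨R, hR⟩ : ∃ R : ℝ[X], ∀ j, R.coeff j = (P.coeff j).im := by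
    refine ⟨P.sum fun j p => monomial j p.im, fun j => ?_⟩
    rw [Polynomial.sum, finsetSum_coeff]
    by_cases hj : j ∈ P.support
    · rw [Finset.sum_eq_single_of_mem j hj]
      · simp
      · intro i _ hi
        rw [coeff_monomial, if_neg hi]
    · rw [Finset.sum_eq_zero, notMem_support_iff.1 hj]
      · simp
      · intro i hi
        have : i ≠ j := fun h => hj (h ▸ hi)
        rw [coeff_monomial, if_neg this]
  have hPQR : P = cp Q + C Complex.I * cp R := by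
    ext j
    rw [coeff_add, coeff_C_mul, cp, cp, coeff_map, coeff_map, hQ, hR]
    apply Complex.ext <;> simp
  have hev : ∀ u : ℝ, (P.eval (u : ℂ)).im = R.eval u := by
    intro u
    rw [hPQR, eval_add, eval_mul, eval_C, cp_eval, cp_eval]
    simp
  have hR0 : R = 0 := by
    refine poly_zero R (lt_of_le_of_lt (setLIntegral_mono' measurableSet_Ioi fun u hu => ?_) h)
    have hu' : (0 : ℝ) < u := hu
    rw [← ofReal_norm, ← ENNReal.ofReal_pow (norm_nonneg _), ← ENNReal.ofReal_mul (by positivity)]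
    apply ENNReal.ofReal_le_ofReal
    have e1 : (gg k α P u).im = -(Real.exp u * R.eval u) := by
      rw [gg, if_neg (not_lt.2 hu'.le), Complex.sub_im, Complex.im_ofReal_mul, hev]
      simp
    have e2 : (Real.exp u * R.eval u) ^ 2 ≤ ‖gg k α P u‖ ^ 2 := by
      have := Complex.abs_im_le_norm (gg k α P u)
      rw [e1, abs_neg] at this
      rw [← sq_abs]
      exact pow_le_pow_left₀ (abs_nonneg _) this 2
    have e3 : (1 : ℝ) ≤ Real.exp u ^ 2 * Real.exp (-2 * σ * u) := by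
      rw [← Real.exp_nat_mul, ← Real.exp_add]
      apply Real.one_le_exp
      push_cast
      nlinarith
    calc R.eval u ^ 2 = 1 * R.eval u ^ 2 := by ring
      _ ≤ (Real.exp u ^ 2 * Real.exp (-2 * σ * u)) * R.eval u ^ 2 := by gcongr
      _ = (Real.exp u * R.eval u) ^ 2 * Real.exp (-2 * σ * u) := by ring
      _ ≤ _ := by gcongr
  refine ⟨Q, ?_, ?_⟩
  · rw [hPQR, hR0]
    simp [cp]
  · rw [degree_le_iff_coeff_zero]
    intro m hm
    rw [hQ, coeff_eq_zero_of_degree_lt hm, Complex.zero_re]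

end

end Pool.Agent.J4H38.GSX
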