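import Pool.Agent.J4H38.GSX.Asm
import Pool.Agent.J4H38.GS.Stm3

/-!
# Project GS (E7): from a mean square bound of the remainder to the mean square on the line
(adapted from `J4H77/PE/{Pl,Beta,Cont2}.lean`)
-/

set_option autoImplicit false

open MeasureTheory Set Filter Polynomial Topology
open scoped FourierTransform

namespace Pool.Agent.J4H38.GSX

open Pool.Agent.J4H38.GS

noncomputable section

/-- the real polynomial as a complex one -/
def cp (Q : ℝ[X]) : ℂ[X] := Q.map Complex.ofRealHom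

lemma cp_eval (Q : ℝ[X]) (u : ℝ) : (cp Q).eval (u : ℂ) = ((Q.eval u : ℝ) : ℂ) := by
  unfold cp
  rw [Polynomial.eval_map]
  exact Polynomial.eval₂_at_apply Complex.ofRealHom u

lemma gg_sq {k : ℕ} {β : Fin k → ℝ} (Q : ℝ[X]) {u : ℝ} (hu : 0 ≤ u) :
    ‖gg k β (cp Q) u‖ ^ 2 = ((cnt k β (Real.exp u) : ℝ) - Real.exp u * Q.eval u) ^ 2 := by
  rw [gg, if_neg (not_lt.2 hu), cp_eval]
  have e : (cnt k β (Real.exp u) : ℂ) - (Real.exp u : ℂ) * ((Q.eval u : ℝ) : ℂ) =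
      (((cnt k β (Real.exp u) : ℝ) - Real.exp u * Q.eval u : ℝ) : ℂ) := by
    push_cast
    ring
  rw [e, Complex.norm_real, Real.norm_eq_abs, sq_abs]

/-- integrability of the square of the remainder -/
lemma err_int {k : ℕ} {β : Fin k → ℝ} (hβ : ∀ i, 0 ≤ β i) (Q : ℝ[X]) {X : ℝ} (hX : 1 ≤ X) :
    IntervalIntegrable (fun x => ((cnt k β x : ℝ) - x * Q.eval (Real.log x)) ^ 2) volume 1 X := by
  have hm : Monotone (fun x => (cnt k β x : ℝ)) := fun x y h => by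
    have := cnt_mono hβ h
    show (cnt k β x : ℝ) ≤ (cnt k β y : ℝ)
    exact_mod_cast this
  have hm2 : Monotone (fun x => (cnt k β x : ℝ) ^ 2) := fun x y h => by
    have := hm h
    show (cnt k β x : ℝ) ^ 2 ≤ (cnt k β y : ℝ) ^ 2
    exact pow_le_pow_left₀ (Nat.cast_nonneg _) this 2
  have hc : ContinuousOn (fun x : ℝ => x * Q.eval (Real.log x)) (Set.uIcc 1 X) := by
    refine continuousOn_id.mul (Q.continuous.comp_continuousOn (Real.continuousOn_log.mono ?_))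
    intro x hx
    rw [Set.uIcc_of_le hX] at hx
    have : (0 : ℝ) < x := by linarith [hx.1]
    exact this.ne'
  have h1 := hm2.intervalIntegrable (μ := volume) (a := 1) (b := X)
  have h2 := (hm.intervalIntegrable (μ := volume) (a := 1) (b := X)).mul_continuousOn hc
  have h3 := (hc.pow 2).intervalIntegrable (μ := volume)
  refine ((h1.sub (h2.const_mul 2)).add h3).congr ?_
  intro x _
  simp only [Pi.pow_apply]
  ring

/-- change of variables -/
lemma cov {k : ℕ} {β : Fin k → ℝ} (hβ : ∀ i, 0 ≤ β i) (Q : ℝ[X]) {U : ℝ} (hU : 0 ≤ U) :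
    ∫⁻ u in Ioc 0 U, ENNReal.ofReal (Real.exp u * ‖gg k β (cp Q) u‖ ^ 2) =
      ENNReal.ofReal (∫ x in (1 : ℝ)..(Real.exp U), ((cnt k β x : ℝ) - x * Q.eval (Real.log x)) ^ 2) := by
  have hX : 1 ≤ Real.exp U := Real.one_le_exp hU
  have himg : Real.exp '' Ioc 0 U = Ioc 1 (Real.exp U) := by
    ext x
    constructor
    · rintro ⟨u, hu, rfl⟩
      exact ⟨Real.one_lt_exp_iff.2 hu.1, Real.exp_le_exp.2 hu.2⟩
    · rintro ⟨h1, h2⟩
      refine ⟨Real.log x, ⟨Real.log_pos h1, ?_⟩, Real.exp_log (by linarith)⟩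
      rw [← Real.log_exp U]
      exact Real.log_le_log (by linarith) h2
  have hi := err_int hβ Q hX
  rw [intervalIntegrable_iff_integrableOn_Ioc_of_le hX] at hi
  rw [intervalIntegral.integral_of_le hX, ofReal_integral_eq_lintegral_ofReal hi
    (Eventually.of_forall fun _ => sq_nonneg _), ← himg,
    lintegral_image_eq_lintegral_abs_deriv_mul measurableSet_Ioc
      (fun u _ => (Real.hasDerivAt_exp u).hasDerivWithinAt) (Real.exp_injective.injOn)]
  refine setLIntegral_congr_fun measurableSet_Ioc fun u hu => ?_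
  rw [abs_of_pos (Real.exp_pos u), ← ENNReal.ofReal_mul (Real.exp_pos u).le, gg_sq Q hu.1.le, Real.log_exp]

lemma fs_sq' {g : ℝ → ℂ} (σ u : ℝ) :
    ‖fs g σ u‖ₑ ^ 2 = ENNReal.ofReal (Real.exp (-(1 + 2 * σ) * u)) * ENNReal.ofReal (Real.exp u * ‖g u‖ ^ 2) := by
  rw [← ENNReal.ofReal_mul (Real.exp_pos _).le, ← ofReal_norm, fs_norm, ← ENNReal.ofReal_pow (by positivity)]
  congr 1
  have h : Real.exp (-(1 + 2 * σ) * u) * Real.exp u = Real.exp ((2 : ℕ) * (-σ * u)) := by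
    rw [← Real.exp_add]
    congr 1
    push_cast
    ring
  rw [← mul_assoc, h, Real.exp_nat_mul]
  ring

/-- from the mean square to the weighted mean square -/
theorem L2_of_beta {k : ℕ} {β : Fin k → ℝ} (hβ : ∀ i, 0 ≤ β i) (Q : ℝ[X]) {b σ A : ℝ} (hbσ : b < σ)
    (hA : ∀ X : ℝ, 1 ≤ X → ∫ x in (1 : ℝ)..X, ((cnt k β x : ℝ) - x * Q.eval (Real.log x)) ^ 2 ≤ A * X ^ (1 + 2 * b))
    (hσ : 0 ≤ σ) : ∫⁻ u : ℝ, ‖fs (gg k β (cp Q)) σ u‖ₑ ^ 2 < ⊤ := by
  have hA0 : 0 ≤ A := by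
    have := hA 1 le_rfl
    simpa using this
  obtain ⟨g, hg⟩ : ∃ g, g = gg k β (cp Q) := ⟨_, rfl⟩
  rw [← hg]
  have hg0 : ∀ u : ℝ, u < 0 → g u = 0 := fun u hu => by rw [hg, gg, if_pos hu]
  have hsub : (Ioi (0 : ℝ)) ⊆ ⋃ n : ℕ, Ioc (n : ℝ) (n + 1) := by
    intro u hu
    have hu' : (0 : ℝ) < u := hu
    rw [mem_iUnion]
    refine ⟨⌈u⌉₊ - 1, ?_⟩
    have h1 : 1 ≤ ⌈u⌉₊ := Nat.one_le_iff_ne_zero.2 (Nat.ceil_pos.2 hu').ne'
    rw [Nat.cast_sub h1]
    have h2 := Nat.ceil_lt_add_one hu'.le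
    have h3 := Nat.le_ceil u
    constructor
    · push_cast
      linarith
    · push_cast
      linarith
  have h1 : ∫⁻ u : ℝ, ‖fs g σ u‖ₑ ^ 2 = ∫⁻ u in Ioi (0 : ℝ), ‖fs g σ u‖ₑ ^ 2 := by
    rw [← lintegral_indicator measurableSet_Ioi]
    apply lintegral_congr_ae
    filter_upwards [ne_zero_ae] with u hu
    rcases lt_or_gt_of_ne hu with h | h
    · rw [indicator_of_notMem (by simpa using h.le)]
      simp only [fs, hg0 u h]
      simp
    · rw [indicator_of_mem (by exact h)]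
  have h2 : ∀ n : ℕ, ∫⁻ u in Ioc (n : ℝ) (n + 1), ‖fs g σ u‖ₑ ^ 2 ≤
      ENNReal.ofReal (A * Real.exp (1 + 2 * b) * Real.exp (-(2 * (σ - b))) ^ n) := by
    intro n
    have hx : 1 ≤ Real.exp ((n : ℝ) + 1) := Real.one_le_exp (by positivity)
    calc ∫⁻ u in Ioc (n : ℝ) (n + 1), ‖fs g σ u‖ₑ ^ 2 ≤
        ∫⁻ u in Ioc (n : ℝ) (n + 1), ENNReal.ofReal (Real.exp (-(1 + 2 * σ) * n)) * ENNReal.ofReal (Real.exp u * ‖g u‖ ^ 2) := by
          apply setLIntegral_mono' measurableSet_Ioc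
          intro u hu
          rw [fs_sq']
          gcongr ENNReal.ofReal (Real.exp ?_) * _
          have := hu.1
          nlinarith
      _ = ENNReal.ofReal (Real.exp (-(1 + 2 * σ) * n)) * ∫⁻ u in Ioc (n : ℝ) (n + 1), ENNReal.ofReal (Real.exp u * ‖g u‖ ^ 2) := by
          rw [lintegral_const_mul' _ _ ENNReal.ofReal_ne_top]
      _ ≤ ENNReal.ofReal (Real.exp (-(1 + 2 * σ) * n)) * ∫⁻ u in Ioc (0 : ℝ) (n + 1), ENNReal.ofReal (Real.exp u * ‖g u‖ ^ 2) := by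
          gcongr
          positivity
      _ ≤ ENNReal.ofReal (Real.exp (-(1 + 2 * σ) * n)) * ENNReal.ofReal (A * Real.exp ((n : ℝ) + 1) ^ (1 + 2 * b)) := by
          gcongr
          rw [hg, cov hβ Q (by positivity)]
          exact ENNReal.ofReal_le_ofReal (hA _ hx)
      _ = _ := by
          rw [← ENNReal.ofReal_mul (Real.exp_pos _).le]
          congr 1
          rw [← Real.exp_mul, ← Real.exp_nat_mul]
          calc Real.exp (-(1 + 2 * σ) * n) * (A * Real.exp (((n : ℝ) + 1) * (1 + 2 * b))) =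
              A * (Real.exp (-(1 + 2 * σ) * n) * Real.exp (((n : ℝ) + 1) * (1 + 2 * b))) := by ring
            _ = A * (Real.exp (1 + 2 * b) * Real.exp (n * -(2 * (σ - b)))) := by
                rw [← Real.exp_add, ← Real.exp_add]
                congr 2
                ring
            _ = _ := by ring
  have hr : Real.exp (-(2 * (σ - b))) < 1 := by
    rw [Real.exp_lt_one_iff]
    linarith
  have hs : Summable (fun n : ℕ => A * Real.exp (1 + 2 * b) * Real.exp (-(2 * (σ - b))) ^ n) :=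
    (summable_geometric_of_lt_one (Real.exp_pos _).le hr).mul_left _
  calc ∫⁻ u : ℝ, ‖fs g σ u‖ₑ ^ 2 = ∫⁻ u in Ioi (0 : ℝ), ‖fs g σ u‖ₑ ^ 2 := h1
    _ ≤ ∫⁻ u in ⋃ n : ℕ, Ioc (n : ℝ) (n + 1), ‖fs g σ u‖ₑ ^ 2 := lintegral_mono_set hsub
    _ ≤ ∑' n : ℕ, ∫⁻ u in Ioc (n : ℝ) (n + 1), ‖fs g σ u‖ₑ ^ 2 := lintegral_iUnion_le _ _
    _ ≤ ∑' n : ℕ, ENNReal.ofReal (A * Real.exp (1 + 2 * b) * Real.exp (-(2 * (σ - b))) ^ n) := ENNReal.tsum_le_tsum h2
    _ < ⊤ := by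
        rw [← ENNReal.ofReal_tsum_of_nonneg (fun n => by positivity) hs]
        exact ENNReal.ofReal_lt_top

end

end Pool.Agent.J4H38.GSX
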