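import Pool.Agent.J4H38.GSX.L6

/-! Project GS4: the lower bound for every shift vector. -/

set_option autoImplicit false

open MeasureTheory Set Filter Polynomial Topology

namespace Pool.Agent.J4H38.GSX

open Pool.Agent.J4H38.GS

noncomputable section

theorem t_LOW2 (hDAN : S_DAN) (hL6 : S_L6) (hE7 : S_E7) : S_LOW2 := by
  intro k hk α hcube Q b hb
  have hk0 : (0 : ℝ) < k := by
    have : 0 < k := by omega
    exact_mod_cast this
  have hk2 : (2 : ℝ) ≤ k := by exact_mod_cast hk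
  obtain ⟨τ, hτ⟩ : ∃ τ, τ = ((k : ℝ) - 1) / (2 * k) := ⟨_, rfl⟩
  have hτ0 : 0 < τ := by rw [hτ]; exact div_pos (by linarith) (by positivity)
  have hτ1 : τ < 1 / 2 := by
    rw [hτ, div_lt_div_iff₀ (by positivity) (by norm_num)]
    linarith
  have hτk : (k : ℝ) * (1 - 2 * τ) = 1 := by
    rw [hτ]
    field_simp
    ring
  rintro ⟨C, hC⟩
  rw [← hτ] at hb
  -- choice of the line
  obtain ⟨σ, hs0, hn, hs1⟩ : ∃ σ : ℝ, 0 < σ ∧ b < σ ∧ σ < τ := by
    obtain ⟨σ, h1, h2⟩ := exists_between (max_lt hτ0 hb)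
    exact ⟨σ, (le_max_left _ _).trans_lt h1, (le_max_right _ _).trans_lt h1, h2⟩
  have hfin := hE7 k α Q b σ C (by omega) hcube hs0 (hs1.trans hτ1) hn hC
  set I := ∫⁻ t in {t : ℝ | 1 ≤ |t|}, ‖ZZ k α (ln σ t)‖ₑ ^ 2 with hI
  have hcont : Continuous (fun t : ℝ => ∏ i, (DD (α i) (ln σ (-t)) + 1 / (ln σ (-t) - 1))) :=
    (prod_cont hDAN hcube hs0 (by linarith : σ < 1)).comp continuous_neg
  have hδ : 0 < (k : ℝ) * (1 - 2 * σ) - 1 := by
    have : (k : ℝ) * (1 - 2 * σ) = k * (1 - 2 * τ) + 2 * k * (τ - σ) := by ring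
    rw [this, hτk]
    have : 0 < 2 * (k : ℝ) * (τ - σ) := mul_pos (by positivity) (by linarith)
    linarith
  obtain ⟨c, T₀, hc, hT₀, hmain⟩ := hL6 k α σ hcube hs0 (hs1.trans hτ1)
  obtain ⟨M, hM⟩ := ((tendsto_rpow_atTop hδ).eventually_gt_atTop (5 * I.toReal / c)).exists_forall_of_atTop
  obtain ⟨T, hTd⟩ : ∃ T : ℝ, T = max M T₀ := ⟨_, rfl⟩
  have hMT : M ≤ T := by rw [hTd]; exact le_max_left _ _
  have hT00 : T₀ ≤ T := by rw [hTd]; exact le_max_right _ _
  have hT1 : 1 ≤ T := hT₀.trans hT00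
  have hT := hmain T hT00
  have hT0 : 0 < T := by linarith
  have hbig := hM T hMT
  rw [div_lt_iff₀ hc] at hbig
  have hI2 : ∫⁻ t in {t : ℝ | 1 ≤ |t|}, ‖ZZ k α (ln σ (-t))‖ₑ ^ 2 = I := by
    rw [hI]
    have hm : MeasurableSet {t : ℝ | 1 ≤ |t|} := measurableSet_le measurable_const continuous_abs.measurable
    rw [← lintegral_indicator hm, ← lintegral_indicator hm, ← lintegral_neg_eq_self (μ := volume)]
    refine lintegral_congr fun t => ?_
    by_cases h : 1 ≤ |t|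
    · rw [indicator_of_mem (by simpa using h), indicator_of_mem (by simpa using h), neg_neg]
    · rw [indicator_of_notMem (by simpa using h), indicator_of_notMem (by simpa using h)]
  have key : ENNReal.ofReal (∫ t in T..(2 * T), ‖∏ i, (DD (α i) (ln σ (-t)) + 1 / (ln σ (-t) - 1))‖ ^ 2) ≤
      ENNReal.ofReal (5 * T ^ 2) * I := by
    rw [intervalIntegral.integral_of_le (by linarith), integral_eq_lintegral_of_nonneg_ae
      (Eventually.of_forall (fun _ => sq_nonneg _)) ((hcont.norm.pow 2).aestronglyMeasurable)]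
    refine ENNReal.ofReal_toReal_le.trans ?_
    rw [← hI2, ← lintegral_const_mul' _ _ ENNReal.ofReal_ne_top]
    have hsub : Ioc T (2 * T) ⊆ {t : ℝ | 1 ≤ |t|} := fun t ht => by
      have : 1 ≤ t := hT1.trans ht.1.le
      exact this.trans (le_abs_self t)
    refine le_trans ?_ (lintegral_mono_set hsub)
    refine setLIntegral_mono' measurableSet_Ioc fun t ht => ?_
    have ht0 : 0 < t := hT0.trans ht.1
    have hne : ln σ (-t) ≠ 0 := by
      intro h
      have := congrArg Complex.re h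
      simp [ln] at this
      linarith
    have e1 : ∏ i, (DD (α i) (ln σ (-t)) + 1 / (ln σ (-t) - 1)) = ln σ (-t) * ZZ k α (ln σ (-t)) := by
      unfold ZZ
      field_simp
    have e2 : ‖ln σ (-t)‖ ^ 2 ≤ 5 * T ^ 2 := by
      have h3 : ‖ln σ (-t)‖ ^ 2 = σ ^ 2 + (-t) ^ 2 := by
        rw [ln, ← Complex.normSq_eq_norm_sq, Complex.normSq_add_mul_I]
      have h4 : σ ^ 2 ≤ 1 := by nlinarith
      have h5 : t ^ 2 ≤ (2 * T) ^ 2 := by
        have := ht.2
        gcongr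
      rw [h3, neg_sq]
      nlinarith
    rw [e1, ← ofReal_norm, ← ENNReal.ofReal_pow (norm_nonneg _), ← ENNReal.ofReal_mul (by positivity), norm_mul, mul_pow]
    exact ENNReal.ofReal_le_ofReal (mul_le_mul_of_nonneg_right e2 (by positivity))
  have key2 : ∫ t in T..(2 * T), ‖∏ i, (DD (α i) (ln σ (-t)) + 1 / (ln σ (-t) - 1))‖ ^ 2 ≤ 5 * T ^ 2 * I.toReal := by
    have h6 : ENNReal.ofReal (5 * T ^ 2) * I = ENNReal.ofReal (5 * T ^ 2 * I.toReal) := by
      rw [ENNReal.ofReal_mul (p := 5 * T ^ 2) (by positivity), ENNReal.ofReal_toReal hfin.ne]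
    rw [h6] at key
    exact (ENNReal.ofReal_le_ofReal_iff (by positivity)).1 key
  have h7 : c * T ^ (1 + k * (1 - 2 * σ)) ≤ 5 * T ^ 2 * I.toReal := hT.trans key2
  have h8 : T ^ (1 + k * (1 - 2 * σ)) = T ^ 2 * T ^ ((k : ℝ) * (1 - 2 * σ) - 1) := by
    rw [← Real.rpow_natCast, ← Real.rpow_add hT0]
    congr 1
    push_cast
    ring
  rw [h8] at h7
  have h9 : 0 < T ^ 2 := by positivity
  nlinarith

end

end Pool.Agent.J4H38.GSX
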