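import Pool.Agent.J4H38.GSX.Pol2

/-!
# Project GS6: fourth moment of the partial sums
-/

set_option autoImplicit false

open MeasureTheory Set Filter Polynomial Topology
open scoped ComplexConjugate

namespace Pool.Agent.J4H38.GSX

open Pool.Agent.J4H38.GS

noncomputable section

theorem MN_bd {k : ℕ} (α : Fin k → ℝ) {x : ℝ} (hx : 1 / 2 < x) : ∃ B : ℝ, 0 ≤ B ∧ ∀ (N : ℕ) (b : ℂ), x ≤ b.re → ‖MN N α b‖ ≤ B := by
  obtain ⟨C, hC, hd⟩ := Pool.Agent.J4H57.GS.Dk.t_DK k ((2 * x - 1) / 4) (by linarith)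
  have hs : Summable fun n : ℕ => ((n : ℝ) + 1) ^ (-(2 * x - 2 * ((2 * x - 1) / 4))) :=
    Pool.Agent.J4H57.GS.Dia.summ (by linarith)
  refine ⟨∑' n : ℕ, C ^ 2 * ((n : ℝ) + 1) ^ (-(2 * x - 2 * ((2 * x - 1) / 4))), tsum_nonneg fun n => by positivity,
    fun N b hb => ?_⟩
  rw [Pool.Agent.J4H57.GS.Dia.MN_tsum]
  refine tsum_of_norm_bounded (hs.mul_left (C ^ 2)).hasSum fun n => ?_
  exact Pool.Agent.J4H57.GS.Dia.term_le hC hd (Pool.Agent.J4H57.GS.Dia.abs_gN N α n) hb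

theorem SN_cont' (N : ℕ) (a σ : ℝ) : Continuous (fun t : ℝ => SN N a (σ + t * Complex.I)) := by
  unfold SN
  refine continuous_finsetSum _ fun n hn => ?_
  have hn1 : 1 ≤ n := (Finset.mem_Icc.mp hn).1
  have h0 : (n : ℂ) ≠ 0 := by exact_mod_cast (by omega : n ≠ 0)
  refine continuous_const.mul ?_
  have : (fun t : ℝ => (n : ℂ) ^ (-((σ : ℂ) + t * Complex.I))) = fun t : ℝ => Complex.exp (Complex.log n * (-((σ : ℂ) + t * Complex.I))) := by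
    funext t
    rw [Complex.cpow_def_of_ne_zero h0]
  rw [this]
  fun_prop

theorem mv4 : ∀ σ : ℝ, 1 / 2 < σ → ∃ C : ℝ, 0 ≤ C ∧ ∀ (N : ℕ) (T H : ℝ), 1 ≤ N → 0 ≤ H →
    ∫⁻ t in Icc T (T + H), ‖SN N 0 (σ + t * Complex.I)‖ₑ ^ 4 ≤ ENNReal.ofReal (C * (H + (N : ℝ) ^ 6)) := by
  intro σ hσ
  obtain ⟨B, hB, hMN⟩ := MN_bd (fun _ : Fin 2 => (0 : ℝ)) hσ
  refine ⟨B + 2, by positivity, fun N T H hN hH => ?_⟩
  have hpol := pol_gen hN (fun _ : Fin 2 => (0 : ℝ)) (b := (σ : ℂ)) (by simpa using (by linarith : (0 : ℝ) ≤ σ)) T (T + H)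
  have hm := hMN N (σ : ℂ) (by simp)
  have e1 : ∀ t : ℝ, conj (DN N (fun _ : Fin 2 => (0 : ℝ)) (conj (σ : ℂ) + t * Complex.I)) *
      DN N (fun _ : Fin 2 => (0 : ℝ)) ((σ : ℂ) + t * Complex.I) = ((‖SN N 0 (σ + t * Complex.I)‖ ^ 4 : ℝ) : ℂ) := by
    intro t
    rw [Complex.conj_ofReal, ← Complex.normSq_eq_conj_mul_self, Complex.normSq_eq_norm_sq]
    unfold DN
    rw [Finset.prod_const, Finset.card_univ, Fintype.card_fin, norm_pow, ← pow_mul]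
  have hc : Continuous (fun t : ℝ => ‖SN N 0 (σ + t * Complex.I)‖ ^ 4) := (SN_cont' N 0 σ).norm.pow 4
  have e2 : ∫ t in T..(T + H), conj (DN N (fun _ : Fin 2 => (0 : ℝ)) (conj (σ : ℂ) + t * Complex.I)) *
      DN N (fun _ : Fin 2 => (0 : ℝ)) ((σ : ℂ) + t * Complex.I) =
      ((∫ t in T..(T + H), ‖SN N 0 (σ + t * Complex.I)‖ ^ 4 : ℝ) : ℂ) := by
    rw [← intervalIntegral.integral_ofReal]
    exact intervalIntegral.integral_congr fun t _ => e1 t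
  rw [e2] at hpol
  have e3 : ∫⁻ t in Icc T (T + H), ‖SN N 0 (σ + t * Complex.I)‖ₑ ^ 4 =
      ENNReal.ofReal (∫ t in T..(T + H), ‖SN N 0 (σ + t * Complex.I)‖ ^ 4) := by
    rw [intervalIntegral.integral_of_le (by linarith), ← integral_Icc_eq_integral_Ioc,
      ofReal_integral_eq_lintegral_ofReal (hc.continuousOn.integrableOn_Icc) (ae_of_all _ fun t => by positivity)]
    refine lintegral_congr fun t => ?_
    rw [ENNReal.ofReal_pow (norm_nonneg _), ofReal_norm]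
  rw [e3]
  apply ENNReal.ofReal_le_ofReal
  have h1 : ‖((∫ t in T..(T + H), ‖SN N 0 (σ + t * Complex.I)‖ ^ 4 : ℝ) : ℂ)‖ ≤
      2 * (N : ℝ) ^ (3 * 2) + ‖((T + H - T : ℝ) : ℂ) * MN N (fun _ : Fin 2 => (0 : ℝ)) (σ : ℂ)‖ := by
    have := norm_add_le (((∫ t in T..(T + H), ‖SN N 0 (σ + t * Complex.I)‖ ^ 4 : ℝ) : ℂ) -
      ((T + H - T : ℝ) : ℂ) * MN N (fun _ : Fin 2 => (0 : ℝ)) (σ : ℂ)) (((T + H - T : ℝ) : ℂ) * MN N (fun _ : Fin 2 => (0 : ℝ)) (σ : ℂ))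
    rw [sub_add_cancel] at this
    exact this.trans (add_le_add hpol le_rfl)
  have h2 : ‖((T + H - T : ℝ) : ℂ) * MN N (fun _ : Fin 2 => (0 : ℝ)) (σ : ℂ)‖ ≤ H * B := by
    rw [norm_mul, add_sub_cancel_left, Complex.norm_real, Real.norm_of_nonneg hH]
    exact mul_le_mul_of_nonneg_left hm hH
  have h3 : ∫ t in T..(T + H), ‖SN N 0 (σ + t * Complex.I)‖ ^ 4 ≤
      ‖((∫ t in T..(T + H), ‖SN N 0 (σ + t * Complex.I)‖ ^ 4 : ℝ) : ℂ)‖ := by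
    rw [Complex.norm_real]
    exact Real.le_norm_self _
  have h4 : (0 : ℝ) ≤ (N : ℝ) ^ 6 := by positivity
  have h5 : (N : ℝ) ^ (3 * 2) = (N : ℝ) ^ 6 := by norm_num
  rw [h5] at h1
  nlinarith [mul_nonneg hB h4]

end

end Pool.Agent.J4H38.GSX
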