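import Pool.Agent.J4H57.GS.Pol
import Pool.Agent.J4H57.GS.Dia
import Pool.Agent.J4H57.GS.Dk

/-!
# Project GS6: (POL) for arbitrary intervals (from `J4H57/GS/Pol.lean`)
-/

set_option autoImplicit false

open MeasureTheory Set Filter Polynomial Topology
open scoped ComplexConjugate

namespace Pool.Agent.J4H38.GSX

open Pool.Agent.J4H38.GS Pool.Agent.J4H57.GS

noncomputable section

theorem pol_gen {k N : ℕ} (hN1 : 1 ≤ N) (α : Fin k → ℝ) {b : ℂ} (hb0 : 0 ≤ b.re) (S T : ℝ) :
    ‖(∫ t in S..T, conj (DN N α (conj b + t * Complex.I)) * DN N α (b + t * Complex.I)) - ((T - S : ℝ) : ℂ) * MN N α b‖ ≤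
      2 * (N : ℝ) ^ (3 * k) := by
  have e1 : ∫ t in S..T, conj (DN N α (conj b + t * Complex.I)) * DN N α (b + t * Complex.I) =
      ∑ f ∈ FF k N, ∑ g ∈ FF k N, HH α b f g *
        ∫ t in S..T, Complex.exp (Complex.I * ((lg f - lg g : ℝ) : ℂ) * (t : ℂ)) := by
    simp_rw [integrand]
    have hcont : ∀ d : ℝ, Continuous fun t : ℝ => Complex.exp (Complex.I * (d : ℂ) * (t : ℂ)) := by
      intro d
      fun_prop
    rw [intervalIntegral.integral_finsetSum]
    · refine Finset.sum_congr rfl fun f _ => ?_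
      rw [intervalIntegral.integral_finsetSum]
      · refine Finset.sum_congr rfl fun g _ => ?_
        rw [intervalIntegral.integral_const_mul]
      · intro g _
        exact ((hcont _).const_mul _).intervalIntegrable _ _
    · intro f _
      exact (continuous_finsetSum _ fun g _ => (hcont _).const_mul _).intervalIntegrable _ _
  have e2 : ((T - S : ℝ) : ℂ) * MN N α b =
      ∑ f ∈ FF k N, ∑ g ∈ (FF k N).filter (fun g => ∏ i, g i = ∏ i, f i), HH α b f g *
        ∫ t in S..T, Complex.exp (Complex.I * ((lg f - lg g : ℝ) : ℂ) * (t : ℂ)) := by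
    rw [MN_eq, Finset.mul_sum]
    refine Finset.sum_congr rfl fun f _ => ?_
    rw [Finset.mul_sum]
    refine Finset.sum_congr rfl fun g hg => ?_
    rw [Finset.mem_filter] at hg
    have h1 : lg f - lg g = 0 := by
      unfold lg
      rw [hg.2, sub_self]
    rw [h1]
    simp
    ring
  rw [e1, e2, ← Finset.sum_sub_distrib]
  have e3 : ∀ f ∈ FF k N, (∑ g ∈ FF k N, HH α b f g *
        ∫ t in S..T, Complex.exp (Complex.I * ((lg f - lg g : ℝ) : ℂ) * (t : ℂ))) -
      ∑ g ∈ (FF k N).filter (fun g => ∏ i, g i = ∏ i, f i), HH α b f g *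
        ∫ t in S..T, Complex.exp (Complex.I * ((lg f - lg g : ℝ) : ℂ) * (t : ℂ)) =
      ∑ g ∈ (FF k N).filter (fun g => ¬ ∏ i, g i = ∏ i, f i), HH α b f g *
        ∫ t in S..T, Complex.exp (Complex.I * ((lg f - lg g : ℝ) : ℂ) * (t : ℂ)) := by
    intro f _
    rw [← Finset.sum_filter_add_sum_filter_not (FF k N) (fun g => ∏ i, g i = ∏ i, f i)
      (fun g => HH α b f g *
        ∫ t in S..T, Complex.exp (Complex.I * ((lg f - lg g : ℝ) : ℂ) * (t : ℂ)))]
    ring
  rw [Finset.sum_congr rfl e3]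
  have hNk : (0 : ℝ) < ((N ^ k : ℕ) : ℝ) := by
    exact_mod_cast Nat.pos_of_ne_zero (pow_ne_zero _ (by omega))
  have h4 : ∀ f ∈ FF k N, ‖∑ g ∈ (FF k N).filter (fun g => ¬ ∏ i, g i = ∏ i, f i), HH α b f g *
        ∫ t in S..T, Complex.exp (Complex.I * ((lg f - lg g : ℝ) : ℂ) * (t : ℂ))‖ ≤
      (N ^ k : ℕ) * (2 * (N ^ k : ℕ)) := by
    intro f hf
    refine (norm_sum_le _ _).trans ?_
    have h5 : ∀ g ∈ (FF k N).filter (fun g => ¬ ∏ i, g i = ∏ i, f i), ‖HH α b f g *
        ∫ t in S..T, Complex.exp (Complex.I * ((lg f - lg g : ℝ) : ℂ) * (t : ℂ))‖ ≤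
        2 * (N ^ k : ℕ) := by
      intro g hg
      rw [Finset.mem_filter] at hg
      have h6 := log_diff (prod_pos' hf) (prod_pos' hg.1) (prod_le' hf) (prod_le' hg.1)
        (fun h => hg.2 h.symm)
      have h7 : 0 < |lg f - lg g| := lt_of_lt_of_le (by positivity) h6
      rw [norm_mul]
      calc _ ≤ 1 * (2 / |lg f - lg g|) :=
            mul_le_mul (norm_HH hb0 hf hg.1) (int_le (abs_pos.mp h7)) (norm_nonneg _) zero_le_one
        _ ≤ 2 * (N ^ k : ℕ) := by
          rw [one_mul, div_le_iff₀ h7, mul_assoc]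
          have h8 : 1 ≤ ((N ^ k : ℕ) : ℝ) * |lg f - lg g| := by
            have h9 : 1 / ((N ^ k : ℕ) : ℝ) ≤ |lg f - lg g| := h6
            rw [div_le_iff₀ hNk] at h9
            linarith
          linarith
    refine (Finset.sum_le_sum h5).trans ?_
    rw [Finset.sum_const, nsmul_eq_mul]
    refine mul_le_mul_of_nonneg_right ?_ (by positivity)
    have h6 := Finset.card_filter_le (FF k N) (fun g => ¬ ∏ i, g i = ∏ i, f i)
    rw [card_FF] at h6
    exact_mod_cast h6
  refine (norm_sum_le _ _).trans ((Finset.sum_le_sum h4).trans ?_)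
  rw [Finset.sum_const, nsmul_eq_mul, card_FF]
  have h5 : ((N ^ k : ℕ) : ℝ) * ((N ^ k : ℕ) * (2 * (N ^ k : ℕ))) = 2 * (N : ℝ) ^ (3 * k) := by
    push_cast
    rw [mul_comm 3 k, pow_mul]
    ring
  rw [h5]

end

end Pool.Agent.J4H38.GSX
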