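import Pool.Agent.J4H38.GS.Stm5

/-!
# Project GS5: the constant is a convergent sum
-/

set_option autoImplicit false

open MeasureTheory Set Filter Polynomial Topology
open scoped ComplexConjugate

namespace Pool.Agent.J4H38.GSX

open Pool.Agent.J4H38.GS

noncomputable section

theorem norm_e (r : ℝ) : ‖Complex.exp (2 * Real.pi * Complex.I * (r : ℂ))‖ = 1 := by
  rw [Complex.norm_exp]
  have : (2 * Real.pi * Complex.I * (r : ℂ)).re = 0 := by simp
  rw [this, Real.exp_zero]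

theorem g_le {K : ℕ} (β : Fin K → ℝ) (n : ℕ) : ‖GS.gg β n‖ ≤ ((Nat.finMulAntidiag K n).card : ℝ) := by
  unfold GS.gg
  refine (norm_sum_le _ _).trans ?_
  rw [Finset.sum_congr rfl fun f _ => norm_e _]
  simp

theorem g_one {K : ℕ} (β : Fin K → ℝ) : ‖GS.gg β 1‖ = 1 := by
  unfold GS.gg
  rw [Nat.finMulAntidiag_one, Finset.sum_singleton]
  exact norm_e _

theorem g_sum (hDK : S_DK) {K : ℕ} (hK : 0 < K) (β : Fin K → ℝ) :
    Summable (fun n : ℕ => ‖GS.gg β (n + 1)‖ ^ 2 / ((n : ℝ) + 1) ^ (1 + 1 / (K : ℝ))) ∧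
    1 ≤ ∑' n : ℕ, ‖GS.gg β (n + 1)‖ ^ 2 / ((n : ℝ) + 1) ^ (1 + 1 / (K : ℝ)) := by
  have hK0 : (0 : ℝ) < K := by exact_mod_cast hK
  obtain ⟨C, hC, h⟩ := hDK K (1 / (4 * K)) (by positivity)
  have hs : Summable (fun n : ℕ => ‖GS.gg β (n + 1)‖ ^ 2 / ((n : ℝ) + 1) ^ (1 + 1 / (K : ℝ))) := by
    have h1 : Summable (fun n : ℕ => C ^ 2 * (1 / ((n : ℝ) + 1) ^ (1 + 1 / (2 * (K : ℝ))))) := by
      refine Summable.mul_left _ ?_
      have h2 : Summable (fun n : ℕ => 1 / (n : ℝ) ^ (1 + 1 / (2 * (K : ℝ)))) :=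
        Real.summable_one_div_nat_rpow.2 (by
          have : 0 < 1 / (2 * (K : ℝ)) := by positivity
          linarith)
      have h3 := (summable_nat_add_iff 1).2 h2
      refine h3.congr fun n => ?_
      push_cast
      rfl
    refine Summable.of_nonneg_of_le (fun n => by positivity) (fun n => ?_) h1
    have hn : (0 : ℝ) < (n : ℝ) + 1 := by positivity
    have h2 := (g_le β (n + 1)).trans (h (n + 1) (by omega))
    push_cast at h2
    have h3 : ‖GS.gg β (n + 1)‖ ^ 2 ≤ C ^ 2 * ((n : ℝ) + 1) ^ (1 / (2 * (K : ℝ))) := by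
      calc ‖GS.gg β (n + 1)‖ ^ 2 ≤ (C * ((n : ℝ) + 1) ^ (1 / (4 * (K : ℝ)))) ^ 2 := by gcongr
        _ = _ := by
          rw [mul_pow, ← Real.rpow_natCast (((n : ℝ) + 1) ^ (1 / (4 * (K : ℝ)))), ← Real.rpow_mul hn.le]
          congr 2
          push_cast
          field_simp
          norm_num
    rw [div_le_iff₀ (by positivity)]
    refine h3.trans (le_of_eq ?_)
    have h4 : ((n : ℝ) + 1) ^ (1 + 1 / (K : ℝ)) = ((n : ℝ) + 1) ^ (1 + 1 / (2 * (K : ℝ))) * ((n : ℝ) + 1) ^ (1 / (2 * (K : ℝ))) := by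
      rw [← Real.rpow_add hn]
      congr 1
      field_simp
      ring
    rw [h4]
    have : ((n : ℝ) + 1) ^ (1 + 1 / (2 * (K : ℝ))) ≠ 0 := (Real.rpow_pos_of_pos hn _).ne'
    field_simp
  refine ⟨hs, ?_⟩
  refine le_trans (le_of_eq ?_) (hs.le_tsum 0 fun n _ => by positivity)
  simp [g_one]

end

end Pool.Agent.J4H38.GSX
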