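import Pool.Agent.J4H38.GSX.Asy
import Pool.Agent.J4H38.GSX.Sum
import Pool.Agent.J4H38.GSX.Low2
import Pool.Agent.J4H38.GSX.E7b
import Pool.Agent.J4H38.GS.L5
import Pool.Agent.J4H38.GS.L3
import Pool.Agent.J4H38.GS.Pm
import Pool.Agent.J4H30.GS.Kb
import Pool.Agent.J4H30.GS.Tr
import Pool.Agent.J4H13.GS.Fu
import Pool.Agent.J4H89.GS.PP
import Pool.Agent.J4H89.GS.HUR
import Pool.Agent.J4H89.GS.DAN
import Pool.Agent.J4H93.GS.L1
import Pool.Agent.J4H72.GS.L2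
import Pool.Agent.J4H72.GS.L4
import Pool.Agent.J4H18.GS.Wi
import Pool.Agent.J4H53.GS.Ab
import Pool.Agent.J4H53.GS.Mve
import Pool.Agent.J4H12.GS.Pars
import Pool.Agent.J4H12.GS.Gamp
import Pool.Agent.J4H79.GS5.Psi
import Pool.Agent.J4H79.GS5.Pib
import Pool.Agent.J4H57.GS.Pol
import Pool.Agent.J4H57.GS.Dia
import Pool.Agent.J4H57.GS.Dk
import Pool.Agent.J4H57.GS.La
import Pool.Agent.J4H57.GS.Sub
import Pool.Agent.J4H4.GS.Ez
import Pool.Agent.J4H6.GS5.Rem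
import Pool.Agent.J4H97.GS.Mvd

/-!
# The mean square in the Piltz divisor problem for almost all shifts: asymptotic formula

Problem MP_bc6037_nt: the number of the `n ∈ ℕ^K` with `n_1 ⋯ n_K ≤ x` is `x P(log x) + Δ(x)`, and the conjectured size of the
remainder in mean square is `∫_1^X Δ(x)² dx ≪ X^{1 + (K-1)/K + ε}` (for all `K` equivalent to the Lindelöf hypothesis).  Here
`n_1 ⋯ n_K` is replaced by `∏ (n_i + β_i)`, `β ∈ [0, 1)^K`.  For almost every shift vector `β` the mean square of the remainder is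
asymptotically `c(β) X^{2 - 1/K}` with an explicit constant (for `β = 0` and `K = 2`, `3` it is the constant of Cramér and Tong), and
for every shift vector its exponent is at least `2 - 1/K`.
-/

set_option autoImplicit false

open MeasureTheory Polynomial Filter Topology

namespace Pool.Agent.J4H38.GSX.RV5

/-- The number of the `n ∈ ℕ^K` with all `n_i ≥ 1` and `∏ (n_i + β_i) ≤ x`. -/
noncomputable def count (K : ℕ) (β : Fin K → ℝ) (x : ℝ) : ℕ :=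
  {n : Fin K → ℕ | (∀ i, 1 ≤ n i) ∧ ∏ i, ((n i : ℝ) + β i) ≤ x}.ncard

/-- `g_n(β) = ∑ e(β_1 n_1 + ⋯ + β_K n_K)` over the factorisations `n = n_1 ⋯ n_K`, `e(y) = exp(2πiy)`. -/
noncomputable def coef {K : ℕ} (β : Fin K → ℝ) (n : ℕ) : ℂ :=
  ∑ f ∈ Nat.finMulAntidiag K n, Complex.exp (2 * Real.pi * Complex.I * ((∑ i, β i * f i : ℝ) : ℂ))

/-- For `K ≥ 2` and almost every `β ∈ [0, 1)^K`: `∫_1^X Δ² ~ (∑ |g_n(β)|² n^{-1-1/K}) / ((4K-2) π²) · X^{2-1/K}`, `Δ(x) = N(x) - x P(log x)`. -/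
def Asymptotic : Prop :=
  ∀ K : ℕ, 2 ≤ K → ∀ᵐ β : Fin K → ℝ ∂(volume.restrict (Set.pi Set.univ fun _ => Set.Ico (0 : ℝ) 1)),
    Summable (fun n : ℕ => ‖coef β (n + 1)‖ ^ 2 / ((n : ℝ) + 1) ^ (1 + 1 / (K : ℝ))) ∧
    1 ≤ ∑' n : ℕ, ‖coef β (n + 1)‖ ^ 2 / ((n : ℝ) + 1) ^ (1 + 1 / (K : ℝ)) ∧
    ∃ P : ℝ[X], P.degree < (K : WithBot ℕ) ∧
      (∀ X : ℝ, 1 ≤ X → IntervalIntegrable (fun x => ((count K β x : ℝ) - x * P.eval (Real.log x)) ^ 2) volume 1 X) ∧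
      Tendsto (fun X : ℝ => (∫ x in (1 : ℝ)..X, ((count K β x : ℝ) - x * P.eval (Real.log x)) ^ 2) / X ^ (2 - 1 / (K : ℝ))) atTop
        (𝓝 ((∑' n : ℕ, ‖coef β (n + 1)‖ ^ 2 / ((n : ℝ) + 1) ^ (1 + 1 / (K : ℝ))) / ((4 * K - 2) * Real.pi ^ 2)))

/-- For `K ≥ 2`, every shift vector `β ∈ [0, 1)^K` and every main term `x Q(log x)`: the exponent is at least `2 - 1/K`. -/
def Lower : Prop :=
  ∀ K : ℕ, 2 ≤ K → ∀ β : Fin K → ℝ, (∀ i, 0 ≤ β i ∧ β i < 1) →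
    ∀ (Q : ℝ[X]) (b : ℝ), b < ((K : ℝ) - 1) / (2 * K) →
      ¬ ∃ C : ℝ, ∀ X : ℝ, 1 ≤ X →
        ∫ x in (1 : ℝ)..X, ((count K β x : ℝ) - x * Q.eval (Real.log x)) ^ 2 ≤ C * X ^ (1 + 2 * b)

theorem sq_int {K : ℕ} {β : Fin K → ℝ} (hβ : ∀ i, 0 ≤ β i) (P : ℝ[X]) {X : ℝ} (hX : 1 ≤ X) :
    IntervalIntegrable (fun x => ((count K β x : ℝ) - x * P.eval (Real.log x)) ^ 2) volume 1 X :=
  Pool.Agent.J4H38.GSX.err_int hβ P hX

theorem asy : Pool.Agent.J4H38.GS.S_ASY :=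
  have dan := Pool.Agent.J4H89.GS.t_DAN
  have hur := Pool.Agent.J4H89.GS.t_HUR
  have l2 := Pool.Agent.J4H72.GS.t_L2
  have l3 := Pool.Agent.J4H38.GS.t_L3 dan hur
  have ez := Pool.Agent.J4H4.GS.t_EZ
  have la := Pool.Agent.J4H57.GS.La.t_LA ez
  have sub := Pool.Agent.J4H57.GS.Sub.t_SUB ez la
  have dk := Pool.Agent.J4H57.GS.Dk.t_DK
  have mvd := Pool.Agent.J4H97.GS.t_MVD (Pool.Agent.J4H6.GS5.t_REM ez la) sub dk Pool.Agent.J4H57.GS.t_POL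
  Pool.Agent.J4H38.GSX.t_ASY dan (Pool.Agent.J4H13.GS.t_FU (Pool.Agent.J4H13.GS.t_SM Pool.Agent.J4H30.GS.t_KB))
    (Pool.Agent.J4H30.GS.t_TR hur) Pool.Agent.J4H89.GS.t_PP Pool.Agent.J4H38.GS.t_PM (Pool.Agent.J4H93.GS.t_L1 dan hur)
    Pool.Agent.J4H18.GS.t_WI Pool.Agent.J4H53.GS.t_AB Pool.Agent.J4H12.GS.t_PARS Pool.Agent.J4H12.GS.t_GAMP
    (fun k α => (Pool.Agent.J4H57.GS.Dia.t_DIA dk k α).1)
    (Pool.Agent.J4H53.GS.t_MVE l2 l3 sub mvd) Pool.Agent.J4H79.GS5.t_PSI Pool.Agent.J4H79.GS5.t_PIB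

theorem low : Pool.Agent.J4H38.GS.S_LOW2 :=
  have dan := Pool.Agent.J4H89.GS.t_DAN
  have hur := Pool.Agent.J4H89.GS.t_HUR
  have l2 := Pool.Agent.J4H72.GS.t_L2
  Pool.Agent.J4H38.GSX.t_LOW2 dan
    (Pool.Agent.J4H38.GSX.t_L6 dan (Pool.Agent.J4H93.GS.t_L1 dan hur) l2 (Pool.Agent.J4H38.GS.t_L3 dan hur)
      (Pool.Agent.J4H72.GS.t_L4 l2) Pool.Agent.J4H38.GS.t_L5)
    (Pool.Agent.J4H38.GSX.t_E7 dan (Pool.Agent.J4H30.GS.t_TR hur) Pool.Agent.J4H38.GS.t_PM)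

theorem asymptotic : Asymptotic := by
  intro K hK
  have hcm : MeasurableSet (Set.pi Set.univ fun _ : Fin K => Set.Ico (0 : ℝ) 1) :=
    MeasurableSet.univ_pi (fun _ => measurableSet_Ico)
  filter_upwards [asy K hK, ae_restrict_mem hcm] with β hβ hcube
  obtain ⟨P, hP, h⟩ := hβ
  obtain ⟨h1, h2⟩ := Pool.Agent.J4H38.GSX.g_sum Pool.Agent.J4H57.GS.Dk.t_DK (by omega : 0 < K) β
  exact ⟨h1, h2, P, hP, fun X hX => sq_int (fun i => (hcube i (Set.mem_univ i)).1) P hX, h⟩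

theorem lower : Lower := fun K hK β hβ => low K hK β fun i _ => ⟨(hβ i).1, (hβ i).2⟩

/-- The mean square of the remainder in the Piltz divisor problem with shifts: asymptotic formula for almost all shift vectors, and
the exponent as a lower bound for all shift vectors. -/
theorem result : Asymptotic ∧ Lower := ⟨asymptotic, lower⟩

end Pool.Agent.J4H38.GSX.RV5
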