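import Pool.Agent.J4H38.GSX.Asy2
import Pool.Agent.J4H38.GSX.Sum
import Pool.Agent.J4H38.GSX.Low2
import Pool.Agent.J4H38.GSX.E7b
import Pool.Agent.J4H38.GS.L5
import Pool.Agent.J4H38.GS.L3
import Pool.Agent.J4H38.GS.Pm
import Pool.Agent.J4H38.GS.Z1
import Pool.Agent.J4H30.GS.Kb
import Pool.Agent.J4H30.GS.Tr
import Pool.Agent.J4H13.GS.Fu2
import Pool.Agent.J4H89.GS.PP
import Pool.Agent.J4H89.GS.HUR
import Pool.Agent.J4H89.GS.DAN
import Pool.Agent.J4H93.GS.L1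
import Pool.Agent.J4H72.GS.L2
import Pool.Agent.J4H72.GS.L4
import Pool.Agent.J4H94.GS.Z3
import Pool.Agent.J4H94.GS.Z4
import Pool.Agent.J4H55.GS.Z2
import Pool.Agent.J4H49.GS.Z3A
import Pool.Agent.J4H18.GS.Wi
import Pool.Agent.J4H53.GS.Ab
import Pool.Agent.J4H12.GS.Pars
import Pool.Agent.J4H12.GS.Gamp
import Pool.Agent.J4H79.GS5.Psi
import Pool.Agent.J4H79.GS5.Pib
import Pool.Agent.J4H57.GS.Pol
import Pool.Agent.J4H57.GS.Dia
import Pool.Agent.J4H57.GS.Dk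
import Pool.Agent.J4H57.GS.La
import Pool.Agent.J4H4.GS.Ez
import Pool.Agent.J4H94.GS6.Z7
import Pool.Agent.J4H94.GS6.Z8
import Pool.Agent.J4H6.GS6.Rem2
import Pool.Agent.J4H57.GS6.Sub2
import Pool.Agent.J4H53.GS6.Mvd2
import Pool.Agent.J4H53.GS6.Mve2

/-!
# The mean square in the Piltz divisor problem for almost all shifts: asymptotic formula

Problem MP_bc6037_nt: the number of the `n ∈ ℕ^K` with `n_1 ⋯ n_K ≤ x` is `x P(log x) + Δ(x)`, and the conjectured size of the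
remainder in mean square is `∫_1^X Δ(x)² dx ≪ X^{1 + (K-1)/K + ε}` (for all `K` equivalent to the Lindelöf hypothesis).  Here
`n_1 ⋯ n_K` is replaced by `∏ (n_i + β_i)`, `β ∈ [0, 1)^K`.  If up to two of the shifts are zero and the vector of the others is any
one outside a null set, then the mean square of the remainder is asymptotically `c(β) X^{2 - 1/K}` with an explicit constant (for
`β = 0` and `K = 2` it is the theorem of Cramér), and for every shift vector its exponent is at least `2 - 1/K`.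
-/

set_option autoImplicit false

open MeasureTheory Polynomial Filter Topology

namespace Pool.Agent.J4H38.GSX.RV6

/-- The number of the `n ∈ ℕ^K` with all `n_i ≥ 1` and `∏ (n_i + β_i) ≤ x`. -/
noncomputable def count (K : ℕ) (β : Fin K → ℝ) (x : ℝ) : ℕ :=
  {n : Fin K → ℕ | (∀ i, 1 ≤ n i) ∧ ∏ i, ((n i : ℝ) + β i) ≤ x}.ncard

/-- `g_n(β) = ∑ e(β_1 n_1 + ⋯ + β_K n_K)` over the factorisations `n = n_1 ⋯ n_K`, `e(y) = exp(2πiy)`. -/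
noncomputable def coef {K : ℕ} (β : Fin K → ℝ) (n : ℕ) : ℂ :=
  ∑ f ∈ Nat.finMulAntidiag K n, Complex.exp (2 * Real.pi * Complex.I * ((∑ i, β i * f i : ℝ) : ℂ))

/-- The shift vector `(0, …, 0, α_1, …, α_k)` with `J` zeros. -/
noncomputable def shifts (J k : ℕ) (α : Fin k → ℝ) : Fin (J + k) → ℝ :=
  Fin.append (fun _ : Fin J => (0 : ℝ)) α

/-- For `J ≤ 2`, `K = J + k ≥ 2`, almost every `α ∈ [0, 1)^k` and `β = (0, …, 0, α)`:
`∫_1^X Δ² ~ (∑ |g_n(β)|² n^{-1-1/K}) / ((4K-2) π²) · X^{2-1/K}`, `Δ(x) = N(x) - x P(log x)`. -/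
def Asymptotic : Prop :=
  ∀ J k : ℕ, J ≤ 2 → 2 ≤ J + k →
    ∀ᵐ α : Fin k → ℝ ∂(volume.restrict (Set.pi Set.univ fun _ => Set.Ico (0 : ℝ) 1)),
    Summable (fun n : ℕ => ‖coef (shifts J k α) (n + 1)‖ ^ 2 / ((n : ℝ) + 1) ^ (1 + 1 / ((J + k : ℕ) : ℝ))) ∧
    1 ≤ ∑' n : ℕ, ‖coef (shifts J k α) (n + 1)‖ ^ 2 / ((n : ℝ) + 1) ^ (1 + 1 / ((J + k : ℕ) : ℝ)) ∧
    ∃ P : ℝ[X], P.degree < ((J + k : ℕ) : WithBot ℕ) ∧
      (∀ X : ℝ, 1 ≤ X → IntervalIntegrable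
        (fun x => ((count (J + k) (shifts J k α) x : ℝ) - x * P.eval (Real.log x)) ^ 2) volume 1 X) ∧
      Tendsto (fun X : ℝ => (∫ x in (1 : ℝ)..X, ((count (J + k) (shifts J k α) x : ℝ) - x * P.eval (Real.log x)) ^ 2) /
          X ^ (2 - 1 / ((J + k : ℕ) : ℝ))) atTop
        (𝓝 ((∑' n : ℕ, ‖coef (shifts J k α) (n + 1)‖ ^ 2 / ((n : ℝ) + 1) ^ (1 + 1 / ((J + k : ℕ) : ℝ))) /
          ((4 * ((J + k : ℕ) : ℝ) - 2) * Real.pi ^ 2)))

/-- For `K ≥ 2`, every shift vector `β ∈ [0, 1)^K` and every main term `x Q(log x)`: the exponent is at least `2 - 1/K`. -/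
def Lower : Prop :=
  ∀ K : ℕ, 2 ≤ K → ∀ β : Fin K → ℝ, (∀ i, 0 ≤ β i ∧ β i < 1) →
    ∀ (Q : ℝ[X]) (b : ℝ), b < ((K : ℝ) - 1) / (2 * K) →
      ¬ ∃ C : ℝ, ∀ X : ℝ, 1 ≤ X →
        ∫ x in (1 : ℝ)..X, ((count K β x : ℝ) - x * Q.eval (Real.log x)) ^ 2 ≤ C * X ^ (1 + 2 * b)

theorem sq_int {K : ℕ} {β : Fin K → ℝ} (hβ : ∀ i, 0 ≤ β i) (P : ℝ[X]) {X : ℝ} (hX : 1 ≤ X) :
    IntervalIntegrable (fun x => ((count K β x : ℝ) - x * P.eval (Real.log x)) ^ 2) volume 1 X :=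
  Pool.Agent.J4H38.GSX.err_int hβ P hX

theorem asy : Pool.Agent.J4H38.GSX.S_ASY2 :=
  have dan := Pool.Agent.J4H89.GS.t_DAN
  have hur := Pool.Agent.J4H89.GS.t_HUR
  have l2 := Pool.Agent.J4H72.GS.t_L2
  have l3 := Pool.Agent.J4H38.GS.t_L3 dan hur
  have ez := Pool.Agent.J4H4.GS.t_EZ
  have la := Pool.Agent.J4H57.GS.La.t_LA ez
  have z7 := Pool.Agent.J4H94.GS6.t_Z7
  have sub := Pool.Agent.J4H57.GS6.t_SUB2 ez la z7
  have dk := Pool.Agent.J4H57.GS.Dk.t_DK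
  have mvd := Pool.Agent.J4H53.GS6.t_MVD2 (Pool.Agent.J4H6.GS6.t_REM2 ez la z7 (Pool.Agent.J4H94.GS6.t_Z8 z7)) sub dk
    Pool.Agent.J4H57.GS.t_POL
  Pool.Agent.J4H38.GSX.t_ASY2 dan
    (Pool.Agent.J4H13.GS.t_FU2 (Pool.Agent.J4H13.GS.t_SM Pool.Agent.J4H30.GS.t_KB) (Pool.Agent.J4H38.GS.t_Z1 dan hur)
      (Pool.Agent.J4H94.GS.t_Z4 Pool.Agent.J4H55.GS.t_Z2 (Pool.Agent.J4H94.GS.t_Z3 Pool.Agent.J4H49.GS.t_Z3A)))
    (Pool.Agent.J4H30.GS.t_TR hur) Pool.Agent.J4H89.GS.t_PP Pool.Agent.J4H38.GS.t_PM (Pool.Agent.J4H93.GS.t_L1 dan hur)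
    Pool.Agent.J4H18.GS.t_WI Pool.Agent.J4H53.GS.t_AB Pool.Agent.J4H12.GS.t_PARS Pool.Agent.J4H12.GS.t_GAMP
    (fun k α => (Pool.Agent.J4H57.GS.Dia.t_DIA dk k α).1)
    (Pool.Agent.J4H53.GS6.t_MVE2 l2 l3 sub mvd) Pool.Agent.J4H79.GS5.t_PSI Pool.Agent.J4H79.GS5.t_PIB

theorem low : Pool.Agent.J4H38.GS.S_LOW2 :=
  have dan := Pool.Agent.J4H89.GS.t_DAN
  have hur := Pool.Agent.J4H89.GS.t_HUR
  have l2 := Pool.Agent.J4H72.GS.t_L2
  Pool.Agent.J4H38.GSX.t_LOW2 dan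
    (Pool.Agent.J4H38.GSX.t_L6 dan (Pool.Agent.J4H93.GS.t_L1 dan hur) l2 (Pool.Agent.J4H38.GS.t_L3 dan hur)
      (Pool.Agent.J4H72.GS.t_L4 l2) Pool.Agent.J4H38.GS.t_L5)
    (Pool.Agent.J4H38.GSX.t_E7 dan (Pool.Agent.J4H30.GS.t_TR hur) Pool.Agent.J4H38.GS.t_PM)

theorem asymptotic : Asymptotic := by
  intro J k hJ hK
  have hcm : MeasurableSet (Set.pi Set.univ fun _ : Fin k => Set.Ico (0 : ℝ) 1) :=
    MeasurableSet.univ_pi (fun _ => measurableSet_Ico)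
  filter_upwards [asy J k hJ hK, ae_restrict_mem hcm] with α hα hcube
  obtain ⟨P, hP, h⟩ := hα
  obtain ⟨h1, h2⟩ := Pool.Agent.J4H38.GSX.g_sum Pool.Agent.J4H57.GS.Dk.t_DK (by omega : 0 < J + k) (shifts J k α)
  have hs : ∀ i, 0 ≤ shifts J k α i := fun i =>
    (Pool.Agent.J4H38.GSX.app_mem (J := J) hcube i (Set.mem_univ i)).1
  exact ⟨h1, h2, P, hP, fun X hX => sq_int hs P hX, h⟩

theorem lower : Lower := fun K hK β hβ => low K hK β fun i _ => ⟨(hβ i).1, (hβ i).2⟩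

/-- The mean square of the remainder in the Piltz divisor problem with shifts: asymptotic formula for almost all shift vectors (up to two of the
shifts zero), and the exponent as a lower bound for all shift vectors. -/
theorem result : Asymptotic ∧ Lower := ⟨asymptotic, lower⟩

end Pool.Agent.J4H38.GSX.RV6
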